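import Mathlib

set_option autoImplicit false

open Finset

namespace Pool.Agent.H587.FD

/-! ### counting coprime pairs -/

lemma sum_inv_sq (n : ℕ) : ∑ d ∈ Icc 2 n, 1 / (d : ℝ) ^ 2 ≤ 25 / 36 := by
  have key : ∀ n : ℕ, 3 ≤ n → ∑ d ∈ Icc 2 n, 1 / (d : ℝ) ^ 2 ≤ (25 / 36 : ℝ) - 1 / (n : ℝ) := by
    intro n hn
    induction n, hn using Nat.le_induction with
    | base =>
      have : Icc 2 3 = ({2, 3} : Finset ℕ) := by decide
      rw [this]
      norm_num
    | succ n hn ih =>
      rw [sum_Icc_succ_top (by omega)]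
      have h0 : (3 : ℝ) ≤ n := by exact_mod_cast hn
      have h1 : 1 / ((n + 1 : ℕ) : ℝ) ^ 2 ≤ 1 / n - 1 / ((n + 1 : ℕ) : ℝ) := by
        push_cast
        rw [div_sub_div _ _ (by positivity) (by positivity), div_le_div_iff₀ (by positivity) (by positivity)]
        nlinarith
      linarith
  by_cases hn : 3 ≤ n
  · have := key n hn
    have h0 : (0 : ℝ) ≤ 1 / (n : ℝ) := by positivity
    linarith
  · have : n = 0 ∨ n = 1 ∨ n = 2 := by omega
    rcases this with h | h | h
    · subst h; norm_num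
    · subst h; norm_num
    · subst h; norm_num

lemma sum_inv (n : ℕ) : ∑ d ∈ Icc 2 n, 1 / (d : ℝ) ≤ 2 * Real.sqrt n := by
  induction n with
  | zero => simp
  | succ n ih =>
    by_cases hn : n = 0
    · subst hn; simp
    · rw [sum_Icc_succ_top (by omega)]
      have h0 : (1 : ℝ) ≤ n := by exact_mod_cast Nat.one_le_iff_ne_zero.2 hn
      have h1 : 1 / ((n + 1 : ℕ) : ℝ) ≤ 2 * Real.sqrt ((n + 1 : ℕ) : ℝ) - 2 * Real.sqrt n := by
        have ha : 0 ≤ Real.sqrt n := Real.sqrt_nonneg _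
        have hb : Real.sqrt n ≤ Real.sqrt ((n + 1 : ℕ) : ℝ) := Real.sqrt_le_sqrt (by push_cast; linarith)
        have hc : Real.sqrt ((n + 1 : ℕ) : ℝ) ^ 2 = n + 1 := by
          rw [Real.sq_sqrt (by positivity)]; push_cast; ring
        have hd : Real.sqrt n ^ 2 = n := Real.sq_sqrt (by positivity)
        have he : 1 ≤ Real.sqrt ((n + 1 : ℕ) : ℝ) := by
          rw [Real.one_le_sqrt]; push_cast; linarith
        set a := Real.sqrt ((n + 1 : ℕ) : ℝ)
        set b := Real.sqrt n
        rw [div_le_iff₀ (by positivity)]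
        have hf : ((n + 1 : ℕ) : ℝ) = a ^ 2 := by rw [hc]; push_cast; ring
        rw [hf]
        have hg : (a - b) * (a + b) = 1 := by nlinarith
        have hh : 0 ≤ a - b := by linarith
        nlinarith [mul_nonneg hh (by nlinarith : (0:ℝ) ≤ 2 * a ^ 2 - (a + b))]
      linarith

lemma card_multiples (U d : ℕ) (hd : 1 ≤ d) :
    (((Ico U (2 * U)).filter fun u => d ∣ u).card : ℝ) ≤ U / d + 1 := by
  have h1 : ((Ico U (2 * U)).filter fun u => d ∣ u) ⊆
      (Icc ((U + d - 1) / d) ((2 * U - 1) / d)).image (fun k => d * k) := by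
    intro u hu
    rw [mem_filter, mem_Ico] at hu
    obtain ⟨⟨h2, h3⟩, k, rfl⟩ := hu
    rw [mem_image]
    refine ⟨k, ?_, rfl⟩
    rw [mem_Icc]
    constructor
    · have : (U + d - 1) / d < k + 1 := by
        rw [Nat.div_lt_iff_lt_mul (by omega)]
        have : (k + 1) * d = d * k + d := by ring
        omega
      omega
    · rw [Nat.le_div_iff_mul_le (by omega)]
      have : k * d = d * k := by ring
      omega
  have h2 := (card_le_card h1).trans card_image_le
  rw [Nat.card_Icc] at h2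
  have h3 : (((2 * U - 1) / d + 1 - (U + d - 1) / d : ℕ) : ℝ) ≤ U / d + 1 := by
    by_cases hU : U = 0
    · subst hU
      have : (2 * 0 - 1) / d + 1 - (0 + d - 1) / d ≤ 1 := by
        have h9 : (2 * 0 - 1) / d = 0 := by norm_num
        rw [h9]
        exact Nat.sub_le _ _
      have h4 : (((2 * 0 - 1) / d + 1 - (0 + d - 1) / d : ℕ) : ℝ) ≤ 1 := by exact_mod_cast this
      have h10 : ((0 : ℕ) : ℝ) / d + 1 = 1 := by norm_num
      rw [h10]; exact h4
    have hd0 : (0 : ℝ) < d := by exact_mod_cast hd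
    have h4 : (((2 * U - 1) / d : ℕ) : ℝ) ≤ (2 * U - 1 : ℝ) / d := by
      refine Nat.cast_div_le.trans ?_
      gcongr
      rw [Nat.cast_sub (by omega)]; push_cast; linarith
    have h5 : (U : ℝ) / d ≤ (((U + d - 1) / d : ℕ) : ℝ) := by
      rw [div_le_iff₀ hd0]
      have h6 : U ≤ (U + d - 1) / d * d := by
        have := Nat.lt_div_mul_add (a := U + d - 1) (b := d) (by omega)
        omega
      exact_mod_cast h6
    have h7 : (((2 * U - 1) / d + 1 - (U + d - 1) / d : ℕ) : ℝ) ≤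
        max 0 ((((2 * U - 1) / d : ℕ) : ℝ) + 1 - (((U + d - 1) / d : ℕ) : ℝ)) := by
      by_cases hle : (U + d - 1) / d ≤ (2 * U - 1) / d + 1
      · rw [Nat.cast_sub hle]; push_cast; exact le_max_right _ _
      · rw [Nat.sub_eq_zero_of_le (by omega)]; simp
    refine h7.trans (max_le (by positivity) ?_)
    have h8 : (2 * U - 1 : ℝ) / d ≤ U / d + U / d := by
      rw [← add_div]; gcongr; linarith
    linarith
  exact le_trans (by exact_mod_cast h2) h3

/-- many coprime pairs -/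
lemma card_coprime (U V : ℕ) (hV : 2000 ≤ V) (hUV : V ≤ U) :
    (U * V / 8 : ℝ) ≤ (((Ico U (2 * U) ×ˢ Ico V (2 * V)).filter fun z => Nat.Coprime z.1 z.2).card : ℝ) := by
  set S := Ico U (2 * U) ×ˢ Ico V (2 * V) with hS
  have hcard : (S.card : ℝ) = U * V := by
    rw [hS, card_product, Nat.card_Ico, Nat.card_Ico]
    have h1 : 2 * U - U = U := by omega
    have h2 : 2 * V - V = V := by omega
    rw [h1, h2]; push_cast; ring
  have hsplit := card_filter_add_card_filter_not (s := S) (fun z => Nat.Coprime z.1 z.2)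
  have hnot : ((S.filter fun z => ¬ Nat.Coprime z.1 z.2).card : ℝ) ≤
      ∑ d ∈ Icc 2 (2 * V), (U / d + 1 : ℝ) * (V / d + 1) := by
    have h1 : (S.filter fun z => ¬ Nat.Coprime z.1 z.2) ⊆
        (Icc 2 (2 * V)).biUnion fun d =>
          ((Ico U (2 * U)).filter fun u => d ∣ u) ×ˢ ((Ico V (2 * V)).filter fun v => d ∣ v) := by
      rintro ⟨u, v⟩ hz
      rw [mem_filter, hS, mem_product] at hz
      obtain ⟨⟨hu, hv⟩, hc⟩ := hz
      simp only at hu hv hc
      rw [mem_biUnion]
      refine ⟨Nat.gcd u v, ?_, ?_⟩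
      · rw [mem_Ico] at hv
        have h2 : Nat.gcd u v ≠ 0 := by
          intro h0
          rw [Nat.gcd_eq_zero_iff] at h0
          omega
        have h3 : Nat.gcd u v ≠ 1 := hc
        have h4 : Nat.gcd u v ≤ v := Nat.gcd_le_right _ (by omega)
        rw [mem_Icc]
        omega
      · rw [mem_product, mem_filter, mem_filter]
        exact ⟨⟨hu, Nat.gcd_dvd_left _ _⟩, hv, Nat.gcd_dvd_right _ _⟩
    have h2 := (card_le_card h1).trans card_biUnion_le
    have h3 : ((S.filter fun z => ¬ Nat.Coprime z.1 z.2).card : ℝ) ≤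
        ∑ d ∈ Icc 2 (2 * V), ((((Ico U (2 * U)).filter fun u => d ∣ u) ×ˢ
          ((Ico V (2 * V)).filter fun v => d ∣ v)).card : ℝ) := by exact_mod_cast h2
    refine h3.trans (sum_le_sum fun d hd => ?_)
    rw [mem_Icc] at hd
    rw [card_product]
    push_cast
    apply mul_le_mul (card_multiples U d (by omega)) (card_multiples V d (by omega)) (by positivity)
    positivity
  have hsum : ∑ d ∈ Icc 2 (2 * V), (U / d + 1 : ℝ) * (V / d + 1) ≤
      25 / 36 * (U * V) + (U + V) * (2 * Real.sqrt (2 * V : ℕ)) + 2 * V := by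
    have h1 : ∀ d ∈ Icc 2 (2 * V), (U / d + 1 : ℝ) * (V / d + 1) =
        U * V * (1 / (d : ℝ) ^ 2) + (U + V) * (1 / (d : ℝ)) + 1 := by
      intro d hd
      rw [mem_Icc] at hd
      have : (d : ℝ) ≠ 0 := by
        have : d ≠ 0 := by omega
        exact_mod_cast this
      field_simp
      ring
    rw [sum_congr rfl h1, sum_add_distrib, sum_add_distrib, ← mul_sum, ← mul_sum]
    have h2 := sum_inv_sq (2 * V)
    have h3 := sum_inv (2 * V)
    have h4 : ∑ d ∈ Icc 2 (2 * V), (1 : ℝ) ≤ 2 * V := by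
      rw [sum_const, nsmul_eq_mul, mul_one, Nat.card_Icc]
      have : 2 * V + 1 - 2 ≤ 2 * V := by omega
      exact_mod_cast this
    have h5 : (U : ℝ) * V * ∑ d ∈ Icc 2 (2 * V), 1 / (d : ℝ) ^ 2 ≤ U * V * (25 / 36) := by gcongr
    have h6 : ((U : ℝ) + V) * ∑ d ∈ Icc 2 (2 * V), 1 / (d : ℝ) ≤ (U + V) * (2 * Real.sqrt (2 * V : ℕ)) := by
      gcongr
    linarith
  have hV0 : (2000 : ℝ) ≤ V := by exact_mod_cast hV
  have hUV0 : (V : ℝ) ≤ U := by exact_mod_cast hUV
  have hsq : Real.sqrt (2 * V : ℕ) ≤ V / 25 := by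
    rw [Real.sqrt_le_left (by positivity)]
    push_cast
    nlinarith
  have h7 : ((U : ℝ) + V) * (2 * Real.sqrt (2 * V : ℕ)) ≤ (U + U) * (2 * (V / 25)) := by gcongr
  have h8 : ((S.filter fun z => Nat.Coprime z.1 z.2).card : ℝ) =
      U * V - (S.filter fun z => ¬ Nat.Coprime z.1 z.2).card := by
    rw [← hcard, ← hsplit]; push_cast; ring
  rw [h8]
  nlinarith

end Pool.Agent.H587.FD
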