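import Mathlib
import Pool.Agent.H587.FD.Cop

set_option autoImplicit false

open Finset

namespace Pool.Agent.H587.FD

/-! ### many primitive lattice points in a box with both coordinates of full size -/

lemma geo (x1 x2 y1 y2 : ℝ) (hdet : |x1 * y2 - x2 * y1| = 1) (a b : ℤ) (hw : IsCoprime a b)
    (lam : ℝ) (hx : |x1 * a + x2 * b| = lam) (hy : |y1 * a + y2 * b| ≤ lam) (hlam : lam ≤ 1)
    (A : ℝ) (hA0 : 0 < A) (hA : 20000 ≤ A * lam) :
    ∃ S : Finset (ℤ × ℤ), (∀ z ∈ S, IsCoprime z.1 z.2 ∧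
      A / 32 ≤ |x1 * z.1 + x2 * z.2| ∧ |x1 * z.1 + x2 * z.2| ≤ 2 * A ∧
      A / 32 ≤ |y1 * z.1 + y2 * z.2| ∧ |y1 * z.1 + y2 * z.2| ≤ 2 * A) ∧
      (∀ z ∈ S, -z ∉ S) ∧ A ^ 2 / 512 ≤ S.card := by
  classical
  have hlam0 : 0 < lam := by
    rcases lt_or_ge 0 lam with h | h
    · exact h
    · nlinarith
  obtain ⟨c0, d0, hcd⟩ := hw
  -- Bezout: c0 * a + d0 * b = 1 ; w' = (-d0, c0)
  set X0 : ℝ := x1 * a + x2 * b with hX0
  set Y0 : ℝ := y1 * a + y2 * b with hY0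
  have hX0ne : X0 ≠ 0 := by
    intro h; rw [h, abs_zero] at hx; linarith
  set k : ℤ := -round ((x1 * (-d0 : ℤ) + x2 * (c0 : ℤ)) / X0) with hk
  set a' : ℤ := -d0 + k * a with ha'
  set b' : ℤ := c0 + k * b with hb'
  have hbez : a * b' - b * a' = 1 := by
    rw [ha', hb']; linarith
  set X1 : ℝ := x1 * a' + x2 * b' with hX1
  set Y1 : ℝ := y1 * a' + y2 * b' with hY1
  have hX1le : |X1| ≤ lam / 2 := by
    have h1 : X1 = ((x1 * (-d0 : ℤ) + x2 * (c0 : ℤ)) / X0 - round ((x1 * (-d0 : ℤ) + x2 * (c0 : ℤ)) / X0)) * X0 := by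
      rw [sub_mul, div_mul_cancel₀ _ hX0ne, hX1, ha', hb', hk]
      push_cast
      rw [hX0]; ring
    rw [h1, abs_mul, hx]
    have := abs_sub_round ((x1 * (-d0 : ℤ) + x2 * (c0 : ℤ)) / X0)
    nlinarith
  have hdet2 : |X0 * Y1 - X1 * Y0| = 1 := by
    have h1 : X0 * Y1 - X1 * Y0 = (x1 * y2 - x2 * y1) * ((a * b' - b * a' : ℤ) : ℝ) := by
      rw [hX0, hX1, hY0, hY1]; push_cast; ring
    rw [h1, hbez, Int.cast_one, mul_one, hdet]
  have hprod : |X1 * Y0| ≤ 1 / 2 := by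
    rw [abs_mul]
    calc |X1| * |Y0| ≤ lam / 2 * lam := by gcongr
      _ ≤ 1 / 2 := by nlinarith
  have hXY : |X0 * Y1| ≤ 3 / 2 ∧ 1 / 2 ≤ |X0 * Y1| := by
    constructor
    · calc |X0 * Y1| = |(X0 * Y1 - X1 * Y0) + X1 * Y0| := by congr 1; ring
        _ ≤ _ := abs_add_le _ _
        _ ≤ 3 / 2 := by rw [hdet2]; linarith
    · have : |X0 * Y1 - X1 * Y0| ≤ |X0 * Y1| + |X1 * Y0| := abs_sub _ _
      rw [hdet2] at this
      linarith
  rw [abs_mul, hx] at hXY
  obtain ⟨hY1u, hY1l⟩ := hXY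
  -- sign
  obtain ⟨s, hs, hsign⟩ : ∃ s : ℤ, (s = 1 ∨ s = -1) ∧ 0 ≤ Y0 * ((s : ℝ) * Y1) := by
    rcases le_or_gt 0 (Y0 * Y1) with h | h
    · exact ⟨1, Or.inl rfl, by simpa using h⟩
    · refine ⟨-1, Or.inr rfl, ?_⟩
      push_cast
      nlinarith
  have hs1 : |(s : ℝ)| = 1 := by rcases hs with h | h <;> simp [h]
  have hsne : s ≠ 0 := by rcases hs with h | h <;> simp [h]
  -- ranges
  set U : ℕ := ⌊A / (2 * lam)⌋₊ with hU
  set V : ℕ := ⌊A * lam / 8⌋₊ with hV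
  have hU1 : (U : ℝ) ≤ A / (2 * lam) := Nat.floor_le (by positivity)
  have hU2 : A / (2 * lam) < U + 1 := Nat.lt_floor_add_one _
  have hV1 : (V : ℝ) ≤ A * lam / 8 := Nat.floor_le (by positivity)
  have hV2 : A * lam / 8 < V + 1 := Nat.lt_floor_add_one _
  have hV3 : 2000 ≤ V := by
    rw [hV, Nat.le_floor_iff (by positivity)]
    norm_num; linarith
  have hVU : V ≤ U := by
    apply Nat.floor_le_floor
    rw [div_le_div_iff₀ (by norm_num) (by positivity)]
    nlinarith [mul_pos hA0 hlam0]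
  have hUl1 : (U : ℝ) * lam ≤ A / 2 := by
    have := mul_le_mul_of_nonneg_right hU1 hlam0.le
    have h2 : A / (2 * lam) * lam = A / 2 := by field_simp
    linarith
  have hUl2 : A / 2 - lam < (U : ℝ) * lam := by
    have := mul_lt_mul_of_pos_right hU2 hlam0
    have h2 : A / (2 * lam) * lam = A / 2 := by field_simp
    nlinarith
  set φ : ℕ × ℕ → ℤ × ℤ := fun z => ((z.1 : ℤ) * a + s * z.2 * a', (z.1 : ℤ) * b + s * z.2 * b') with hφ
  have hdetφ1 : ∀ z : ℕ × ℕ, (φ z).1 * b' - (φ z).2 * a' = z.1 := by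
    intro z
    simp only [hφ]
    linear_combination (z.1 : ℤ) * hbez
  have hdetφ2 : ∀ z : ℕ × ℕ, a * (φ z).2 - b * (φ z).1 = s * z.2 := by
    intro z
    simp only [hφ]
    linear_combination (s * (z.2 : ℤ)) * hbez
  set P : Finset (ℕ × ℕ) := (Ico U (2 * U) ×ˢ Ico V (2 * V)).filter fun z => Nat.Coprime z.1 z.2 with hP
  have hinj : Function.Injective φ := by
    intro z z' h
    have h1 := hdetφ1 z
    have h2 := hdetφ1 z'
    have h3 := hdetφ2 z
    have h4 := hdetφ2 z'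
    rw [h] at h1 h3
    have h5 : (z.1 : ℤ) = z'.1 := by rw [← h1, ← h2]
    have h6 : s * (z.2 : ℤ) = s * z'.2 := by rw [← h3, ← h4]
    have h7 : (z.2 : ℤ) = z'.2 := mul_left_cancel₀ hsne h6
    exact Prod.ext (by exact_mod_cast h5) (by exact_mod_cast h7)
  have hA1 : 20000 ≤ A := by nlinarith
  have hvY : ∀ v : ℝ, 0 ≤ v → |v * ((s : ℝ) * Y1)| = v * |Y1| := by
    intro v hv
    rw [abs_mul, abs_mul, hs1, one_mul, abs_of_nonneg hv]
  refine ⟨P.image φ, ?_, ?_, ?_⟩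
  · intro z hz
    rw [mem_image] at hz
    obtain ⟨⟨u, v⟩, huv, rfl⟩ := hz
    rw [hP, mem_filter, mem_product, mem_Ico, mem_Ico] at huv
    obtain ⟨⟨⟨hu1, hu2⟩, hv1, hv2⟩, hc⟩ := huv
    simp only at hu1 hu2 hv1 hv2 hc
    have hu1' : (U : ℝ) ≤ u := by exact_mod_cast hu1
    have hu2' : (u : ℝ) ≤ 2 * U := by exact_mod_cast hu2.le
    have hv1' : (V : ℝ) ≤ v := by exact_mod_cast hv1
    have hv2' : (v : ℝ) ≤ 2 * V := by exact_mod_cast hv2.le
    have hu0 : (0 : ℝ) ≤ u := by positivity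
    have hv0 : (0 : ℝ) ≤ v := by positivity
    have hxz : x1 * ((φ (u, v)).1 : ℝ) + x2 * ((φ (u, v)).2 : ℝ) = u * X0 + s * v * X1 := by
      simp only [hφ, hX0, hX1]; push_cast; ring
    have hyz : y1 * ((φ (u, v)).1 : ℝ) + y2 * ((φ (u, v)).2 : ℝ) = u * Y0 + v * (s * Y1) := by
      simp only [hφ, hY0, hY1]; push_cast; ring
    have hX : |(u : ℝ) * X0| = u * lam := by rw [abs_mul, hx, abs_of_nonneg hu0]
    have hX' : |(s : ℝ) * v * X1| ≤ A / 8 := by
      rw [abs_mul, abs_mul, hs1, one_mul, abs_of_nonneg hv0]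
      calc (v : ℝ) * |X1| ≤ (2 * V) * (lam / 2) := by gcongr
        _ = V * lam := by ring
        _ ≤ A * lam / 8 * lam := by gcongr
        _ = A / 8 * (lam * lam) := by ring
        _ ≤ A / 8 * (1 * 1) := by gcongr
        _ = A / 8 := by ring
    have hulam1 : A / 2 - 1 ≤ (u : ℝ) * lam := by
      have : (U : ℝ) * lam ≤ u * lam := by gcongr
      linarith
    have hulam2 : (u : ℝ) * lam ≤ A := by
      have : (u : ℝ) * lam ≤ 2 * U * lam := by gcongr
      linarith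
    have hvY1 : (v : ℝ) * |Y1| ≤ A / 2 := by
      have h1 : (v : ℝ) ≤ A * lam / 4 := by linarith
      calc (v : ℝ) * |Y1| ≤ A * lam / 4 * |Y1| := by gcongr
        _ = A / 4 * (lam * |Y1|) := by ring
        _ ≤ A / 4 * (3 / 2) := by gcongr
        _ ≤ A / 2 := by linarith
    have hvY2 : A / 32 ≤ (v : ℝ) * |Y1| := by
      have h1 : A * lam / 16 ≤ (v : ℝ) := by
        linarith
      calc A / 32 = A / 16 * (1 / 2) := by ring
        _ ≤ A / 16 * (lam * |Y1|) := by gcongr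
        _ = A * lam / 16 * |Y1| := by ring
        _ ≤ (v : ℝ) * |Y1| := by gcongr
    have huY : |(u : ℝ) * Y0| ≤ A := by
      rw [abs_mul, abs_of_nonneg hu0]
      calc (u : ℝ) * |Y0| ≤ u * lam := by gcongr
        _ ≤ A := hulam2
    refine ⟨?_, ?_, ?_, ?_, ?_⟩
    · -- coprime
      have hc' : IsCoprime (u : ℤ) (v : ℤ) := Nat.isCoprime_iff_coprime.2 hc
      obtain ⟨r, t, hrt⟩ := hc'
      refine ⟨r * b' - t * s * b, t * s * a - r * a', ?_⟩
      have h1 := hdetφ1 (u, v)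
      have h2 := hdetφ2 (u, v)
      have hss : s * s = 1 := by rcases hs with h | h <;> simp [h]
      simp only at h1 h2
      linear_combination r * h1 + t * s * h2 + hrt + t * v * hss
    · rw [hxz]
      have h1 : |(u : ℝ) * X0| ≤ |u * X0 + s * v * X1| + |(s : ℝ) * v * X1| := by
        have := abs_sub (u * X0 + s * v * X1) ((s : ℝ) * v * X1)
        simpa using this
      rw [hX] at h1
      linarith
    · rw [hxz]
      have h1 := abs_add_le ((u : ℝ) * X0) (s * v * X1)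
      rw [hX] at h1
      linarith
    · rw [hyz]
      have h1 : |(v : ℝ) * (s * Y1)| ≤ |u * Y0 + v * (s * Y1)| := by
        apply sq_le_sq.1
        have h2 : 0 ≤ (u : ℝ) * v * (Y0 * (s * Y1)) := by positivity
        have h3 : 0 ≤ ((u : ℝ) * Y0) ^ 2 := sq_nonneg _
        linarith [show ((u : ℝ) * Y0 + v * (s * Y1)) ^ 2 = (v * (s * Y1)) ^ 2 +
          ((u : ℝ) * Y0) ^ 2 + 2 * ((u : ℝ) * v * (Y0 * (s * Y1))) by ring]
      rw [hvY v hv0] at h1
      linarith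
    · rw [hyz]
      have h1 := abs_add_le ((u : ℝ) * Y0) (v * (s * Y1))
      rw [hvY v hv0] at h1
      linarith
  · intro z hz hz'
    rw [mem_image] at hz hz'
    obtain ⟨w1, hw1, rfl⟩ := hz
    obtain ⟨w2, hw2, h⟩ := hz'
    have h1 := hdetφ1 w1
    have h2 := hdetφ1 w2
    rw [h, Prod.fst_neg, Prod.snd_neg] at h2
    rw [hP, mem_filter, mem_product, mem_Ico, mem_Ico] at hw1 hw2
    have h3 : (w1.1 : ℤ) + w2.1 = 0 := by linarith
    omega
  · rw [card_image_of_injective _ hinj]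
    have h1 := card_coprime U V hV3 hVU
    refine le_trans ?_ h1
    have h2 : A / (2 * lam) * (3 / 4) ≤ U := by
      have : 4 ≤ A / (2 * lam) := by
        rw [le_div_iff₀ (by positivity)]; nlinarith
      linarith
    have h3 : A * lam / 8 * (3 / 4) ≤ V := by linarith
    calc A ^ 2 / 512 ≤ (A / (2 * lam) * (3 / 4)) * (A * lam / 8 * (3 / 4)) / 8 := by
          have : (A / (2 * lam) * (3 / 4)) * (A * lam / 8 * (3 / 4)) / 8 = A ^ 2 * (9 / 2048) := by
            field_simp; ring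
          rw [this]; nlinarith [sq_nonneg A]
      _ ≤ U * V / 8 := by gcongr

end Pool.Agent.H587.FD
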