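import Mathlib
import Pool.Agent.H587.FD.Geo

set_option autoImplicit false

open Finset

namespace Pool.Agent.H587.FD

/-- normalising the sign -/
lemma geo_sign (α X A : ℝ) (hX : 1 ≤ X) (hA : 0 < A) (S : Finset (ℤ × ℤ))
    (hS : ∀ z ∈ S, IsCoprime z.1 z.2 ∧
      A / 32 ≤ |1 / X * z.1 + 0 * z.2| ∧ |1 / X * z.1 + 0 * z.2| ≤ 2 * A ∧
      A / 32 ≤ |X * α * z.1 + -X * z.2| ∧ |X * α * z.1 + -X * z.2| ≤ 2 * A)
    (hneg : ∀ z ∈ S, -z ∉ S) (hcard : A ^ 2 / 512 ≤ S.card) :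
    ∃ S : Finset (ℤ × ℤ), (∀ z ∈ S, IsCoprime z.1 z.2 ∧ 0 < z.1 ∧ A * X / 32 ≤ z.1 ∧
      (z.1 : ℝ) ≤ 2 * A * X ∧
      A / (32 * X) ≤ |z.1 * α - z.2| ∧ |z.1 * α - z.2| ≤ 2 * A / X) ∧ A ^ 2 / 512 ≤ S.card := by
  classical
  have hX0 : 0 < X := by linarith
  refine ⟨S.image fun z => if 0 < z.1 then z else -z, ?_, ?_⟩
  · intro z hz
    rw [mem_image] at hz
    obtain ⟨w, hw, rfl⟩ := hz
    obtain ⟨h1, h2, h3, h4, h5⟩ := hS w hw
    have e1 : |1 / X * (w.1 : ℝ) + 0 * w.2| = |(w.1 : ℝ)| / X := by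
      rw [zero_mul, add_zero, abs_mul, abs_of_pos (by positivity : 0 < 1 / X)]; ring
    have e2 : |X * α * (w.1 : ℝ) + -X * w.2| = X * |w.1 * α - w.2| := by
      rw [show X * α * (w.1 : ℝ) + -X * w.2 = X * (w.1 * α - w.2) by ring, abs_mul, abs_of_pos hX0]
    rw [e1] at h2 h3
    rw [e2] at h4 h5
    rw [le_div_iff₀ hX0] at h2
    rw [div_le_iff₀ hX0] at h3
    have h4' : A / (32 * X) ≤ |w.1 * α - w.2| := by
      rw [div_le_iff₀ (by positivity)]; linarith
    have h5' : |w.1 * α - w.2| ≤ 2 * A / X := by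
      rw [le_div_iff₀ hX0]; linarith
    have hne : w.1 ≠ 0 := by
      intro h
      rw [h] at h2
      simp at h2
      nlinarith [mul_pos hA hX0]
    by_cases hp : 0 < w.1
    · simp only [hp, if_true]
      have e3 : |(w.1 : ℝ)| = w.1 := abs_of_pos (by exact_mod_cast hp)
      rw [e3] at h2 h3
      exact ⟨h1, trivial, by linarith, h3, h4', h5'⟩
    · simp only [hp, if_false, Prod.fst_neg, Prod.snd_neg]
      have hn : w.1 < 0 := by omega
      have e3 : |(w.1 : ℝ)| = -w.1 := abs_of_neg (by exact_mod_cast hn)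
      rw [e3] at h2 h3
      have e4 : |((-w.1 : ℤ) : ℝ) * α - ((-w.2 : ℤ) : ℝ)| = |w.1 * α - w.2| := by
        rw [← abs_neg]; congr 1; push_cast; ring
      rw [e4]
      refine ⟨h1.neg_neg, by omega, ?_, ?_, h4', h5'⟩
      · push_cast; linarith
      · push_cast; linarith
  · rw [card_image_of_injOn]
    · exact hcard
    · intro z hz w hw h
      rw [mem_coe] at hz hw
      simp only at h
      split_ifs at h with h1 h2 h2
      · exact h
      · exact absurd (h ▸ hz) (hneg w hw)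
      · have : -z ∈ S := by rw [h]; exact hw
        exact absurd this (hneg z hz)
      · exact neg_injective h

/-- many primitive vectors `(q, p)` with `q ≍ A X` and `|q α - p| ≍ A / X` -/
theorem geo' (α X A c : ℝ) (hX : 1 ≤ X) (hA : 0 < A) (hcA : 20000 ≤ A * c)
    (hmin : ∀ q p : ℤ, 0 < q → c ≤ q / X ∨ c ≤ X * |q * α - p|) :
    ∃ S : Finset (ℤ × ℤ), (∀ z ∈ S, IsCoprime z.1 z.2 ∧ 0 < z.1 ∧ A * X / 32 ≤ z.1 ∧
      (z.1 : ℝ) ≤ 2 * A * X ∧
      A / (32 * X) ≤ |z.1 * α - z.2| ∧ |z.1 * α - z.2| ≤ 2 * A / X) ∧ A ^ 2 / 512 ≤ S.card := by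
  have hX0 : 0 < X := by linarith
  have hn : 0 < ⌊X⌋₊ := Nat.floor_pos.2 hX
  obtain ⟨j, k, hk, hkn, hjk⟩ := Real.exists_int_int_abs_mul_sub_le α hn
  have hn1 : (⌊X⌋₊ : ℝ) ≤ X := Nat.floor_le hX0.le
  have hn2 : X < ⌊X⌋₊ + 1 := Nat.lt_floor_add_one X
  -- divide by the gcd
  obtain ⟨g, a, b, hg, hco, ha, hb⟩ : ∃ g a b : ℤ, 0 < g ∧ IsCoprime a b ∧ k = g * a ∧ j = g * b := by
    have hg : 0 < (Int.gcd k j : ℤ) := by
      have : 0 < Int.gcd k j := Int.gcd_pos_of_ne_zero_left j (by omega)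
      exact_mod_cast this
    refine ⟨Int.gcd k j, k / Int.gcd k j, j / Int.gcd k j, hg, ?_, ?_, ?_⟩
    · exact Int.isCoprime_iff_gcd_eq_one.2 (Int.gcd_ediv_gcd_ediv_gcd (by exact_mod_cast hg))
    · rw [Int.mul_ediv_cancel' (Int.gcd_dvd_left _ _)]
    · rw [Int.mul_ediv_cancel' (Int.gcd_dvd_right _ _)]
  have ha0 : 0 < a := by
    by_contra h
    push Not at h
    nlinarith
  have hg1 : (1 : ℝ) ≤ g := by exact_mod_cast hg
  have ha0' : (0 : ℝ) < a := by exact_mod_cast ha0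
  have hx : (a : ℝ) / X ≤ 1 := by
    rw [div_le_one hX0]
    have h1 : (k : ℝ) ≤ ⌊X⌋₊ := by exact_mod_cast hkn
    have h2 : (a : ℝ) ≤ k := by rw [ha]; push_cast; nlinarith
    linarith
  have hy : X * |a * α - b| ≤ 1 := by
    have h1 : |(a : ℝ) * α - b| ≤ |k * α - j| := by
      have : (k : ℝ) * α - j = g * (a * α - b) := by rw [ha, hb]; push_cast; ring
      rw [this, abs_mul, abs_of_pos (by linarith : (0 : ℝ) < g)]
      nlinarith [abs_nonneg ((a : ℝ) * α - b)]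
    have h2 : |(k : ℝ) * α - j| ≤ 1 / X := by
      refine hjk.trans ?_
      apply one_div_le_one_div_of_le hX0 hn2.le
    have h3 : |(a : ℝ) * α - b| ≤ 1 / X := h1.trans h2
    rw [le_div_iff₀ hX0] at h3
    linarith
  have e1 : |1 / X * (a : ℝ) + 0 * b| = a / X := by
    rw [zero_mul, add_zero, abs_mul, abs_of_pos (by positivity : 0 < 1 / X), abs_of_pos ha0']; ring
  have e2 : |X * α * (a : ℝ) + -X * b| = X * |a * α - b| := by
    rw [show X * α * (a : ℝ) + -X * b = X * (a * α - b) by ring, abs_mul, abs_of_pos hX0]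
  have hm := hmin a b ha0
  rcases le_total (X * |a * α - b|) (a / X) with h | h
  · have hlam : 20000 ≤ A * (a / X) := by
      have : c ≤ a / X := by rcases hm with h' | h' <;> linarith
      nlinarith
    obtain ⟨S, hS1, hS2, hS3⟩ := geo (1 / X) 0 (X * α) (-X)
      (by rw [show 1 / X * -X - 0 * (X * α) = -1 by field_simp; ring]; norm_num) a b hco (a / X) e1
      (by rw [e2]; exact h) hx A hA hlam
    exact geo_sign α X A hX hA S hS1 hS2 hS3
  · have hlam : 20000 ≤ A * (X * |a * α - b|) := by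
      have : c ≤ X * |a * α - b| := by rcases hm with h' | h' <;> linarith
      nlinarith
    obtain ⟨S, hS1, hS2, hS3⟩ := geo (X * α) (-X) (1 / X) 0
      (by rw [show X * α * 0 - -X * (1 / X) = 1 by field_simp; ring]; norm_num) a b hco
      (X * |a * α - b|) e2 (by rw [e1]; exact h) hy A hA hlam
    exact geo_sign α X A hX hA S (fun z hz => by
      obtain ⟨h1, h2, h3, h4, h5⟩ := hS1 z hz
      exact ⟨h1, h4, h5, h2, h3⟩) hS2 hS3

end Pool.Agent.H587.FD
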