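import Mathlib

set_option autoImplicit false

open Finset

namespace Pool.Agent.H587.FD

/-- `e(x) = exp(2πi x)` -/
noncomputable def e (x : ℝ) : ℂ := Complex.exp (2 * Real.pi * x * Complex.I)

lemma e_add (x y : ℝ) : e (x + y) = e x * e y := by
  unfold e; rw [← Complex.exp_add]; congr 1; push_cast; ring

lemma e_zero : e 0 = 1 := by simp [e]

lemma norm_e (x : ℝ) : ‖e x‖ = 1 := by
  unfold e
  have : (2 * Real.pi * x * Complex.I : ℂ) = ((2 * Real.pi * x : ℝ) : ℂ) * Complex.I := by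
    push_cast; ring
  rw [this, Complex.norm_exp_ofReal_mul_I]

lemma e_neg (x : ℝ) : e (-x) = (starRingEnd ℂ) (e x) := by
  unfold e
  rw [← Complex.exp_conj]
  congr 1
  have h2 : (starRingEnd ℂ) (2 : ℂ) = 2 := by
    have := Complex.conj_ofReal 2
    simpa using this
  simp only [map_mul, Complex.conj_ofReal, Complex.conj_I, h2]
  push_cast
  ring

lemma e_eq (x : ℝ) : e x = (Real.cos (2 * Real.pi * x) : ℂ) + (Real.sin (2 * Real.pi * x) : ℂ) * Complex.I := by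
  unfold e
  have : (2 * Real.pi * x * Complex.I : ℂ) = ((2 * Real.pi * x : ℝ) : ℂ) * Complex.I := by
    push_cast; ring
  rw [this, Complex.exp_mul_I, ← Complex.ofReal_cos, ← Complex.ofReal_sin]

lemma e_add_neg (x : ℝ) : e x + e (-x) = 2 * (Real.cos (2 * Real.pi * x) : ℂ) := by
  rw [e_neg, e_eq]
  simp only [map_add, map_mul, Complex.conj_ofReal, Complex.conj_I]
  ring

lemma e_int (n : ℤ) : e (n : ℝ) = 1 := by
  unfold e
  rw [Complex.exp_eq_one_iff]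
  exact ⟨n, by push_cast; ring⟩

/-- partial sums `∑_{1 ≤ j ≤ n} sin (jθ) e(jx)` -/
noncomputable def S (θ x : ℝ) (n : ℕ) : ℂ := ∑ j ∈ range n, (Real.sin ((j + 1 : ℝ) * θ) : ℂ) * e ((j + 1 : ℝ) * x)

lemma S_closed (θ x : ℝ) (n : ℕ) :
    S θ x n * (e x + e (-x) - 2 * (Real.cos θ : ℂ)) =
      (Real.sin θ : ℂ) + (Real.sin (n * θ) : ℂ) * e ((n + 1 : ℝ) * x)
        - (Real.sin ((n + 1 : ℝ) * θ) : ℂ) * e (n * x) := by
  induction n with
  | zero => simp [S, e_zero]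
  | succ n ih =>
    unfold S at ih ⊢
    rw [sum_range_succ, add_mul, ih]
    have h1 : e ((n + 1 : ℝ) * x) * e x = e ((n + 1 + 1 : ℝ) * x) := by
      rw [← e_add]; congr 1; ring
    have h2 : e ((n + 1 : ℝ) * x) * e (-x) = e (n * x) := by
      rw [← e_add]; congr 1; ring
    have h3 : (Real.sin (n * θ) : ℂ) = 2 * (Real.cos θ : ℂ) * (Real.sin ((n + 1 : ℝ) * θ) : ℂ)
        - (Real.sin ((n + 1 + 1 : ℝ) * θ) : ℂ) := by
      have h : Real.sin (n * θ) = 2 * Real.cos θ * Real.sin ((n + 1 : ℝ) * θ)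
          - Real.sin ((n + 1 + 1 : ℝ) * θ) := by
        have e1 : (n : ℝ) * θ = (n + 1 : ℝ) * θ - θ := by ring
        have e2 : (n + 1 + 1 : ℝ) * θ = (n + 1 : ℝ) * θ + θ := by ring
        rw [e1, e2, Real.sin_sub, Real.sin_add]; ring
      rw [h]; push_cast; ring
    push_cast
    push_cast at h3
    rw [h3]
    linear_combination (Complex.sin ((n + 1 : ℂ) * θ)) * h1 + (Complex.sin ((n + 1 : ℂ) * θ)) * h2

/-- the weights -/
noncomputable def s (M : ℕ) (j : ℤ) : ℝ :=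
  if 1 ≤ j ∧ j ≤ (M : ℤ) - 1 then Real.sin (Real.pi * j / M) else 0

lemma s_nonneg (M : ℕ) (j : ℤ) : 0 ≤ s M j := by
  unfold s
  split_ifs with h
  · have hM : (0 : ℝ) < M := by
      have : (0 : ℤ) < M := by omega
      exact_mod_cast this
    have hj : (1 : ℝ) ≤ j := by exact_mod_cast h.1
    have hj2 : (j : ℝ) ≤ M := by
      have : j ≤ (M : ℤ) := by omega
      exact_mod_cast this
    apply Real.sin_nonneg_of_nonneg_of_le_pi
    · positivity
    · rw [div_le_iff₀ hM]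
      have := Real.pi_pos
      nlinarith
  · exact le_refl _

lemma s_le_one (M : ℕ) (j : ℤ) : s M j ≤ 1 := by
  unfold s
  split_ifs with h
  · exact Real.sin_le_one _
  · norm_num

/-- the polynomial `∑ s j e(jx)` -/
noncomputable def P (M : ℕ) (x : ℝ) : ℂ := ∑ j ∈ Icc (1 : ℤ) ((M : ℤ) - 1), (s M j : ℂ) * e (j * x)

lemma P_eq_S (M : ℕ) (hM : 1 ≤ M) (x : ℝ) : P M x = S (Real.pi / M) x (M - 1) := by
  unfold P S
  symm
  refine Finset.sum_bij (fun (j : ℕ) _ => (j : ℤ) + 1) ?_ ?_ ?_ ?_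
  · intro j hj
    rw [mem_range] at hj
    rw [mem_Icc]; omega
  · intro a _ b _ h
    simpa using h
  · intro b hb
    rw [mem_Icc] at hb
    refine ⟨(b - 1).toNat, ?_, ?_⟩
    · rw [mem_range]; omega
    · omega
  · intro j hj
    rw [mem_range] at hj
    have h : (1 : ℤ) ≤ (j : ℤ) + 1 ∧ (j : ℤ) + 1 ≤ (M : ℤ) - 1 := by omega
    unfold s
    rw [if_pos h]
    congr 2
    · congr 1; push_cast; ring
    · push_cast; ring

/-- closed form -/
lemma P_closed (M : ℕ) (hM : 1 ≤ M) (x : ℝ) :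
    P M x * (e x + e (-x) - 2 * (Real.cos (Real.pi / M) : ℂ)) =
      (Real.sin (Real.pi / M) : ℂ) * (1 + e (M * x)) := by
  rw [P_eq_S M hM, S_closed]
  have hM0 : (M : ℝ) ≠ 0 := by positivity
  have h1 : ((M - 1 : ℕ) : ℝ) = M - 1 := by rw [Nat.cast_sub hM]; simp
  rw [h1]
  have h2 : Real.sin ((M - 1 : ℝ) * (Real.pi / M)) = Real.sin (Real.pi / M) := by
    have : (M - 1 : ℝ) * (Real.pi / M) = Real.pi - Real.pi / M := by field_simp
    rw [this, Real.sin_pi_sub]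
  have h3 : Real.sin ((M - 1 + 1 : ℝ) * (Real.pi / M)) = 0 := by
    have : (M - 1 + 1 : ℝ) * (Real.pi / M) = Real.pi := by field_simp; ring
    rw [this, Real.sin_pi]
  rw [h2, h3]
  have h4 : (M - 1 + 1 : ℝ) = M := by ring
  rw [h4]
  push_cast
  ring

/-- the coefficients -/
noncomputable def c (M : ℕ) (h : ℤ) : ℝ :=
  1 / 2 * Real.sin (Real.pi / M) * (s M (-h) + s M (M - h)) +
    (Real.cos (Real.pi / M) - Real.cos (2 * (Real.pi / M))) *
      ∑ l ∈ Icc (1 : ℤ) ((M : ℤ) - 1), s M l * s M (l + h)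

/-- the minorant -/
noncomputable def g (M : ℕ) (x : ℝ) : ℝ :=
  Complex.normSq (P M x) * (Real.cos (2 * Real.pi * x) - Real.cos (2 * (Real.pi / M)))

lemma conj_P (M : ℕ) (x : ℝ) : (starRingEnd ℂ) (P M x) =
    ∑ j ∈ Icc (1 : ℤ) ((M : ℤ) - 1), (s M j : ℂ) * e (-(j * x)) := by
  unfold P
  rw [map_sum]
  refine sum_congr rfl fun j _ => ?_
  rw [map_mul, Complex.conj_ofReal, e_neg]

lemma g_eq (M : ℕ) (hM : 1 ≤ M) (x : ℝ) : (g M x : ℂ) =
    1 / 2 * (Real.sin (Real.pi / M) : ℂ) * ((1 + e (M * x)) * (starRingEnd ℂ) (P M x)) +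
      ((Real.cos (Real.pi / M) - Real.cos (2 * (Real.pi / M)) : ℝ) : ℂ) *
        ((starRingEnd ℂ) (P M x) * P M x) := by
  unfold g
  have h1 := P_closed M hM x
  have h2 := e_add_neg x
  rw [h2] at h1
  rw [Complex.ofReal_mul, ← Complex.mul_conj]
  push_cast
  push_cast at h1
  linear_combination (1 / 2 * (starRingEnd ℂ) (P M x)) * h1

lemma sum_shift (M : ℕ) (x : ℝ) (l : ℤ) (hl : l ∈ Icc (1 : ℤ) ((M : ℤ) - 1)) :
    ∑ h ∈ Icc (-(M : ℤ)) M, (s M (l + h) : ℂ) * e (h * x) = e (-(l * x)) * P M x := by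
  unfold P
  rw [mul_sum]
  rw [mem_Icc] at hl
  symm
  rw [← sum_subset (s₁ := (Icc (1 : ℤ) ((M : ℤ) - 1)).image (fun j => j - l)) (s₂ := Icc (-(M : ℤ)) M)]
  · rw [sum_image (fun a _ b _ h => by simpa using h)]
    refine sum_congr rfl fun j _ => ?_
    have h1 : l + (j - l) = j := by ring
    rw [h1]
    have h2 : e (((j - l : ℤ) : ℝ) * x) = e (-(l * x)) * e (j * x) := by
      rw [← e_add]; congr 1; push_cast; ring
    rw [h2]; ring
  · intro h hh
    rw [mem_image] at hh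
    obtain ⟨j, hj, rfl⟩ := hh
    rw [mem_Icc] at hj ⊢
    omega
  · intro h _ hh
    have : s M (l + h) = 0 := by
      unfold s
      rw [if_neg]
      intro hcon
      apply hh
      rw [mem_image]
      exact ⟨l + h, by rw [mem_Icc]; exact hcon, by ring⟩
    rw [this]; simp

lemma sum_neg (M : ℕ) (x : ℝ) :
    ∑ h ∈ Icc (-(M : ℤ)) M, (s M (-h) : ℂ) * e (h * x) = (starRingEnd ℂ) (P M x) := by
  rw [conj_P]
  symm
  rw [← sum_subset (s₁ := (Icc (1 : ℤ) ((M : ℤ) - 1)).image (fun j => -j)) (s₂ := Icc (-(M : ℤ)) M)]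
  · rw [sum_image (fun a _ b _ h => by simpa using h)]
    refine sum_congr rfl fun j _ => ?_
    rw [neg_neg]
    congr 2
    push_cast; ring
  · intro h hh
    rw [mem_image] at hh
    obtain ⟨j, hj, rfl⟩ := hh
    rw [mem_Icc] at hj ⊢
    omega
  · intro h _ hh
    have : s M (-h) = 0 := by
      unfold s
      rw [if_neg]
      intro hcon
      apply hh
      rw [mem_image]
      exact ⟨-h, by rw [mem_Icc]; exact hcon, by ring⟩
    rw [this]; simp

lemma sum_neg2 (M : ℕ) (x : ℝ) :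
    ∑ h ∈ Icc (-(M : ℤ)) M, (s M (M - h) : ℂ) * e (h * x) = e (M * x) * (starRingEnd ℂ) (P M x) := by
  rw [conj_P, mul_sum]
  symm
  rw [← sum_subset (s₁ := (Icc (1 : ℤ) ((M : ℤ) - 1)).image (fun j : ℤ => (M : ℤ) - j)) (s₂ := Icc (-(M : ℤ)) M)]
  · rw [sum_image (fun a _ b _ h => by simpa using h)]
    refine sum_congr rfl fun j _ => ?_
    have h1 : (M : ℤ) - (M - j) = j := by ring
    rw [h1]
    have h2 : e (((M - j : ℤ) : ℝ) * x) = e (M * x) * e (-(j * x)) := by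
      rw [← e_add]; congr 1; push_cast; ring
    rw [h2]; ring
  · intro h hh
    rw [mem_image] at hh
    obtain ⟨j, hj, rfl⟩ := hh
    rw [mem_Icc] at hj ⊢
    omega
  · intro h _ hh
    have : s M (M - h) = 0 := by
      unfold s
      rw [if_neg]
      intro hcon
      apply hh
      rw [mem_image]
      exact ⟨M - h, by rw [mem_Icc]; exact hcon, by ring⟩
    rw [this]; simp

/-- Fourier expansion of the minorant -/
lemma g_expand (M : ℕ) (hM : 1 ≤ M) (x : ℝ) :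
    (g M x : ℂ) = ∑ h ∈ Icc (-(M : ℤ)) M, (c M h : ℂ) * e (h * x) := by
  rw [g_eq M hM]
  have h1 : ∑ h ∈ Icc (-(M : ℤ)) M, (c M h : ℂ) * e (h * x) =
      1 / 2 * (Real.sin (Real.pi / M) : ℂ) * (∑ h ∈ Icc (-(M : ℤ)) M, (s M (-h) : ℂ) * e (h * x) +
        ∑ h ∈ Icc (-(M : ℤ)) M, (s M (M - h) : ℂ) * e (h * x)) +
      ((Real.cos (Real.pi / M) - Real.cos (2 * (Real.pi / M)) : ℝ) : ℂ) *
        ∑ l ∈ Icc (1 : ℤ) ((M : ℤ) - 1), (s M l : ℂ) *
          ∑ h ∈ Icc (-(M : ℤ)) M, (s M (l + h) : ℂ) * e (h * x) := by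
    simp_rw [mul_sum]
    rw [sum_comm, ← sum_add_distrib, mul_sum, ← sum_add_distrib]
    refine sum_congr rfl fun h _ => ?_
    unfold c
    push_cast
    simp_rw [mul_sum, add_mul, sum_mul]
    congr 1
    · ring
    · refine sum_congr rfl fun l _ => ?_
      ring
  rw [h1, sum_neg, sum_neg2]
  have h2 : ∑ l ∈ Icc (1 : ℤ) ((M : ℤ) - 1), (s M l : ℂ) *
          ∑ h ∈ Icc (-(M : ℤ)) M, (s M (l + h) : ℂ) * e (h * x) =
      (starRingEnd ℂ) (P M x) * P M x := by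
    rw [conj_P, sum_mul]
    refine sum_congr rfl fun l hl => ?_
    rw [sum_shift M x l hl]
    ring
  rw [h2]
  ring

lemma cos_sub_nonneg (M : ℕ) (hM : 3 ≤ M) :
    6 / (M : ℝ) ^ 2 ≤ Real.cos (Real.pi / M) - Real.cos (2 * (Real.pi / M)) := by
  have hM0 : (3 : ℝ) ≤ M := by exact_mod_cast hM
  have hpi := Real.pi_pos
  set θ := Real.pi / M with hθ
  have hθ0 : 0 < θ := by positivity
  have hθ1 : θ ≤ Real.pi / 3 := by
    rw [hθ]; gcongr
  have h1 : Real.cos θ - Real.cos (2 * θ) = 2 * Real.sin (3 * θ / 2) * Real.sin (θ / 2) := by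
    rw [Real.cos_sub_cos]
    have e1 : (θ + 2 * θ) / 2 = 3 * θ / 2 := by ring
    have e2 : (θ - 2 * θ) / 2 = -(θ / 2) := by ring
    rw [e1, e2, Real.sin_neg]; ring
  rw [h1]
  have h2 : 2 / Real.pi * (3 * θ / 2) ≤ Real.sin (3 * θ / 2) :=
    Real.mul_le_sin (by positivity) (by linarith)
  have h3 : 2 / Real.pi * (θ / 2) ≤ Real.sin (θ / 2) :=
    Real.mul_le_sin (by positivity) (by linarith)
  have e3 : 2 / Real.pi * (3 * θ / 2) = 3 / M := by rw [hθ]; field_simp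
  have e4 : 2 / Real.pi * (θ / 2) = 1 / M := by rw [hθ]; field_simp
  rw [e3] at h2
  rw [e4] at h3
  have h4 : (3 / M : ℝ) * (1 / M) ≤ Real.sin (3 * θ / 2) * Real.sin (θ / 2) := by
    apply mul_le_mul h2 h3 (by positivity)
    exact le_trans (by positivity) h2
  have h5 : 6 / (M : ℝ) ^ 2 = 2 * ((3 / M : ℝ) * (1 / M)) := by field_simp; ring
  rw [h5]
  linarith

lemma cos_sub_le (M : ℕ) (hM : 3 ≤ M) :
    Real.cos (Real.pi / M) - Real.cos (2 * (Real.pi / M)) ≤ 20 / (M : ℝ) ^ 2 := by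
  have hM0 : (3 : ℝ) ≤ M := by exact_mod_cast hM
  have h1 := Real.cos_le_one (Real.pi / M)
  have h2 := Real.one_sub_sq_div_two_le_cos (x := 2 * (Real.pi / M))
  have h3 : (2 * (Real.pi / M)) ^ 2 / 2 = 2 * Real.pi ^ 2 / (M : ℝ) ^ 2 := by
    rw [mul_pow, div_pow]; ring
  have h4 : 2 * Real.pi ^ 2 ≤ 20 := by
    have := Real.pi_lt_d2
    have := Real.pi_pos
    nlinarith
  have h5 : 2 * Real.pi ^ 2 / (M : ℝ) ^ 2 ≤ 20 / (M : ℝ) ^ 2 := by gcongr
  rw [h3] at h2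
  linarith

lemma sin_nonneg' (M : ℕ) (hM : 3 ≤ M) : 0 ≤ Real.sin (Real.pi / M) := by
  have hM0 : (3 : ℝ) ≤ M := by exact_mod_cast hM
  have hpi := Real.pi_pos
  apply Real.sin_nonneg_of_nonneg_of_le_pi (by positivity)
  rw [div_le_iff₀ (by linarith)]
  nlinarith

lemma c_nonneg (M : ℕ) (hM : 3 ≤ M) (h : ℤ) : 0 ≤ c M h := by
  unfold c
  have h1 := sin_nonneg' M hM
  have h2 := cos_sub_nonneg M hM
  have h3 : (0 : ℝ) ≤ 6 / (M : ℝ) ^ 2 := by positivity
  have h4 := s_nonneg M (-h)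
  have h5 := s_nonneg M (M - h)
  have h6 : 0 ≤ ∑ l ∈ Icc (1 : ℤ) ((M : ℤ) - 1), s M l * s M (l + h) :=
    sum_nonneg fun l _ => mul_nonneg (s_nonneg _ _) (s_nonneg _ _)
  have h7 : 0 ≤ Real.cos (Real.pi / M) - Real.cos (2 * (Real.pi / M)) := h3.trans h2
  positivity

lemma c_le (M : ℕ) (hM : 3 ≤ M) (h : ℤ) : c M h ≤ 24 / M := by
  unfold c
  have hM0 : (3 : ℝ) ≤ M := by exact_mod_cast hM
  have hM1 : (0 : ℝ) < M := by linarith
  have h1 := sin_nonneg' M hM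
  have h2 := cos_sub_nonneg M hM
  have h2' := cos_sub_le M hM
  have h3 : (0 : ℝ) ≤ 6 / (M : ℝ) ^ 2 := by positivity
  have h4 := s_le_one M (-h)
  have h5 := s_le_one M (M - h)
  have h6 : ∑ l ∈ Icc (1 : ℤ) ((M : ℤ) - 1), s M l * s M (l + h) ≤ M := by
    have e1 : ∑ l ∈ Icc (1 : ℤ) ((M : ℤ) - 1), s M l * s M (l + h) ≤
        ∑ l ∈ Icc (1 : ℤ) ((M : ℤ) - 1), (1 : ℝ) := by
      refine sum_le_sum fun l _ => ?_
      exact mul_le_one₀ (s_le_one _ _) (s_nonneg _ _) (s_le_one _ _)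
    rw [sum_const, nsmul_eq_mul, mul_one, Int.card_Icc] at e1
    have e2 : (((M : ℤ) - 1 + 1 - 1).toNat : ℝ) ≤ M := by
      have : ((M : ℤ) - 1 + 1 - 1).toNat ≤ M := by omega
      exact_mod_cast this
    linarith
  have h7 : 0 ≤ Real.cos (Real.pi / M) - Real.cos (2 * (Real.pi / M)) := h3.trans h2
  have h8 : Real.sin (Real.pi / M) ≤ Real.pi / M := Real.sin_le (by positivity)
  have h9 : Real.pi / M ≤ 4 / M := by
    gcongr
    exact Real.pi_le_four
  have h10 : 1 / 2 * Real.sin (Real.pi / M) * (s M (-h) + s M (M - h)) ≤ 4 / M := by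
    have : s M (-h) + s M (M - h) ≤ 2 := by linarith
    nlinarith
  have h11 : (Real.cos (Real.pi / M) - Real.cos (2 * (Real.pi / M))) *
      ∑ l ∈ Icc (1 : ℤ) ((M : ℤ) - 1), s M l * s M (l + h) ≤ 20 / (M : ℝ) ^ 2 * M := by
    apply mul_le_mul h2' h6
    · exact sum_nonneg fun l _ => mul_nonneg (s_nonneg _ _) (s_nonneg _ _)
    · positivity
  have h12 : 20 / (M : ℝ) ^ 2 * M = 20 / M := by field_simp
  have h13 : (24 : ℝ) / M = 4 / M + 20 / M := by ring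
  rw [h13]
  linarith

lemma P_zero (M : ℕ) (hM : 3 ≤ M) :
    P M 0 * (1 - (Real.cos (Real.pi / M) : ℂ)) = (Real.sin (Real.pi / M) : ℂ) := by
  have h := P_closed M (by omega) 0
  simp only [mul_zero, neg_zero, e_zero] at h
  linear_combination (1 / 2) * h

lemma P_zero_real (M : ℕ) : P M 0 = ((∑ j ∈ Icc (1 : ℤ) ((M : ℤ) - 1), s M j : ℝ) : ℂ) := by
  unfold P
  push_cast
  refine sum_congr rfl fun j _ => ?_
  simp [e_zero]

lemma one_sub_cos_pos (M : ℕ) (hM : 3 ≤ M) : 0 < 1 - Real.cos (Real.pi / M) := by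
  have hM0 : (3 : ℝ) ≤ M := by exact_mod_cast hM
  have h2 := cos_sub_nonneg M hM
  have h3 : (0 : ℝ) < 6 / (M : ℝ) ^ 2 := by positivity
  have h4 := Real.cos_le_one (Real.pi / M)
  rcases h4.lt_or_eq with h5 | h5
  · linarith
  · exfalso
    have hpi := Real.pi_pos
    have h6 : Real.cos (Real.pi / M) < 1 := by
      have := Real.cos_lt_cos_of_nonneg_of_le_pi (x := 0) (y := Real.pi / M) le_rfl
        (by rw [div_le_iff₀ (by linarith)]; nlinarith) (by positivity)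
      rwa [Real.cos_zero] at this
    linarith

lemma sum_s_eq (M : ℕ) (hM : 3 ≤ M) :
    (∑ j ∈ Icc (1 : ℤ) ((M : ℤ) - 1), s M j) * (1 - Real.cos (Real.pi / M)) =
      Real.sin (Real.pi / M) := by
  have h := P_zero M hM
  rw [P_zero_real] at h
  exact_mod_cast h

/-- value at zero -/
lemma g_zero_le (M : ℕ) (hM : 3 ≤ M) : g M 0 ≤ 8 := by
  unfold g
  rw [P_zero_real, Complex.normSq_ofReal]
  have h1 := sum_s_eq M hM
  have h2 := one_sub_cos_pos M hM
  set σ := ∑ j ∈ Icc (1 : ℤ) ((M : ℤ) - 1), s M j with hσ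
  set C := Real.cos (Real.pi / M) with hC
  have h3 : Real.cos (2 * (Real.pi / M)) = 2 * C ^ 2 - 1 := by rw [Real.cos_two_mul]
  have h4 : Real.sin (Real.pi / M) ^ 2 = 1 - C ^ 2 := by
    have := Real.sin_sq_add_cos_sq (Real.pi / M)
    rw [hC]; linarith
  rw [mul_zero, Real.cos_zero, h3]
  rw [← h1] at h4
  have h5 : σ ^ 2 * (1 - C) = 1 + C := by
    have h6 : (1 - C) * (σ ^ 2 * (1 - C)) = (1 - C) * (1 + C) := by
      linear_combination h4
    exact mul_left_cancel₀ h2.ne' h6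
  have h7 : C ≤ 1 := Real.cos_le_one _
  have h8 : -1 ≤ C := Real.neg_one_le_cos _
  have h9 : σ * σ * (1 - (2 * C ^ 2 - 1)) = 2 * (1 + C) * (σ ^ 2 * (1 - C)) := by ring
  rw [h9, h5]
  nlinarith

lemma sum_c (M : ℕ) (hM : 3 ≤ M) : ∑ h ∈ Icc (-(M : ℤ)) M, c M h ≤ 8 := by
  have h1 := g_expand M (by omega) 0
  simp only [mul_zero, e_zero, mul_one] at h1
  have h2 : g M 0 = ∑ h ∈ Icc (-(M : ℤ)) M, c M h := by exact_mod_cast h1
  rw [← h2]
  exact g_zero_le M hM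

lemma g_le (M : ℕ) (hM : 3 ≤ M) (x : ℝ) : g M x ≤ 8 := by
  have h1 := g_expand M (by omega) x
  have h2 : |g M x| ≤ ∑ h ∈ Icc (-(M : ℤ)) M, c M h := by
    have h3 : |g M x| = ‖(g M x : ℂ)‖ := by rw [Complex.norm_real]; rfl
    rw [h3, h1]
    refine (norm_sum_le _ _).trans ?_
    refine sum_le_sum fun h _ => ?_
    rw [norm_mul, norm_e, mul_one, Complex.norm_real, Real.norm_eq_abs, abs_of_nonneg (c_nonneg M hM h)]
  exact (le_abs_self _).trans (h2.trans (sum_c M hM))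

lemma g_nonpos (M : ℕ) (hM : 3 ≤ M) (x : ℝ) (hx : 1 / (M : ℝ) ≤ |x - round x|) : g M x ≤ 0 := by
  unfold g
  have hM0 : (3 : ℝ) ≤ M := by exact_mod_cast hM
  have hpi := Real.pi_pos
  refine mul_nonpos_of_nonneg_of_nonpos (Complex.normSq_nonneg _) ?_
  have h1 : Real.cos (2 * Real.pi * x) = Real.cos (2 * Real.pi * |x - round x|) := by
    have h2 : 2 * Real.pi * |x - round x| = |2 * Real.pi * (x - round x)| := by
      rw [abs_mul, abs_of_pos (by positivity : (0 : ℝ) < 2 * Real.pi)]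
    rw [h2, Real.cos_abs]
    have h3 : 2 * Real.pi * (x - round x) = 2 * Real.pi * x - (round x : ℤ) * (2 * Real.pi) := by ring
    rw [h3, Real.cos_sub_int_mul_two_pi]
  rw [h1]
  have h4 : |x - round x| ≤ 1 / 2 := abs_sub_round x
  have h5 : Real.cos (2 * Real.pi * |x - round x|) ≤ Real.cos (2 * (Real.pi / M)) := by
    apply Real.cos_le_cos_of_nonneg_of_le_pi
    · positivity
    · nlinarith
    · have : 2 * (Real.pi / M) = 2 * Real.pi * (1 / M) := by ring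
      rw [this]
      gcongr
  linarith

lemma c_zero_ge (M : ℕ) (hM : 3 ≤ M) : 4 / 5 / (M : ℝ) ≤ c M 0 := by
  unfold c
  have hM0 : (3 : ℝ) ≤ M := by exact_mod_cast hM
  have hM1 : (0 : ℝ) < M := by linarith
  have hpi := Real.pi_pos
  have h1 := sin_nonneg' M hM
  have h2 := cos_sub_nonneg M hM
  have h4 := s_nonneg M (-0)
  have h5 := s_nonneg M (M - 0)
  -- lower bound for the sum of squares
  have hcs : (∑ j ∈ Icc (1 : ℤ) ((M : ℤ) - 1), s M j) ^ 2 ≤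
      M * ∑ l ∈ Icc (1 : ℤ) ((M : ℤ) - 1), s M l ^ 2 := by
    have e1 := sq_sum_le_card_mul_sum_sq (s := Icc (1 : ℤ) ((M : ℤ) - 1)) (f := s M)
    refine e1.trans ?_
    gcongr
    rw [Int.card_Icc]
    have : ((M : ℤ) - 1 + 1 - 1).toNat ≤ M := by omega
    exact_mod_cast this
  have h6 := sum_s_eq M hM
  have h7 := one_sub_cos_pos M hM
  set σ := ∑ j ∈ Icc (1 : ℤ) ((M : ℤ) - 1), s M j with hσ
  have h8 : 2 / (M : ℝ) ≤ Real.sin (Real.pi / M) := by
    have := Real.mul_le_sin (x := Real.pi / M) (by positivity) (by gcongr; linarith)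
    refine le_trans (le_of_eq ?_) this
    field_simp
  have h9 : 1 - Real.cos (Real.pi / M) ≤ 5 / (M : ℝ) ^ 2 := by
    have e2 := Real.one_sub_sq_div_two_le_cos (x := Real.pi / M)
    have e3 : (Real.pi / M) ^ 2 / 2 = Real.pi ^ 2 / 2 / (M : ℝ) ^ 2 := by field_simp
    have e4 : Real.pi ^ 2 / 2 / (M : ℝ) ^ 2 ≤ 5 / (M : ℝ) ^ 2 := by
      gcongr
      have := Real.pi_lt_d2
      nlinarith
    rw [e3] at e2
    linarith
  have h10 : 2 / 5 * (M : ℝ) ≤ σ := by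
    have hσ0 : 0 ≤ σ := sum_nonneg fun j _ => s_nonneg M j
    have e5 : 2 / (M : ℝ) ≤ σ * (5 / (M : ℝ) ^ 2) := by
      calc 2 / (M : ℝ) ≤ Real.sin (Real.pi / M) := h8
        _ = σ * (1 - Real.cos (Real.pi / M)) := h6.symm
        _ ≤ σ * (5 / (M : ℝ) ^ 2) := by gcongr
    rw [mul_div_assoc', div_le_div_iff₀ hM1 (by positivity)] at e5
    have e6 : M * (2 * (M : ℝ)) ≤ M * (σ * 5) := by nlinarith
    have e7 := le_of_mul_le_mul_left e6 hM1
    linarith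
  have h11 : 4 / 25 * (M : ℝ) ≤ ∑ l ∈ Icc (1 : ℤ) ((M : ℤ) - 1), s M l ^ 2 := by
    have e8 : (2 / 5 * (M : ℝ)) ^ 2 ≤ σ ^ 2 := by gcongr
    have e9 : (M : ℝ) * (4 / 25 * M) ≤ M * ∑ l ∈ Icc (1 : ℤ) ((M : ℤ) - 1), s M l ^ 2 := by
      nlinarith
    exact le_of_mul_le_mul_left e9 hM1
  have h12 : ∑ l ∈ Icc (1 : ℤ) ((M : ℤ) - 1), s M l * s M (l + 0) =
      ∑ l ∈ Icc (1 : ℤ) ((M : ℤ) - 1), s M l ^ 2 := by
    refine sum_congr rfl fun l _ => ?_
    rw [add_zero, sq]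
  rw [h12]
  have h13 : 0 ≤ 1 / 2 * Real.sin (Real.pi / M) * (s M (-0) + s M (M - 0)) := by positivity
  have h14 : 6 / (M : ℝ) ^ 2 * (4 / 25 * M) ≤
      (Real.cos (Real.pi / M) - Real.cos (2 * (Real.pi / M))) *
        ∑ l ∈ Icc (1 : ℤ) ((M : ℤ) - 1), s M l ^ 2 := by
    apply mul_le_mul h2 h11 (by positivity)
    exact le_trans (by positivity) h2
  have h15 : 6 / (M : ℝ) ^ 2 * (4 / 25 * M) = 24 / 25 / M := by field_simp; norm_num
  have h16 : 4 / 5 / (M : ℝ) ≤ 24 / 25 / M := by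
    apply div_le_div_of_nonneg_right _ hM1.le
    norm_num
  linarith

/-- **The minorant.** -/
theorem minorant (M : ℕ) (hM : 3 ≤ M) : ∃ (a : ℤ → ℝ) (f : ℝ → ℝ),
    (∀ h, 0 ≤ a h) ∧ (∀ h, a h ≤ 3 / M) ∧ ∑ h ∈ Icc (-(M : ℤ)) M, a h ≤ 1 ∧
    1 / 10 / (M : ℝ) ≤ a 0 ∧
    (∀ x, (f x : ℂ) = ∑ h ∈ Icc (-(M : ℤ)) M, (a h : ℂ) * e (h * x)) ∧
    (∀ x, f x ≤ 1) ∧ (∀ x : ℝ, 1 / (M : ℝ) ≤ |x - round x| → f x ≤ 0) := by
  refine ⟨fun h => c M h / 8, fun x => g M x / 8, ?_, ?_, ?_, ?_, ?_, ?_, ?_⟩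
  · intro h; have := c_nonneg M hM h; positivity
  · intro h
    have := c_le M hM h
    have e1 : (3 : ℝ) / M = 24 / M / 8 := by ring
    rw [e1]
    exact div_le_div_of_nonneg_right this (by norm_num)
  · rw [← sum_div]
    have := sum_c M hM
    rw [div_le_one (by norm_num)]; exact this
  · have := c_zero_ge M hM
    have e1 : 1 / 10 / (M : ℝ) = 4 / 5 / M / 8 := by ring
    rw [e1]
    exact div_le_div_of_nonneg_right this (by norm_num)
  · intro x
    push_cast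
    rw [g_expand M (by omega) x, sum_div]
    refine sum_congr rfl fun h _ => ?_
    ring
  · intro x
    have := g_le M hM x
    rw [div_le_one (by norm_num)]; exact this
  · intro x hx
    have := g_nonpos M hM x hx
    linarith

end Pool.Agent.H587.FD
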