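import Mathlib
import Pool.Agent.H587.FD.Kernel

set_option autoImplicit false

open Finset MeasureTheory Filter

namespace Pool.Agent.H587.FD

lemma continuous_e (t : ℝ) : Continuous fun x : ℝ => e (t * x) := by
  unfold e
  fun_prop

lemma continuous_e' : Continuous e := by
  unfold e
  fun_prop

lemma integrable_e (μ : Measure ℝ) [IsProbabilityMeasure μ] (t : ℝ) :
    Integrable (fun x : ℝ => e (t * x)) μ := by
  refine Integrable.of_bound (C := 1) (continuous_e t).aestronglyMeasurable ?_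
  exact Eventually.of_forall fun x => by rw [norm_e]

/-- Second moment of a trigonometric polynomial. -/
theorem l2 {ι : Type*} [DecidableEq ι] (μ : Measure ℝ) [IsProbabilityMeasure μ] (T : Finset ι)
    (c : ι → ℂ) (n : ι → ℤ) (w : ι → ℝ) (D : ℝ) (hD : 0 ≤ D) (hw : ∀ a, 0 ≤ w a)
    (h : ∀ a ∈ T, ∀ b ∈ T, a ≠ b → ‖∫ x, e (((n a - n b : ℤ) : ℝ) * x) ∂μ‖ ≤ D * (w a * w b)) :
    ∫ x, ‖∑ a ∈ T, c a * e (n a * x)‖ ^ 2 ∂μ ≤
      ∑ a ∈ T, ‖c a‖ ^ 2 + D * (∑ a ∈ T, ‖c a‖ * w a) ^ 2 := by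
  have h1 : ∀ x : ℝ, ((‖∑ a ∈ T, c a * e (n a * x)‖ ^ 2 : ℝ) : ℂ) =
      ∑ a ∈ T, ∑ b ∈ T, c a * (starRingEnd ℂ) (c b) * e (((n a - n b : ℤ) : ℝ) * x) := by
    intro x
    have e1 : ((‖∑ a ∈ T, c a * e (n a * x)‖ ^ 2 : ℝ) : ℂ) =
        (∑ a ∈ T, c a * e (n a * x)) * (starRingEnd ℂ) (∑ a ∈ T, c a * e (n a * x)) := by
      rw [Complex.mul_conj, Complex.normSq_eq_norm_sq]
    rw [e1, map_sum, sum_mul_sum]
    refine sum_congr rfl fun a _ => sum_congr rfl fun b _ => ?_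
    rw [map_mul, ← e_neg]
    have e2 : e (((n a - n b : ℤ) : ℝ) * x) = e (n a * x) * e (-(n b * x)) := by
      rw [← e_add]; congr 1; push_cast; ring
    rw [e2]; ring
  have h2 : ((∫ x, ‖∑ a ∈ T, c a * e (n a * x)‖ ^ 2 ∂μ : ℝ) : ℂ) =
      ∑ a ∈ T, ∑ b ∈ T, c a * (starRingEnd ℂ) (c b) *
        ∫ x, e (((n a - n b : ℤ) : ℝ) * x) ∂μ := by
    rw [← integral_complex_ofReal]
    simp_rw [h1]
    rw [integral_finsetSum]
    · refine sum_congr rfl fun a _ => ?_
      rw [integral_finsetSum]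
      · refine sum_congr rfl fun b _ => ?_
        rw [integral_const_mul]
      · intro b _
        exact (integrable_e μ _).const_mul _
    · intro a _
      exact integrable_finsetSum _ fun b _ => (integrable_e μ _).const_mul _
  have h3 : 0 ≤ ∫ x, ‖∑ a ∈ T, c a * e (n a * x)‖ ^ 2 ∂μ := integral_nonneg fun x => by positivity
  have h4 : ∫ x, ‖∑ a ∈ T, c a * e (n a * x)‖ ^ 2 ∂μ =
      ‖((∫ x, ‖∑ a ∈ T, c a * e (n a * x)‖ ^ 2 ∂μ : ℝ) : ℂ)‖ := by
    rw [Complex.norm_real, Real.norm_eq_abs, abs_of_nonneg h3]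
  rw [h4, h2]
  have h5 : ∀ a ∈ T, ∀ b ∈ T, ‖c a * (starRingEnd ℂ) (c b) *
        ∫ x, e (((n a - n b : ℤ) : ℝ) * x) ∂μ‖ ≤
        (if a = b then ‖c a‖ ^ 2 else 0) + D * ((‖c a‖ * w a) * (‖c b‖ * w b)) := by
    intro a ha b hb
    rw [norm_mul, norm_mul, RCLike.norm_conj]
    by_cases hab : a = b
    · subst hab
      rw [if_pos rfl, sub_self]
      simp only [Int.cast_zero, zero_mul, e_zero, integral_const, probReal_univ, one_smul,
        norm_one, mul_one]
      have := hw a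
      have h6 : 0 ≤ D * ((‖c a‖ * w a) * (‖c a‖ * w a)) := by positivity
      nlinarith [sq_nonneg ‖c a‖]
    · rw [if_neg hab, zero_add]
      have h6 := h a ha b hb hab
      calc ‖c a‖ * ‖c b‖ * ‖∫ x, e (((n a - n b : ℤ) : ℝ) * x) ∂μ‖
          ≤ ‖c a‖ * ‖c b‖ * (D * (w a * w b)) := by gcongr
        _ = D * ((‖c a‖ * w a) * (‖c b‖ * w b)) := by ring
  calc ‖∑ a ∈ T, ∑ b ∈ T, c a * (starRingEnd ℂ) (c b) *
        ∫ x, e (((n a - n b : ℤ) : ℝ) * x) ∂μ‖
      ≤ ∑ a ∈ T, ∑ b ∈ T, ((if a = b then ‖c a‖ ^ 2 else 0) +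
          D * ((‖c a‖ * w a) * (‖c b‖ * w b))) := by
        refine (norm_sum_le _ _).trans (sum_le_sum fun a ha => ?_)
        exact (norm_sum_le _ _).trans (sum_le_sum fun b hb => h5 a ha b hb)
    _ = ∑ a ∈ T, ‖c a‖ ^ 2 + D * (∑ a ∈ T, ‖c a‖ * w a) ^ 2 := by
        simp_rw [sum_add_distrib]
        congr 1
        · refine sum_congr rfl fun a ha => ?_
          rw [sum_ite_eq T a]
          rw [if_pos ha]
        · rw [sq, sum_mul_sum, mul_sum]
          refine sum_congr rfl fun a _ => ?_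
          rw [mul_sum]

/-- Divergence Borel-Cantelli lemma for the inequalities `‖q_i β - γ_i‖ ≤ 1 / M_i`. -/
theorem borel_cantelli {ι : Type*} [DecidableEq ι] (μ : Measure ℝ) [IsProbabilityMeasure μ]
    (T : ℕ → Finset ι) (q : ι → ℤ) (M : ι → ℕ) (γ : ι → ℝ) (w : ι → ℝ) (D W : ℝ) (hD : 0 ≤ D)
    (hw : ∀ a, 0 ≤ w a) (hM : ∀ N, ∀ i ∈ T N, 3 ≤ M i)
    (hdec : ∀ N, ∀ i ∈ T N, ∀ i' ∈ T N, ∀ h h' : ℤ, h ≠ 0 → h' ≠ 0 → |h| ≤ M i → |h'| ≤ M i' →
      ((i, h) ≠ (i', h')) → ‖∫ x, e (((h * q i - h' * q i' : ℤ) : ℝ) * x) ∂μ‖ ≤ D * (w i * w i'))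
    (hW : ∀ N, ∑ i ∈ T N, w i ≤ W)
    (hdiv : Tendsto (fun N => ∑ i ∈ T N, 1 / (M i : ℝ)) atTop atTop) :
    ∀ᵐ β ∂μ, ∀ K : ℕ, ∃ N : ℕ,
      K ≤ ((T N).filter fun i => |(q i * β - γ i) - round (q i * β - γ i)| < 1 / (M i : ℝ)).card := by
  classical
  choose! a f hf using fun (i : ι) (hi : 3 ≤ M i) => minorant (M i) hi
  -- the sums
  set Z : ℕ → ℝ → ℝ := fun N β => ∑ i ∈ T N, f i (q i * β - γ i) with hZ
  set E : ℕ → ℝ := fun N => ∑ i ∈ T N, a i 0 with hE
  have hElow : ∀ N, 1 / 10 * ∑ i ∈ T N, 1 / (M i : ℝ) ≤ E N := by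
    intro N
    rw [hE, mul_sum]
    refine sum_le_sum fun i hi => ?_
    have := (hf i (hM N i hi)).2.2.2.1
    calc 1 / 10 * (1 / (M i : ℝ)) = 1 / 10 / (M i : ℝ) := by ring
      _ ≤ a i 0 := this
  have hEt : Tendsto E atTop atTop :=
    tendsto_atTop_mono hElow (hdiv.const_mul_atTop (by norm_num))
  have hW0 : 0 ≤ W := le_trans (sum_nonneg fun i _ => hw i) (hW 0)
  -- the second moment
  have hsec : ∀ N, ∫ β, (Z N β - E N) ^ 2 ∂μ ≤ 30 * E N + D * W ^ 2 := by
    intro N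
    set U : Finset (Σ _ : ι, ℤ) := (T N).sigma fun i => (Icc (-(M i : ℤ)) (M i)).erase 0 with hU
    have h1 : ∀ β : ℝ, (Z N β - E N) ^ 2 = ‖∑ p ∈ U, ((a p.1 p.2 : ℂ) * e (-(p.2 * γ p.1))) *
        e (((p.2 * q p.1 : ℤ) : ℝ) * β)‖ ^ 2 := by
      intro β
      have h2 : ((Z N β - E N : ℝ) : ℂ) = ∑ p ∈ U, ((a p.1 p.2 : ℂ) * e (-(p.2 * γ p.1))) *
        e (((p.2 * q p.1 : ℤ) : ℝ) * β) := by
        rw [hU, sum_sigma, hZ, hE]
        push_cast
        rw [← sum_sub_distrib]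
        refine sum_congr rfl fun i hi => ?_
        have h3 := (hf i (hM N i hi)).2.2.2.2.1 (q i * β - γ i)
        rw [h3]
        have h0 : (0 : ℤ) ∈ Icc (-(M i : ℤ)) (M i) := by
          rw [mem_Icc]; omega
        rw [← add_sum_erase _ _ h0]
        simp only [Int.cast_zero, zero_mul, e_zero, mul_one, add_sub_cancel_left]
        refine sum_congr rfl fun h _ => ?_
        have h4 : e (h * (q i * β - γ i)) = e (-(h * γ i)) * e (h * q i * β) := by
          rw [← e_add]; congr 1; ring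
        rw [h4]
        push_cast
        ring
      rw [← h2, Complex.norm_real, Real.norm_eq_abs, sq_abs]
    simp_rw [h1]
    refine (l2 μ U (fun p => (a p.1 p.2 : ℂ) * e (-(p.2 * γ p.1))) (fun p => p.2 * q p.1)
      (fun p => w p.1) D hD (fun p => hw p.1) ?_).trans ?_
    · rintro ⟨i, h⟩ hp ⟨i', h'⟩ hp' hne
      rw [hU, mem_sigma, mem_erase, mem_Icc] at hp hp'
      refine hdec N i hp.1 i' hp'.1 h h' hp.2.1 hp'.2.1 ?_ ?_ ?_
      · rw [abs_le]; exact hp.2.2
      · rw [abs_le]; exact hp'.2.2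
      · intro heq
        rw [Prod.mk.injEq] at heq
        obtain ⟨rfl, rfl⟩ := heq
        exact hne rfl
    · have hn : ∀ p : (Σ _ : ι, ℤ), p ∈ U → ‖(a p.1 p.2 : ℂ) * e (-(p.2 * γ p.1))‖ = a p.1 p.2 := by
        intro p hp
        rw [hU, mem_sigma] at hp
        rw [norm_mul, norm_e, mul_one, Complex.norm_real, Real.norm_eq_abs,
          abs_of_nonneg ((hf p.1 (hM N p.1 hp.1)).1 p.2)]
      have h5 : ∑ p ∈ U, ‖(a p.1 p.2 : ℂ) * e (-(p.2 * γ p.1))‖ ^ 2 ≤ 30 * E N := by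
        calc ∑ p ∈ U, ‖(a p.1 p.2 : ℂ) * e (-(p.2 * γ p.1))‖ ^ 2 = ∑ p ∈ U, a p.1 p.2 ^ 2 :=
              sum_congr rfl fun p hp => by rw [hn p hp]
          _ = ∑ i ∈ T N, ∑ h ∈ (Icc (-(M i : ℤ)) (M i)).erase 0, a i h ^ 2 := by
              rw [hU, sum_sigma]
          _ ≤ ∑ i ∈ T N, 3 / (M i : ℝ) := by
              refine sum_le_sum fun i hi => ?_
              obtain ⟨g1, g2, g3, -⟩ := hf i (hM N i hi)
              calc ∑ h ∈ (Icc (-(M i : ℤ)) (M i)).erase 0, a i h ^ 2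
                  ≤ ∑ h ∈ (Icc (-(M i : ℤ)) (M i)), a i h ^ 2 :=
                    sum_le_sum_of_subset_of_nonneg (erase_subset _ _) fun h _ _ => sq_nonneg _
                _ ≤ ∑ h ∈ (Icc (-(M i : ℤ)) (M i)), 3 / (M i : ℝ) * a i h := by
                    refine sum_le_sum fun h _ => ?_
                    rw [sq]
                    exact mul_le_mul_of_nonneg_right (g2 h) (g1 h)
                _ = 3 / (M i : ℝ) * ∑ h ∈ (Icc (-(M i : ℤ)) (M i)), a i h := by rw [mul_sum]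
                _ ≤ 3 / (M i : ℝ) * 1 := by gcongr
                _ = 3 / (M i : ℝ) := mul_one _
          _ = 30 * (1 / 10 * ∑ i ∈ T N, 1 / (M i : ℝ)) := by
              rw [mul_sum, mul_sum]
              refine sum_congr rfl fun i _ => ?_
              ring
          _ ≤ 30 * E N := by
              have := hElow N
              linarith
      have h6 : ∑ p ∈ U, ‖(a p.1 p.2 : ℂ) * e (-(p.2 * γ p.1))‖ * w p.1 ≤ W := by
        calc ∑ p ∈ U, ‖(a p.1 p.2 : ℂ) * e (-(p.2 * γ p.1))‖ * w p.1 = ∑ p ∈ U, a p.1 p.2 * w p.1 :=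
              sum_congr rfl fun p hp => by rw [hn p hp]
          _ = ∑ i ∈ T N, ∑ h ∈ (Icc (-(M i : ℤ)) (M i)).erase 0, a i h * w i := by
              rw [hU, sum_sigma]
          _ ≤ ∑ i ∈ T N, w i := by
              refine sum_le_sum fun i hi => ?_
              obtain ⟨g1, g2, g3, -⟩ := hf i (hM N i hi)
              rw [← sum_mul]
              have : ∑ h ∈ (Icc (-(M i : ℤ)) (M i)).erase 0, a i h ≤ 1 :=
                (sum_le_sum_of_subset_of_nonneg (erase_subset _ _) fun h _ _ => g1 h).trans g3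
              exact mul_le_of_le_one_left (hw i) this
          _ ≤ W := hW N
      have h7 : 0 ≤ ∑ p ∈ U, ‖(a p.1 p.2 : ℂ) * e (-(p.2 * γ p.1))‖ * w p.1 :=
        sum_nonneg fun p _ => mul_nonneg (norm_nonneg _) (hw _)
      have h8 : (∑ p ∈ U, ‖(a p.1 p.2 : ℂ) * e (-(p.2 * γ p.1))‖ * w p.1) ^ 2 ≤ W ^ 2 := by
        gcongr
      have h9 := mul_le_mul_of_nonneg_left h8 hD
      linarith
  -- continuity
  have hfc : ∀ N, ∀ i ∈ T N, Continuous (f i) := by
    intro N i hi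
    have h1 := (hf i (hM N i hi)).2.2.2.2.1
    have h2 : f i = fun x => (∑ h ∈ Icc (-(M i : ℤ)) (M i), (a i h : ℂ) * e (h * x)).re := by
      funext x
      rw [← h1 x, Complex.ofReal_re]
    rw [h2]
    refine Complex.continuous_re.comp (continuous_finsetSum _ fun h _ => ?_)
    exact continuous_const.mul (continuous_e _)
  have hZc : ∀ N, Continuous (Z N) := by
    intro N
    refine continuous_finsetSum _ fun i hi => (hfc N i hi).comp (by fun_prop)
  -- comparison with the counting function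
  have hcount : ∀ N β, Z N β ≤
      ((T N).filter fun i => |(q i * β - γ i) - round (q i * β - γ i)| < 1 / (M i : ℝ)).card := by
    intro N β
    rw [hZ]
    simp only
    rw [← sum_filter_add_sum_filter_not (T N)
      (fun i => |(q i * β - γ i) - round (q i * β - γ i)| < 1 / (M i : ℝ))]
    have h1 : ∑ i ∈ (T N).filter (fun i => |(q i * β - γ i) - round (q i * β - γ i)| < 1 / (M i : ℝ)),
        f i (q i * β - γ i) ≤
        ((T N).filter fun i => |(q i * β - γ i) - round (q i * β - γ i)| < 1 / (M i : ℝ)).card := by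
      refine (sum_le_card_nsmul _ _ 1 fun i hi => ?_).trans ?_
      · rw [mem_filter] at hi
        exact (hf i (hM N i hi.1)).2.2.2.2.2.1 _
      · simp
    have h2 : ∑ i ∈ (T N).filter (fun i => ¬ |(q i * β - γ i) - round (q i * β - γ i)| < 1 / (M i : ℝ)),
        f i (q i * β - γ i) ≤ 0 := by
      refine sum_nonpos fun i hi => ?_
      rw [mem_filter, not_lt] at hi
      exact (hf i (hM N i hi.1)).2.2.2.2.2.2 _ hi.2
    linarith
  rw [ae_all_iff]
  intro K
  -- Chebyshev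
  have hcheb : ∀ᶠ N in atTop, μ {β | ∀ N : ℕ, ((T N).filter fun i =>
      |(q i * β - γ i) - round (q i * β - γ i)| < 1 / (M i : ℝ)).card < K} ≤
      ENNReal.ofReal ((30 * E N + D * W ^ 2) / (E N / 2) ^ 2) := by
    filter_upwards [hEt.eventually_ge_atTop (2 * K), hEt.eventually_gt_atTop 0] with N hN hN0
    have h1 : {β | ∀ N : ℕ, ((T N).filter fun i =>
      |(q i * β - γ i) - round (q i * β - γ i)| < 1 / (M i : ℝ)).card < K} ⊆
        {β | (E N / 2) ^ 2 ≤ (Z N β - E N) ^ 2} := by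
      intro β hβ
      have h2 := hβ N
      have h3 := hcount N β
      have h4 : Z N β ≤ K := h3.trans (by exact_mod_cast h2.le)
      change (E N / 2) ^ 2 ≤ (Z N β - E N) ^ 2
      nlinarith
    refine (measure_mono h1).trans ?_
    have hint : Integrable (fun β => (Z N β - E N) ^ 2) μ := by
      obtain ⟨B, hB⟩ : ∃ B, ∀ β, |Z N β| ≤ B := by
        have h5 : ∀ i ∈ T N, ∀ x, |f i x| ≤ 1 := by
          intro i hi x
          obtain ⟨g1, g2, g3, g4, g5, -⟩ := hf i (hM N i hi)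
          have h6 : |f i x| = ‖(f i x : ℂ)‖ := by rw [Complex.norm_real]; rfl
          rw [h6, g5]
          refine (norm_sum_le _ _).trans (le_trans (sum_le_sum fun h _ => ?_) g3)
          rw [norm_mul, norm_e, mul_one, Complex.norm_real, Real.norm_eq_abs, abs_of_nonneg (g1 h)]
        refine ⟨∑ i ∈ T N, 1, fun β => ?_⟩
        rw [hZ]
        exact (abs_sum_le_sum_abs _ _).trans (sum_le_sum fun i hi => h5 i hi _)
      refine Integrable.of_bound (C := (B + |E N|) ^ 2) ?_ (Eventually.of_forall fun β => ?_)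
      · exact (((hZc N).sub continuous_const).pow 2).aestronglyMeasurable
      · rw [Real.norm_eq_abs, abs_pow]
        gcongr
        exact (abs_sub _ _).trans (add_le_add (hB β) le_rfl)
    have h7 := mul_meas_ge_le_integral_of_nonneg (μ := μ) (f := fun β => (Z N β - E N) ^ 2)
      (Eventually.of_forall fun β => sq_nonneg _) hint ((E N / 2) ^ 2)
    have h8 : (0 : ℝ) < (E N / 2) ^ 2 := by positivity
    have h9 : μ.real {β | (E N / 2) ^ 2 ≤ (Z N β - E N) ^ 2} ≤
        (30 * E N + D * W ^ 2) / (E N / 2) ^ 2 := by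
      rw [le_div_iff₀ h8, mul_comm]
      exact h7.trans (hsec N)
    rw [← ENNReal.ofReal_toReal (measure_ne_top μ {β | (E N / 2) ^ 2 ≤ (Z N β - E N) ^ 2})]
    exact ENNReal.ofReal_le_ofReal h9
  have hlim : Tendsto (fun N => ENNReal.ofReal ((30 * E N + D * W ^ 2) / (E N / 2) ^ 2)) atTop
      (nhds 0) := by
    have h1 : Tendsto (fun y : ℝ => (30 * y + D * W ^ 2) / (y / 2) ^ 2) atTop (nhds 0) := by
      have h2 : Tendsto (fun y : ℝ => 120 * y⁻¹ + 4 * (D * W ^ 2) * (y⁻¹ * y⁻¹)) atTop (nhds 0) := by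
        have h3 : Tendsto (fun y : ℝ => y⁻¹) atTop (nhds 0) := tendsto_inv_atTop_zero
        have h4 := (h3.const_mul 120).add ((h3.mul h3).const_mul (4 * (D * W ^ 2)))
        simpa using h4
      refine h2.congr' ?_
      filter_upwards [eventually_gt_atTop 0] with y hy
      field_simp
      ring
    have h5 := h1.comp hEt
    rw [← ENNReal.ofReal_zero]
    exact (ENNReal.continuous_ofReal.tendsto 0).comp h5
  have hzero : μ {β | ∀ N : ℕ, ((T N).filter fun i =>
      |(q i * β - γ i) - round (q i * β - γ i)| < 1 / (M i : ℝ)).card < K} = 0 :=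
    le_antisymm (ge_of_tendsto hlim hcheb) bot_le
  rw [ae_iff]
  have heq : {β : ℝ | ¬ ∃ N, K ≤ ((T N).filter fun i =>
      |(q i * β - γ i) - round (q i * β - γ i)| < 1 / (M i : ℝ)).card} =
      {β | ∀ N : ℕ, ((T N).filter fun i =>
      |(q i * β - γ i) - round (q i * β - γ i)| < 1 / (M i : ℝ)).card < K} := by
    ext β
    simp only [Set.mem_ofPred_eq, not_exists, not_le]
  rw [heq]
  exact hzero

end Pool.Agent.H587.FD
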