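import Mathlib
import Pool.Agent.H587.FD.Geo2
import Pool.Agent.H587.FD.Second

set_option autoImplicit false

open Finset MeasureTheory Filter

namespace Pool.Agent.H587.FD

/-- primitive vectors `(q, p)` with `q ≍ 128^(2rs)` and `|q α - p| ≍ 128^(2j - 2rs)`. -/
def Cell (α : ℝ) (r s j : ℕ) (z : ℤ × ℤ) : Prop :=
  IsCoprime z.1 z.2 ∧ 0 < z.1 ∧ (128 : ℝ) ^ (2 * r * s) / 32 ≤ z.1 ∧
    (z.1 : ℝ) ≤ 2 * 128 ^ (2 * r * s) ∧
    (128 : ℝ) ^ (2 * j) / (32 * 128 ^ (2 * r * s)) ≤ |z.1 * α - z.2| ∧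
    |z.1 * α - z.2| ≤ 2 * 128 ^ (2 * j) / 128 ^ (2 * r * s)

/-- the Diophantine condition used -/
def Dio (α : ℝ) (r : ℕ) (c : ℝ) : Prop :=
  ∀ s : ℕ, ∀ q p : ℤ, 0 < q → (q : ℝ) ≤ 128 ^ (2 * r * s) → c ≤ |q * α - p| * q * 128 ^ s

lemma exists_cell (α : ℝ) (r : ℕ) (hr : 1 ≤ r) (c : ℝ) (hdio : Dio α r c)
    (s j : ℕ) (hs : 3 ≤ s) (hcs : 20000 ^ 2 ≤ c * 128 ^ s) (hsj : s ≤ j) (hj : j ≤ 2 * s) :
    ∃ S : Finset (ℤ × ℤ), (∀ z ∈ S, Cell α r s j z) ∧ (128 : ℝ) ^ (2 * j) / 512 ≤ S.card ∧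
      S.card ≤ 128 ^ (2 * j) := by
  have hjr : j ≤ 2 * r * s := by nlinarith
  set X : ℝ := 128 ^ (2 * r * s - j) with hX
  set A : ℝ := 128 ^ j with hA
  have hX0 : 0 < X := by positivity
  have hA0 : 0 < A := by positivity
  have hX1 : 1 ≤ X := one_le_pow₀ (by norm_num)
  have hAX : A * X = 128 ^ (2 * r * s) := by
    rw [hA, hX, ← pow_add]; congr 1; omega
  have hAA : A ^ 2 = 128 ^ (2 * j) := by rw [hA, ← pow_mul]; congr 1; ring
  have hAs : (128 : ℝ) ^ s ≤ A := pow_le_pow_right₀ (by norm_num) hsj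
  have h3s : (20000 : ℝ) ≤ 128 ^ s := by
    calc (20000 : ℝ) ≤ 128 ^ 3 := by norm_num
      _ ≤ 128 ^ s := pow_le_pow_right₀ (by norm_num) hs
  have hA1 : (20000 : ℝ) / A ≤ 1 := by
    rw [div_le_one hA0]; linarith
  obtain ⟨S, hS, hcard⟩ := geo' α X A (20000 / A) hX1 hA0 (by rw [mul_div_cancel₀ _ hA0.ne']) (by
    intro q p hq
    by_cases h : (20000 : ℝ) / A ≤ q / X
    · exact Or.inl h
    · push Not at h
      right
      rw [div_lt_iff₀ hX0] at h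
      have hq0 : (0 : ℝ) < q := by exact_mod_cast hq
      have hqX : (q : ℝ) ≤ 128 ^ (2 * r * s) := by
        rw [← hAX]
        have h1 : 20000 / A * X ≤ 1 * X := by gcongr
        have h2 : 1 * X ≤ A * X := by
          gcongr; linarith
        linarith
      have h1 := hdio s q p hq hqX
      have h2 : c ≤ |(q : ℝ) * α - p| * (20000 / A * X) * 128 ^ s := by
        refine h1.trans ?_
        gcongr
      -- multiply by 128^s
      have h3 : c * 128 ^ s ≤ (X * |(q : ℝ) * α - p|) * (20000 / A) * (128 ^ s * 128 ^ s) := by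
        have := mul_le_mul_of_nonneg_right h2 (by positivity : (0 : ℝ) ≤ 128 ^ s)
        linarith
      have h4 : (X * |(q : ℝ) * α - p|) * (20000 / A) * (128 ^ s * 128 ^ s) ≤
          (X * |(q : ℝ) * α - p|) * (20000 / A) * (A * A) := by
        gcongr
      have h5 : (X * |(q : ℝ) * α - p|) * (20000 / A) * (A * A) = X * |(q : ℝ) * α - p| * 20000 * A := by
        field_simp
      rw [div_le_iff₀ hA0]
      have h6 : (20000 : ℝ) ^ 2 ≤ X * |(q : ℝ) * α - p| * 20000 * A := by linarith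
      nlinarith)
  have hS' : ∀ z ∈ S, Cell α r s j z := by
    intro z hz
    obtain ⟨h1, h2, h3, h4, h5, h6⟩ := hS z hz
    have e1 : A / (32 * X) = 128 ^ (2 * j) / (32 * 128 ^ (2 * r * s)) := by
      rw [← hAX, ← hAA]; field_simp
    have e2 : 2 * A / X = 2 * 128 ^ (2 * j) / 128 ^ (2 * r * s) := by
      rw [← hAX, ← hAA]; field_simp
    refine ⟨h1, h2, ?_, ?_, ?_, ?_⟩
    · rw [← hAX]; exact h3
    · rw [← hAX]; linarith
    · rw [← e1]; exact h5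
    · rw [← e2]; exact h6
  rw [hAA] at hcard
  by_cases hle : S.card ≤ 128 ^ (2 * j)
  · exact ⟨S, hS', hcard, hle⟩
  · obtain ⟨S', hS'', hc'⟩ := exists_subset_card_eq (not_le.1 hle).le
    refine ⟨S', fun z hz => hS' z (hS'' hz), ?_, hc'.le⟩
    rw [hc']
    push_cast
    have : (0 : ℝ) ≤ 128 ^ (2 * j) := by positivity
    linarith

/-- equal vectors from a linear relation -/
lemma prim_eq (z₁ z₂ : ℤ × ℤ) (h₁ h₂ : ℤ) (hz₁ : IsCoprime z₁.1 z₁.2) (hz₂ : IsCoprime z₂.1 z₂.2)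
    (hp₁ : 0 < z₁.1) (hp₂ : 0 < z₂.1) (hh₁ : h₁ ≠ 0) (e1 : h₁ * z₁.1 = h₂ * z₂.1)
    (e2 : h₁ * z₁.2 = h₂ * z₂.2) : z₁ = z₂ ∧ h₁ = h₂ := by
  have d1 : h₂ ∣ h₁ := by
    obtain ⟨u, v, huv⟩ := hz₁
    refine ⟨u * z₂.1 + v * z₂.2, ?_⟩
    linear_combination (-h₁) * huv + u * e1 + v * e2
  have d2 : h₁ ∣ h₂ := by
    obtain ⟨u, v, huv⟩ := hz₂
    refine ⟨u * z₁.1 + v * z₁.2, ?_⟩
    linear_combination (-h₂) * huv - u * e1 - v * e2
  have h12 : h₁ = h₂ := by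
    rcases Int.associated_iff.1 (associated_of_dvd_dvd d2 d1) with h | h
    · exact h
    · exfalso
      rw [h] at e1
      have h3 : h₂ * (z₁.1 + z₂.1) = 0 := by linarith
      rcases mul_eq_zero.1 h3 with h4 | h4
      · apply hh₁; rw [h, h4]; rfl
      · omega
  subst h12
  exact ⟨Prod.ext (mul_left_cancel₀ hh₁ e1) (mul_left_cancel₀ hh₁ e2), rfl⟩

lemma sep_aux (α : ℝ) (r : ℕ) (hr : 100 ≤ r) (c : ℝ) (hdio : Dio α r c)
    (s₁ s₂ j₁ j₂ : ℕ) (z₁ z₂ : ℤ × ℤ) (h₁ h₂ : ℤ) (hs₂ : 1 ≤ s₂) (hs : s₂ ≤ s₁)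
    (hj₁ : j₁ ≤ 2 * s₁) (hj₂ : j₂ ≤ 2 * s₂) (hz₁ : Cell α r s₁ j₁ z₁) (hz₂ : Cell α r s₂ j₂ z₂)
    (hh₁ : h₁ ≠ 0) (hb₁ : |(h₁ : ℝ)| ≤ 128 ^ (6 * s₁))
    (hb₂ : |(h₂ : ℝ)| ≤ 128 ^ (6 * s₂)) :
    (z₁ = z₂ ∧ h₁ = h₂) ∨
      min (c / 4) 1 * 128 ^ ((r - 6) * s₁) ≤ |((h₁ * z₁.1 - h₂ * z₂.1 : ℤ) : ℝ)| := by
  obtain ⟨u1, u2, u3, u4, u5, u6⟩ := hz₁
  obtain ⟨v1, v2, v3, v4, v5, v6⟩ := hz₂
  have hmin1 : min (c / 4) 1 ≤ 1 := min_le_right _ _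
  by_cases hcase : 2 * s₂ ≤ s₁
  · -- far scales
    right
    have hq1 : (0 : ℝ) < z₁.1 := by exact_mod_cast u2
    have hq2 : (0 : ℝ) < z₂.1 := by exact_mod_cast v2
    have hh1 : (1 : ℝ) ≤ |(h₁ : ℝ)| := by
      have : 1 ≤ |h₁| := Int.one_le_abs hh₁
      exact_mod_cast this
    have a1 : |(h₁ : ℝ) * z₁.1| - |(h₂ : ℝ) * z₂.1| ≤ |((h₁ * z₁.1 - h₂ * z₂.1 : ℤ) : ℝ)| := by
      push_cast
      exact abs_sub_abs_le_abs_sub _ _
    have a2 : (z₁.1 : ℝ) ≤ |(h₁ : ℝ) * z₁.1| := by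
      rw [abs_mul, abs_of_pos hq1]; nlinarith
    have a3 : |(h₂ : ℝ) * z₂.1| ≤ 128 ^ (6 * s₂) * (2 * 128 ^ (2 * r * s₂)) := by
      rw [abs_mul, abs_of_pos hq2]; gcongr
    have a4 : (128 : ℝ) ^ (6 * s₂) * (2 * 128 ^ (2 * r * s₂)) ≤ 2 * 128 ^ ((r + 3) * s₁) := by
      have : (128 : ℝ) ^ (6 * s₂) * (2 * 128 ^ (2 * r * s₂)) = 2 * 128 ^ (6 * s₂ + 2 * r * s₂) := by
        rw [pow_add]; ring
      rw [this]
      gcongr
      · norm_num
      · nlinarith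
    have a5 : (4 : ℝ) * 128 ^ ((r + 3) * s₁) ≤ 128 ^ (2 * r * s₁) / 32 := by
      rw [le_div_iff₀ (by norm_num)]
      calc (4 : ℝ) * 128 ^ ((r + 3) * s₁) * 32 = 128 ^ ((r + 3) * s₁ + 1) := by rw [pow_succ]; ring
        _ ≤ 128 ^ (2 * r * s₁) := by
          apply pow_le_pow_right₀ (by norm_num)
          nlinarith
    have a6 : (128 : ℝ) ^ ((r - 6) * s₁) ≤ 128 ^ ((r + 3) * s₁) := by
      apply pow_le_pow_right₀ (by norm_num)
      gcongr; omega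
    have a7 : (0 : ℝ) < 128 ^ ((r - 6) * s₁) := by positivity
    nlinarith
  · push Not at hcase
    -- comparable scales
    set n : ℤ := h₁ * z₁.1 - h₂ * z₂.1 with hn
    set m : ℤ := h₁ * z₁.2 - h₂ * z₂.2 with hm
    set E : ℝ := 128 ^ ((r - 5) * s₁) with hE
    have hE0 : 0 < E := by positivity
    have key : ∀ s j : ℕ, ∀ z : ℤ × ℤ, ∀ h : ℤ, s₁ ≤ 2 * s → s₂ ≤ s → j ≤ 2 * s → |(h : ℝ)| ≤ 128 ^ (6 * s) →
        |(z.1 : ℝ) * α - z.2| ≤ 2 * 128 ^ (2 * j) / 128 ^ (2 * r * s) →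
        |(h : ℝ) * (z.1 * α - z.2)| ≤ 2 / E := by
      intro s j z h h0 h0' h1 h2 h3
      rw [abs_mul]
      have h4 : (128 : ℝ) ^ (2 * j) ≤ 128 ^ (4 * s) := by
        apply pow_le_pow_right₀ (by norm_num); omega
      calc |(h : ℝ)| * |(z.1 : ℝ) * α - z.2| ≤ 128 ^ (6 * s) * (2 * 128 ^ (2 * j) / 128 ^ (2 * r * s)) := by
            gcongr
        _ ≤ 128 ^ (6 * s) * (2 * 128 ^ (4 * s) / 128 ^ (2 * r * s)) := by
            gcongr
        _ ≤ 2 / E := by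
            rw [mul_div_assoc', div_le_div_iff₀ (by positivity) hE0]
            calc (128 : ℝ) ^ (6 * s) * (2 * 128 ^ (4 * s)) * E = 2 * 128 ^ (6 * s + 4 * s + (r - 5) * s₁) := by
                  rw [hE, pow_add, pow_add]; ring
              _ ≤ 2 * 128 ^ (2 * r * s) := by
                gcongr
                · norm_num
                · obtain ⟨k, rfl⟩ : ∃ k, r = k + 5 := ⟨r - 5, by omega⟩
                  simp only [Nat.add_sub_cancel]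
                  nlinarith
    have b1 : |(n : ℝ) * α - m| ≤ 4 / E := by
      have e1 : (n : ℝ) * α - m = h₁ * (z₁.1 * α - z₁.2) - h₂ * (z₂.1 * α - z₂.2) := by
        rw [hn, hm]; push_cast; ring
      rw [e1]
      have b2 := key s₁ j₁ z₁ h₁ (by omega) hs hj₁ hb₁ u6
      have b3 := key s₂ j₂ z₂ h₂ (by omega) le_rfl hj₂ hb₂ v6
      have b4 := abs_sub (h₁ * (z₁.1 * α - z₁.2)) (h₂ * ((z₂.1 : ℝ) * α - z₂.2))
      have b5 : 4 / E = 2 / E + 2 / E := by ring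
      linarith
    have hE1 : (128 : ℝ) ≤ E := by
      calc (128 : ℝ) = 128 ^ 1 := by norm_num
        _ ≤ E := pow_le_pow_right₀ (by norm_num) (by
          have : 1 ≤ r - 5 := by omega
          nlinarith)
    by_cases hn0 : n = 0
    · left
      have hm0 : m = 0 := by
        by_contra hm0
        rw [hn0] at b1
        have h1 : (1 : ℝ) ≤ |(m : ℝ)| := by
          have : 1 ≤ |m| := Int.one_le_abs hm0
          exact_mod_cast this
        have h2 : |((0 : ℤ) : ℝ) * α - m| = |(m : ℝ)| := by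
          rw [Int.cast_zero, zero_mul, zero_sub, abs_neg]
        rw [h2] at b1
        have h3 : 4 / E < 1 := by
          rw [div_lt_one hE0]; linarith
        linarith
      exact prim_eq z₁ z₂ h₁ h₂ u1 v1 u2 v2 hh₁ (by linarith) (by linarith)
    · right
      have hEE : E = 128 ^ ((r - 6) * s₁) * 128 ^ s₁ := by
        rw [hE, ← pow_add]; congr 1
        obtain ⟨k, rfl⟩ : ∃ k, r = k + 6 := ⟨r - 6, by omega⟩
        have : k + 6 - 5 = k + 1 := by omega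
        rw [this, Nat.add_sub_cancel]; ring
      by_cases hbig : |(n : ℝ)| ≤ 128 ^ (2 * r * s₁)
      · -- use Dio for |n|
        have h1 : c ≤ |(n : ℝ) * α - m| * |(n : ℝ)| * 128 ^ s₁ := by
          rcases lt_or_gt_of_ne hn0 with h | h
          · have e1 : |(n : ℝ)| = ((-n : ℤ) : ℝ) := by
              push_cast; exact abs_of_neg (by exact_mod_cast h)
            have e2 := hdio s₁ (-n) (-m) (by omega) (by rw [← e1]; exact hbig)
            have e3 : |((-n : ℤ) : ℝ) * α - ((-m : ℤ) : ℝ)| = |(n : ℝ) * α - m| := by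
              rw [← abs_neg]; congr 1; push_cast; ring
            rw [e3, ← e1] at e2
            exact e2
          · have e1 : |(n : ℝ)| = (n : ℝ) := abs_of_pos (by exact_mod_cast h)
            have e2 := hdio s₁ n m h (by rw [← e1]; exact hbig)
            rw [e1]
            exact e2
        have h2 : c ≤ 4 / E * |(n : ℝ)| * 128 ^ s₁ := by
          refine h1.trans ?_
          gcongr
        have h3 : 4 / E * |(n : ℝ)| * 128 ^ s₁ = 4 * |(n : ℝ)| / 128 ^ ((r - 6) * s₁) := by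
          rw [hEE]; field_simp
        rw [h3, le_div_iff₀ (by positivity)] at h2
        calc min (c / 4) 1 * 128 ^ ((r - 6) * s₁) ≤ c / 4 * 128 ^ ((r - 6) * s₁) := by
              gcongr; exact min_le_left _ _
          _ ≤ |(n : ℝ)| := by linarith
      · push Not at hbig
        calc min (c / 4) 1 * 128 ^ ((r - 6) * s₁) ≤ 1 * 128 ^ ((r - 6) * s₁) := by gcongr
          _ ≤ 128 ^ (2 * r * s₁) := by
            rw [one_mul]
            apply pow_le_pow_right₀ (by norm_num)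
            have : r - 6 ≤ 2 * r := by omega
            gcongr
          _ ≤ |(n : ℝ)| := hbig.le

lemma sep (α : ℝ) (r : ℕ) (hr : 100 ≤ r) (c : ℝ) (hdio : Dio α r c)
    (s₁ s₂ j₁ j₂ : ℕ) (z₁ z₂ : ℤ × ℤ) (h₁ h₂ : ℤ) (hs₁ : 1 ≤ s₁) (hs₂ : 1 ≤ s₂)
    (hj₁ : j₁ ≤ 2 * s₁) (hj₂ : j₂ ≤ 2 * s₂) (hz₁ : Cell α r s₁ j₁ z₁) (hz₂ : Cell α r s₂ j₂ z₂)
    (hh₁ : h₁ ≠ 0) (hh₂ : h₂ ≠ 0) (hb₁ : |(h₁ : ℝ)| ≤ 128 ^ (6 * s₁))
    (hb₂ : |(h₂ : ℝ)| ≤ 128 ^ (6 * s₂)) :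
    (z₁ = z₂ ∧ h₁ = h₂) ∨
      min (c / 4) 1 * 128 ^ ((r - 6) * max s₁ s₂) ≤ |((h₁ * z₁.1 - h₂ * z₂.1 : ℤ) : ℝ)| := by
  rcases le_total s₂ s₁ with h | h
  · rw [max_eq_left h]
    exact sep_aux α r hr c hdio s₁ s₂ j₁ j₂ z₁ z₂ h₁ h₂ hs₂ h hj₁ hj₂ hz₁ hz₂ hh₁ hb₁ hb₂
  · rw [max_eq_right h]
    rcases sep_aux α r hr c hdio s₂ s₁ j₂ j₁ z₂ z₁ h₂ h₁ hs₁ h hj₂ hj₁ hz₂ hz₁ hh₂ hb₂ hb₁ with h3 | h3
    · exact Or.inl ⟨h3.1.symm, h3.2.symm⟩
    · right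
      have : |((h₁ * z₁.1 - h₂ * z₂.1 : ℤ) : ℝ)| = |((h₂ * z₂.1 - h₁ * z₁.1 : ℤ) : ℝ)| := by
        rw [← abs_neg]; congr 1; push_cast; ring
      rw [this]; exact h3

/-- a vector lies in at most one cell -/
lemma cell_unique (α : ℝ) (r : ℕ) (hr : 100 ≤ r) (s₁ s₂ j₁ j₂ : ℕ) (z₁ z₂ : ℤ × ℤ)
    (hs₁ : 1 ≤ s₁) (hj₁ : j₁ ≤ 2 * s₁) (hj₂ : j₂ ≤ 2 * s₂) (hz₁ : Cell α r s₁ j₁ z₁)
    (hz₂ : Cell α r s₂ j₂ z₂) (hq : z₁.1 = z₂.1) : s₁ = s₂ ∧ j₁ = j₂ ∧ z₁ = z₂ := by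
  obtain ⟨u1, u2, u3, u4, u5, u6⟩ := hz₁
  obtain ⟨v1, v2, v3, v4, v5, v6⟩ := hz₂
  have hpow : ∀ a b : ℕ, (128 : ℝ) ^ (2 * r * a) / 32 ≤ 2 * 128 ^ (2 * r * b) → a ≤ b := by
    intro a b h
    by_contra hab
    push Not at hab
    have h1 : (128 : ℝ) ^ (2 * r * b + 1) ≤ 128 ^ (2 * r * a) := by
      apply pow_le_pow_right₀ (by norm_num)
      nlinarith
    rw [pow_succ] at h1
    have h2 : (0 : ℝ) < 128 ^ (2 * r * b) := by positivity
    linarith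
  have hs : s₁ = s₂ := by
    apply le_antisymm
    · apply hpow; rw [← hq] at v4; linarith
    · apply hpow; rw [← hq] at v3; linarith
  subst hs
  -- the numerators
  have hp : z₁.2 = z₂.2 := by
    have h1 : ∀ j : ℕ, j ≤ 2 * s₁ → (2 : ℝ) * 128 ^ (2 * j) / 128 ^ (2 * r * s₁) < 1 / 2 := by
      intro j hj
      rw [div_lt_div_iff₀ (by positivity) (by norm_num)]
      calc (2 : ℝ) * 128 ^ (2 * j) * 2 < 128 * 128 ^ (2 * j) := by
            have : (0 : ℝ) < 128 ^ (2 * j) := by positivity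
            linarith
        _ = 128 ^ (2 * j + 1) := by rw [pow_succ]; ring
        _ ≤ 1 * 128 ^ (2 * r * s₁) := by
          rw [one_mul]
          apply pow_le_pow_right₀ (by norm_num)
          nlinarith
    have h2 := lt_of_le_of_lt u6 (h1 j₁ hj₁)
    have h3 := lt_of_le_of_lt v6 (h1 j₂ hj₂)
    rw [hq] at h2
    have h4 : |((z₁.2 - z₂.2 : ℤ) : ℝ)| < 1 := by
      have e1 : ((z₁.2 - z₂.2 : ℤ) : ℝ) = (z₂.1 * α - z₂.2) - (z₂.1 * α - z₁.2) := by push_cast; ring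
      rw [e1]
      have := abs_sub ((z₂.1 : ℝ) * α - z₂.2) (z₂.1 * α - z₁.2)
      linarith
    have h5 : |z₁.2 - z₂.2| < 1 := by exact_mod_cast h4
    have h6 : z₁.2 - z₂.2 = 0 := Int.abs_lt_one_iff.1 h5
    omega
  have hz : z₁ = z₂ := Prod.ext hq hp
  subst hz
  refine ⟨rfl, ?_, rfl⟩
  have hpow2 : ∀ a b : ℕ, (128 : ℝ) ^ (2 * a) / (32 * 128 ^ (2 * r * s₁)) ≤
      2 * 128 ^ (2 * b) / 128 ^ (2 * r * s₁) → a ≤ b := by
    intro a b h
    by_contra hab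
    push Not at hab
    rw [div_le_div_iff₀ (by positivity) (by positivity)] at h
    have h0 : (0 : ℝ) < 128 ^ (2 * r * s₁) := by positivity
    have h3 : (128 : ℝ) ^ (2 * a) ≤ 64 * 128 ^ (2 * b) := by
      have : 128 ^ (2 * a) * (128 : ℝ) ^ (2 * r * s₁) ≤ (64 * 128 ^ (2 * b)) * 128 ^ (2 * r * s₁) := by
        linarith
      exact le_of_mul_le_mul_right this h0
    have h1 : (128 : ℝ) ^ (2 * b + 1) ≤ 128 ^ (2 * a) := by
      apply pow_le_pow_right₀ (by norm_num); omega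
    rw [pow_succ] at h1
    have h2 : (0 : ℝ) < 128 ^ (2 * b) := by positivity
    linarith
  exact le_antisymm (hpow2 _ _ (u5.trans v6)) (hpow2 _ _ (v5.trans u6))

end Pool.Agent.H587.FD
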