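import Mathlib
import Pool.Agent.H587.FD.Second

set_option autoImplicit false

open Finset MeasureTheory Filter

namespace Pool.Agent.H587.FD

/-- trigonometric polynomial with `ℓ¹` norm at most `A` and frequencies at most `U` -/
def TP (P : ℝ → ℂ) (A U : ℝ) : Prop :=
  ∃ (ι : Type) (S : Finset ι) (c : ι → ℂ) (n : ι → ℤ),
    (∀ x, P x = ∑ i ∈ S, c i * e (n i * x)) ∧ ∑ i ∈ S, ‖c i‖ ≤ A ∧ ∀ i ∈ S, |(n i : ℝ)| ≤ U

lemma TP.one : TP (fun _ => 1) 1 0 := by
  refine ⟨Unit, {()}, fun _ => 1, fun _ => 0, ?_, ?_, ?_⟩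
  · intro x; simp [e_zero]
  · simp
  · intro i _; simp

lemma TP.mul {P Q : ℝ → ℂ} {A B U V : ℝ} (hP : TP P A U) (hQ : TP Q B V) :
    TP (fun x => P x * Q x) (A * B) (U + V) := by
  obtain ⟨ι, S, c, n, h1, h2, h3⟩ := hP
  obtain ⟨κ, T, d, m, k1, k2, k3⟩ := hQ
  refine ⟨ι × κ, S ×ˢ T, fun p => c p.1 * d p.2, fun p => n p.1 + m p.2, ?_, ?_, ?_⟩
  · intro x
    simp only
    rw [h1, k1, sum_mul_sum, ← sum_product']
    refine sum_congr rfl fun p _ => ?_
    have : e (((n p.1 + m p.2 : ℤ) : ℝ) * x) = e (n p.1 * x) * e (m p.2 * x) := by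
      rw [← e_add]; congr 1; push_cast; ring
    rw [this]; ring
  · rw [sum_product]
    simp_rw [norm_mul]
    rw [← sum_mul_sum]
    exact mul_le_mul h2 k2 (sum_nonneg fun _ _ => norm_nonneg _)
      (le_trans (sum_nonneg fun _ _ => norm_nonneg _) h2)
  · intro p hp
    rw [mem_product] at hp
    push_cast
    exact (abs_add_le _ _).trans (add_le_add (h3 _ hp.1) (k3 _ hp.2))

lemma TP.continuous {P : ℝ → ℂ} {A U : ℝ} (hP : TP P A U) : Continuous P := by
  obtain ⟨ι, S, c, n, h1, -, -⟩ := hP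
  have : P = fun x => ∑ i ∈ S, c i * e (n i * x) := funext h1
  rw [this]
  exact continuous_finsetSum _ fun i _ => continuous_const.mul (continuous_e _)

lemma TP.norm_le {P : ℝ → ℂ} {A U : ℝ} (hP : TP P A U) (x : ℝ) : ‖P x‖ ≤ A := by
  obtain ⟨ι, S, c, n, h1, h2, -⟩ := hP
  rw [h1]
  refine (norm_sum_le _ _).trans (le_trans (le_of_eq ?_) h2)
  refine sum_congr rfl fun i _ => ?_
  rw [norm_mul, norm_e, mul_one]

lemma TP.integrable {P : ℝ → ℂ} {A U : ℝ} (hP : TP P A U) (μ : Measure ℝ) [IsProbabilityMeasure μ] :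
    Integrable P μ :=
  Integrable.of_bound hP.continuous.aestronglyMeasurable A (Eventually.of_forall hP.norm_le)

lemma TP.integral_bound {P : ℝ → ℂ} {A U : ℝ} (hP : TP P A U)
    (μ : Measure ℝ) [IsProbabilityMeasure μ] (C δ : ℝ) (hC : 0 ≤ C) (hδ : 0 < δ)
    (hμ : ∀ n : ℤ, n ≠ 0 → ‖∫ x, e (n * x) ∂μ‖ ≤ C * |(n : ℝ)| ^ (-δ))
    (n : ℤ) (L : ℝ) (hL : 0 < L) (hn : U + L ≤ |(n : ℝ)|) :
    ‖∫ x, P x * e (n * x) ∂μ‖ ≤ A * (C * L ^ (-δ)) := by
  obtain ⟨ι, S, c, m, h1, h2, h3⟩ := hP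
  have e1 : ∀ x, P x * e (n * x) = ∑ i ∈ S, c i * e (((m i + n : ℤ) : ℝ) * x) := by
    intro x
    rw [h1, sum_mul]
    refine sum_congr rfl fun i _ => ?_
    have : e (((m i + n : ℤ) : ℝ) * x) = e (m i * x) * e (n * x) := by
      rw [← e_add]; congr 1; push_cast; ring
    rw [this]; ring
  simp_rw [e1]
  rw [integral_finsetSum _ fun i _ => (integrable_e μ _).const_mul _]
  calc ‖∑ i ∈ S, ∫ x, c i * e (((m i + n : ℤ) : ℝ) * x) ∂μ‖ ≤
      ∑ i ∈ S, ‖∫ x, c i * e (((m i + n : ℤ) : ℝ) * x) ∂μ‖ := norm_sum_le _ _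
    _ ≤ ∑ i ∈ S, ‖c i‖ * (C * L ^ (-δ)) := by
        refine sum_le_sum fun i hi => ?_
        rw [integral_const_mul, norm_mul]
        gcongr
        have h4 : L ≤ |((m i + n : ℤ) : ℝ)| := by
          push_cast
          have h5 := h3 i hi
          have h6 : |(n : ℝ)| ≤ |(m i : ℝ) + n| + |(m i : ℝ)| := by
            have := abs_sub ((m i : ℝ) + n) (m i)
            simpa using this
          linarith
        have h7 : (m i + n) ≠ 0 := by
          intro h0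
          rw [h0, Int.cast_zero, abs_zero] at h4
          linarith
        refine (hμ _ h7).trans ?_
        gcongr C * ?_
        exact Real.rpow_le_rpow_of_nonpos hL h4 (by linarith)
    _ = (∑ i ∈ S, ‖c i‖) * (C * L ^ (-δ)) := by rw [sum_mul]
    _ ≤ A * (C * L ^ (-δ)) := by
        gcongr

/-- constant term plus frequencies in `[L, U]` -/
def Blk (X : ℝ → ℝ) (x₀ Λ L U : ℝ) : Prop :=
  ∃ (ι : Type) (S : Finset ι) (c : ι → ℂ) (n : ι → ℤ),
    (∀ x, (X x : ℂ) = x₀ + ∑ i ∈ S, c i * e (n i * x)) ∧ ∑ i ∈ S, ‖c i‖ ≤ Λ ∧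
      ∀ i ∈ S, L ≤ |(n i : ℝ)| ∧ |(n i : ℝ)| ≤ U

lemma Blk.tp {X : ℝ → ℝ} {x₀ Λ L U : ℝ} (h : Blk X x₀ Λ L U) (hx0 : 0 ≤ x₀) (hx1 : x₀ ≤ 1)
    (hU : 0 ≤ U) :
    TP (fun x => (X x : ℂ)) (1 + Λ) U := by
  obtain ⟨ι, S, c, n, h1, h2, h3⟩ := h
  refine ⟨Option ι, insertNone S, fun o => o.elim (x₀ : ℂ) c, fun o => o.elim 0 n, ?_, ?_, ?_⟩
  · intro x
    simp only
    rw [h1, sum_insertNone]
    simp [e_zero]
  · rw [sum_insertNone]
    simp only [Option.elim]
    rw [Complex.norm_real, Real.norm_eq_abs, abs_of_nonneg hx0]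
    linarith
  · intro o ho
    cases o with
    | none => simpa using hU
    | some i =>
      simp only [some_mem_insertNone] at ho
      exact (h3 i ho).2

/-- Product of dissociate blocks. -/
theorem prod_bound (μ : Measure ℝ) [IsProbabilityMeasure μ] (C δ : ℝ) (hC : 0 ≤ C) (hδ : 0 < δ)
    (hμ : ∀ n : ℤ, n ≠ 0 → ‖∫ x, e (n * x) ∂μ‖ ≤ C * |(n : ℝ)| ^ (-δ))
    (X : ℕ → ℝ → ℝ) (Λ : ℝ) (hΛ : 0 ≤ Λ) (L L' U : ℕ → ℝ) (B : ℕ) (hU : ∀ b, 0 ≤ U b)
    (hX : ∀ b < B, ∃ x₀, 0 ≤ x₀ ∧ x₀ ≤ 1 / 8 ∧ Blk (X b) x₀ Λ (L b) (U b))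
    (hpos : ∀ b < B, ∀ x, 0 ≤ X b x)
    (hL' : ∀ b < B, 0 < L' b) (hL : ∀ b < B, ∑ b' ∈ range b, U b' + L' b ≤ L b)
    (hdec : ∀ b < B, Λ * ((1 + Λ) ^ b * (C * L' b ^ (-δ))) ≤ (1 / 8) ^ (b + 1)) :
    TP (fun x => ((∏ b ∈ range B, X b x : ℝ) : ℂ)) ((1 + Λ) ^ B) (∑ b ∈ range B, U b) ∧
      ∫ x, ∏ b ∈ range B, X b x ∂μ ≤ (1 / 4) ^ B := by
  induction B with
  | zero =>
    constructor
    · simpa using TP.one
    · simp
  | succ B ih =>
    obtain ⟨ih1, ih2⟩ := ih (fun b hb => hX b (by omega)) (fun b hb => hpos b (by omega))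
      (fun b hb => hL' b (by omega)) (fun b hb => hL b (by omega)) (fun b hb => hdec b (by omega))
    obtain ⟨x₀, hx0, hx8, hblk⟩ := hX B (by omega)
    have htp := hblk.tp hx0 (by linarith) (hU B)
    constructor
    · have := ih1.mul htp
      rw [pow_succ, sum_range_succ]
      convert this using 2 with x
      rw [prod_range_succ]; push_cast; ring
    · set P : ℝ → ℝ := fun x => ∏ b ∈ range B, X b x with hP
      have hPpos : ∀ x, 0 ≤ P x := fun x => prod_nonneg fun b hb => hpos b (by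
        rw [mem_range] at hb; omega) x
      have e1 : ∀ x, ∏ b ∈ range (B + 1), X b x = P x * X B x := fun x => by
        rw [prod_range_succ]
      simp_rw [e1]
      obtain ⟨ι, S, c, n, h1, h2, h3⟩ := hblk
      have hint : Integrable (fun x => ((P x : ℝ) : ℂ)) μ := ih1.integrable μ
      have e2 : ((∫ x, P x * X B x ∂μ : ℝ) : ℂ) = x₀ * ∫ x, ((P x : ℝ) : ℂ) ∂μ +
          ∑ i ∈ S, c i * ∫ x, ((P x : ℝ) : ℂ) * e (n i * x) ∂μ := by
        rw [← integral_complex_ofReal]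
        have e3 : ∀ x, ((P x * X B x : ℝ) : ℂ) = x₀ * ((P x : ℝ) : ℂ) +
            ∑ i ∈ S, c i * (((P x : ℝ) : ℂ) * e (n i * x)) := by
          intro x
          push_cast
          rw [h1, mul_add, mul_sum, mul_comm]
          congr 1
          refine sum_congr rfl fun i _ => ?_
          ring
        simp_rw [e3]
        have hint2 : ∀ i ∈ S, Integrable (fun x => c i * (((P x : ℝ) : ℂ) * e (n i * x))) μ := by
          intro i _
          refine (hint.mul_bdd (c := 1) (continuous_e _).aestronglyMeasurable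
            (Eventually.of_forall fun x => by rw [norm_e])).const_mul _
        rw [integral_add (hint.const_mul _) (integrable_finsetSum _ hint2),
          integral_finsetSum _ hint2, integral_const_mul]
        congr 1
        refine sum_congr rfl fun i _ => ?_
        rw [integral_const_mul]
      have h0 : 0 ≤ ∫ x, P x * X B x ∂μ := integral_nonneg fun x =>
        mul_nonneg (hPpos x) (hpos B (by omega) x)
      have h4 : ∫ x, P x * X B x ∂μ = ‖((∫ x, P x * X B x ∂μ : ℝ) : ℂ)‖ := by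
        rw [Complex.norm_real, Real.norm_eq_abs, abs_of_nonneg h0]
      rw [h4, e2]
      have h5 : ‖(x₀ : ℂ) * ∫ x, ((P x : ℝ) : ℂ) ∂μ‖ ≤ 1 / 8 * (1 / 4) ^ B := by
        rw [norm_mul, Complex.norm_real, Real.norm_eq_abs, abs_of_nonneg hx0,
          integral_complex_ofReal, Complex.norm_real, Real.norm_eq_abs,
          abs_of_nonneg (integral_nonneg hPpos)]
        exact mul_le_mul hx8 ih2 (integral_nonneg hPpos) (by norm_num)
      have h6 : ‖∑ i ∈ S, c i * ∫ x, ((P x : ℝ) : ℂ) * e (n i * x) ∂μ‖ ≤ (1 / 8) ^ (B + 1) := by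
        refine (norm_sum_le _ _).trans ?_
        calc ∑ i ∈ S, ‖c i * ∫ x, ((P x : ℝ) : ℂ) * e (n i * x) ∂μ‖ ≤
            ∑ i ∈ S, ‖c i‖ * ((1 + Λ) ^ B * (C * L' B ^ (-δ))) := by
              refine sum_le_sum fun i hi => ?_
              rw [norm_mul]
              gcongr
              exact ih1.integral_bound μ C δ hC hδ hμ (n i) (L' B) (hL' B (by omega))
                ((hL B (by omega)).trans (h3 i hi).1)
          _ = (∑ i ∈ S, ‖c i‖) * ((1 + Λ) ^ B * (C * L' B ^ (-δ))) := by rw [sum_mul]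
          _ ≤ Λ * ((1 + Λ) ^ B * (C * L' B ^ (-δ))) := by
              have := hL' B (by omega)
              gcongr
          _ ≤ _ := hdec B (by omega)
      calc ‖(x₀ : ℂ) * ∫ x, ((P x : ℝ) : ℂ) ∂μ +
            ∑ i ∈ S, c i * ∫ x, ((P x : ℝ) : ℂ) * e (n i * x) ∂μ‖ ≤
          1 / 8 * (1 / 4) ^ B + (1 / 8) ^ (B + 1) := (norm_add_le _ _).trans (add_le_add h5 h6)
        _ ≤ 1 / 8 * (1 / 4) ^ B + 1 / 8 * (1 / 4) ^ B := by
            have : (1 / 8 : ℝ) ^ (B + 1) ≤ 1 / 8 * (1 / 4) ^ B := by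
              rw [pow_succ, mul_comm]
              gcongr
              norm_num
            linarith
        _ = (1 / 4) ^ (B + 1) := by rw [pow_succ]; ring

end Pool.Agent.H587.FD
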