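import Mathlib
import Pool.Agent.H587.FD.Cells
import Pool.Agent.H587.FD.Dissoc

set_option autoImplicit false

open Finset MeasureTheory Filter

namespace Pool.Agent.H587.FD

/-- Diophantine condition at scale `128 ^ K` with slack `128 ^ J` -/
def Dio2 (α : ℝ) (J K : ℕ) : Prop :=
  ∀ q p : ℤ, 0 < q → (q : ℝ) ≤ 128 ^ K → 1 ≤ |q * α - p| * q * 128 ^ J

/-- primitive vectors with `q ≍ 128 ^ τ`, `|q α - p| ≍ 128 ^ (2j - τ)`. -/
def Cell2 (α : ℝ) (τ j : ℕ) (z : ℤ × ℤ) : Prop :=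
  IsCoprime z.1 z.2 ∧ 0 < z.1 ∧ (128 : ℝ) ^ τ / 32 ≤ z.1 ∧ (z.1 : ℝ) ≤ 2 * 128 ^ τ ∧
    (128 : ℝ) ^ (2 * j) / (32 * 128 ^ τ) ≤ |z.1 * α - z.2| ∧
    |z.1 * α - z.2| ≤ 2 * 128 ^ (2 * j) / 128 ^ τ

lemma exists_cell2 (α : ℝ) (J K τ j : ℕ) (hdio : Dio2 α J K) (hJ : 5 ≤ J) (hJj : J ≤ j) (hjτ : j ≤ τ)
    (hτK : τ ≤ K) :
    ∃ S : Finset (ℤ × ℤ), (∀ z ∈ S, Cell2 α τ j z) ∧ (128 : ℝ) ^ (2 * j) / 512 ≤ S.card ∧
      S.card ≤ 128 ^ (2 * j) := by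
  set X : ℝ := 128 ^ (τ - j) with hX
  set A : ℝ := 128 ^ j with hA
  have hX0 : 0 < X := by positivity
  have hA0 : 0 < A := by positivity
  have hX1 : 1 ≤ X := one_le_pow₀ (by norm_num)
  have hAX : A * X = 128 ^ τ := by
    rw [hA, hX, ← pow_add]; congr 1; omega
  have hAA : A ^ 2 = 128 ^ (2 * j) := by rw [hA, ← pow_mul]; congr 1; ring
  have hAJ : (128 : ℝ) ^ J ≤ A := pow_le_pow_right₀ (by norm_num) hJj
  have h5 : (20000 : ℝ) ^ 2 ≤ 128 ^ J := by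
    calc (20000 : ℝ) ^ 2 ≤ 128 ^ 5 := by norm_num
      _ ≤ 128 ^ J := pow_le_pow_right₀ (by norm_num) hJ
  have hA1 : (20000 : ℝ) / A ≤ 1 := by
    rw [div_le_one hA0]; linarith
  obtain ⟨S, hS, hcard⟩ := geo' α X A (20000 / A) hX1 hA0 (by rw [mul_div_cancel₀ _ hA0.ne']) (by
    intro q p hq
    by_cases h : (20000 : ℝ) / A ≤ q / X
    · exact Or.inl h
    · push Not at h
      right
      rw [div_lt_iff₀ hX0] at h
      have hq0 : (0 : ℝ) < q := by exact_mod_cast hq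
      have hqX : (q : ℝ) ≤ 128 ^ K := by
        have h1 : 20000 / A * X ≤ 1 * X := by gcongr
        have h2 : X ≤ 128 ^ K := pow_le_pow_right₀ (by norm_num) (by omega)
        linarith
      have h1 := hdio q p hq hqX
      have h2 : 1 ≤ |(q : ℝ) * α - p| * (20000 / A * X) * A := by
        refine h1.trans ?_
        gcongr
      have h3 : |(q : ℝ) * α - p| * (20000 / A * X) * A = X * |(q : ℝ) * α - p| * 20000 := by
        field_simp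
      rw [h3] at h2
      rw [div_le_iff₀ hA0]
      have h4 : 0 ≤ X * |(q : ℝ) * α - p| := by positivity
      nlinarith)
  have hS' : ∀ z ∈ S, Cell2 α τ j z := by
    intro z hz
    obtain ⟨h1, h2, h3, h4, h5, h6⟩ := hS z hz
    have e1 : A / (32 * X) = 128 ^ (2 * j) / (32 * 128 ^ τ) := by
      rw [← hAX, ← hAA]; field_simp
    have e2 : 2 * A / X = 2 * 128 ^ (2 * j) / 128 ^ τ := by
      rw [← hAX, ← hAA]; field_simp
    refine ⟨h1, h2, ?_, ?_, ?_, ?_⟩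
    · rw [← hAX]; exact h3
    · rw [← hAX]; linarith
    · rw [← e1]; exact h5
    · rw [← e2]; exact h6
  rw [hAA] at hcard
  by_cases hle : S.card ≤ 128 ^ (2 * j)
  · exact ⟨S, hS', hcard, hle⟩
  · obtain ⟨S', hS'', hc'⟩ := exists_subset_card_eq (not_le.1 hle).le
    refine ⟨S', fun z hz => hS' z (hS'' hz), ?_, hc'.le⟩
    rw [hc']
    push_cast
    have : (0 : ℝ) ≤ 128 ^ (2 * j) := by positivity
    linarith

/-- a vector lies in at most one cell -/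
lemma cell2_unique (α : ℝ) (τ₁ τ₂ j₁ j₂ : ℕ) (z : ℤ × ℤ) (hz₁ : Cell2 α τ₁ j₁ z)
    (hz₂ : Cell2 α τ₂ j₂ z) : τ₁ = τ₂ ∧ j₁ = j₂ := by
  obtain ⟨u1, u2, u3, u4, u5, u6⟩ := hz₁
  obtain ⟨v1, v2, v3, v4, v5, v6⟩ := hz₂
  have hpow : ∀ a b : ℕ, (128 : ℝ) ^ a / 32 ≤ 2 * 128 ^ b → a ≤ b := by
    intro a b h
    by_contra hab
    push Not at hab
    have h1 : (128 : ℝ) ^ (b + 1) ≤ 128 ^ a := pow_le_pow_right₀ (by norm_num) hab
    rw [pow_succ] at h1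
    have h2 : (0 : ℝ) < 128 ^ b := by positivity
    linarith
  have hs : τ₁ = τ₂ := le_antisymm (hpow _ _ (by linarith)) (hpow _ _ (by linarith))
  subst hs
  refine ⟨rfl, ?_⟩
  have hpow2 : ∀ a b : ℕ, (128 : ℝ) ^ (2 * a) / (32 * 128 ^ τ₁) ≤
      2 * 128 ^ (2 * b) / 128 ^ τ₁ → a ≤ b := by
    intro a b h
    by_contra hab
    push Not at hab
    rw [div_le_div_iff₀ (by positivity) (by positivity)] at h
    have h0 : (0 : ℝ) < 128 ^ τ₁ := by positivity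
    have h3 : (128 : ℝ) ^ (2 * a) ≤ 64 * 128 ^ (2 * b) := by
      have : 128 ^ (2 * a) * (128 : ℝ) ^ τ₁ ≤ (64 * 128 ^ (2 * b)) * 128 ^ τ₁ := by
        linarith
      exact le_of_mul_le_mul_right this h0
    have h1 : (128 : ℝ) ^ (2 * b + 1) ≤ 128 ^ (2 * a) := by
      apply pow_le_pow_right₀ (by norm_num); omega
    rw [pow_succ] at h1
    have h2 : (0 : ℝ) < 128 ^ (2 * b) := by positivity
    linarith
  exact le_antisymm (hpow2 _ _ (u5.trans v6)) (hpow2 _ _ (v5.trans u6))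

lemma sep2 (α : ℝ) (J K t : ℕ) (hJ : 1 ≤ J) (hdio : Dio2 α J K) (ht : 10 * J ≤ t) (htK : t + 7 * J ≤ K)
    (τ₁ τ₂ j₁ j₂ : ℕ) (z₁ z₂ : ℤ × ℤ) (h₁ h₂ : ℤ) (ht₁ : t ≤ τ₁) (ht₂ : t ≤ τ₂) (ht₁' : τ₁ < t + J)
    (ht₂' : τ₂ < t + J) (hj₁ : j₁ < 2 * J) (hj₂ : j₂ < 2 * J) (hz₁ : Cell2 α τ₁ j₁ z₁)
    (hz₂ : Cell2 α τ₂ j₂ z₂) (hh₁ : h₁ ≠ 0) (hb₁ : |(h₁ : ℝ)| ≤ 128 ^ (5 * J))
    (hb₂ : |(h₂ : ℝ)| ≤ 128 ^ (5 * J)) :
    ((z₁ = z₂ ∧ h₁ = h₂) ∨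
      (128 : ℝ) ^ (t - 10 * J) ≤ |((h₁ * z₁.1 - h₂ * z₂.1 : ℤ) : ℝ)|) ∧
      |((h₁ * z₁.1 - h₂ * z₂.1 : ℤ) : ℝ)| ≤ 128 ^ (t + 6 * J) := by
  obtain ⟨u1, u2, u3, u4, u5, u6⟩ := hz₁
  obtain ⟨v1, v2, v3, v4, v5, v6⟩ := hz₂
  set n : ℤ := h₁ * z₁.1 - h₂ * z₂.1 with hn
  set m : ℤ := h₁ * z₁.2 - h₂ * z₂.2 with hm
  have hup : ∀ (τ : ℕ) (z : ℤ × ℤ) (h : ℤ), τ < t + J → 0 < z.1 → (z.1 : ℝ) ≤ 2 * 128 ^ τ →
      |(h : ℝ)| ≤ 128 ^ (5 * J) → |(h : ℝ) * z.1| ≤ 128 ^ (t + 6 * J) / 2 := by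
    intro τ z h h1 h2 h3 h4
    have h5 : (0 : ℝ) < z.1 := by exact_mod_cast h2
    rw [abs_mul, abs_of_pos h5]
    have h6 : (128 : ℝ) ^ (τ + 1) ≤ 128 ^ (t + J) := pow_le_pow_right₀ (by norm_num) h1
    rw [pow_succ] at h6
    calc |(h : ℝ)| * z.1 ≤ 128 ^ (5 * J) * (2 * 128 ^ τ) := by gcongr
      _ ≤ 128 ^ (5 * J) * (128 ^ (t + J) / 2) := by
        have : (0 : ℝ) < 128 ^ τ := by positivity
        gcongr
        linarith
      _ = 128 ^ (t + 6 * J) / 2 := by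
        have : (128 : ℝ) ^ (t + 6 * J) = 128 ^ (5 * J) * 128 ^ (t + J) := by
          rw [← pow_add]; congr 1; ring
        rw [this]; ring
  have hnup : |(n : ℝ)| ≤ 128 ^ (t + 6 * J) := by
    have h1 := hup τ₁ z₁ h₁ ht₁' u2 u4 hb₁
    have h2 := hup τ₂ z₂ h₂ ht₂' v2 v4 hb₂
    have h3 := abs_sub ((h₁ : ℝ) * z₁.1) ((h₂ : ℝ) * z₂.1)
    rw [hn]; push_cast
    linarith
  refine ⟨?_, hnup⟩
  set E : ℝ := 128 ^ (t - 9 * J) with hE
  have hE0 : 0 < E := by positivity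
  have key : ∀ (τ j : ℕ) (z : ℤ × ℤ) (h : ℤ), t ≤ τ → j < 2 * J → |(h : ℝ)| ≤ 128 ^ (5 * J) →
      |(z.1 : ℝ) * α - z.2| ≤ 2 * 128 ^ (2 * j) / 128 ^ τ →
      |(h : ℝ) * (z.1 * α - z.2)| ≤ 1 / (2 * E) := by
    intro τ j z h h1 h2 h3 h4
    rw [abs_mul]
    have h5 : (128 : ℝ) ^ (2 * j + 1) ≤ 128 ^ (4 * J) := pow_le_pow_right₀ (by norm_num) (by omega)
    rw [pow_succ] at h5
    have h6 : (128 : ℝ) ^ t ≤ 128 ^ τ := pow_le_pow_right₀ (by norm_num) h1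
    calc |(h : ℝ)| * |(z.1 : ℝ) * α - z.2| ≤ 128 ^ (5 * J) * (2 * 128 ^ (2 * j) / 128 ^ τ) := by
          gcongr
      _ ≤ 128 ^ (5 * J) * ((128 ^ (4 * J) / 2) / 128 ^ t) := by
          have : (0 : ℝ) < 128 ^ (2 * j) := by positivity
          gcongr
          linarith
      _ = 1 / (2 * E) := by
          have : (128 : ℝ) ^ t = 128 ^ (5 * J) * 128 ^ (4 * J) * E := by
            rw [hE, ← pow_add, ← pow_add]; congr 1; omega
          rw [this]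
          field_simp
  have b1 : |(n : ℝ) * α - m| ≤ 1 / E := by
    have e1 : (n : ℝ) * α - m = h₁ * (z₁.1 * α - z₁.2) - h₂ * (z₂.1 * α - z₂.2) := by
      rw [hn, hm]; push_cast; ring
    rw [e1]
    have b2 := key τ₁ j₁ z₁ h₁ ht₁ hj₁ hb₁ u6
    have b3 := key τ₂ j₂ z₂ h₂ ht₂ hj₂ hb₂ v6
    have b4 := abs_sub (h₁ * (z₁.1 * α - z₁.2)) (h₂ * ((z₂.1 : ℝ) * α - z₂.2))
    have b5 : 1 / E = 1 / (2 * E) + 1 / (2 * E) := by field_simp; norm_num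
    linarith
  have hE1 : (128 : ℝ) ≤ E := by
    calc (128 : ℝ) = 128 ^ 1 := by norm_num
      _ ≤ E := pow_le_pow_right₀ (by norm_num) (by omega)
  by_cases hn0 : n = 0
  · left
    have hm0 : m = 0 := by
      by_contra hm0
      rw [hn0] at b1
      have h1 : (1 : ℝ) ≤ |(m : ℝ)| := by
        have : 1 ≤ |m| := Int.one_le_abs hm0
        exact_mod_cast this
      have h2 : |((0 : ℤ) : ℝ) * α - m| = |(m : ℝ)| := by
        rw [Int.cast_zero, zero_mul, zero_sub, abs_neg]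
      rw [h2] at b1
      have h3 : 1 / E < 1 := by
        rw [div_lt_one hE0]; linarith
      linarith
    exact prim_eq z₁ z₂ h₁ h₂ u1 v1 u2 v2 hh₁ (by linarith) (by linarith)
  · right
    have h1 : 1 ≤ |(n : ℝ) * α - m| * |(n : ℝ)| * 128 ^ J := by
      have hbig : |(n : ℝ)| ≤ 128 ^ K :=
        hnup.trans (pow_le_pow_right₀ (by norm_num) (by omega))
      rcases lt_or_gt_of_ne hn0 with h | h
      · have e1 : |(n : ℝ)| = ((-n : ℤ) : ℝ) := by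
          push_cast; exact abs_of_neg (by exact_mod_cast h)
        have e2 := hdio (-n) (-m) (by omega) (by rw [← e1]; exact hbig)
        have e3 : |((-n : ℤ) : ℝ) * α - ((-m : ℤ) : ℝ)| = |(n : ℝ) * α - m| := by
          rw [← abs_neg]; congr 1; push_cast; ring
        rw [e3, ← e1] at e2
        exact e2
      · have e1 : |(n : ℝ)| = (n : ℝ) := abs_of_pos (by exact_mod_cast h)
        have e2 := hdio n m h (by rw [← e1]; exact hbig)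
        rw [e1]
        exact e2
    have h2 : 1 ≤ 1 / E * |(n : ℝ)| * 128 ^ J := by
      refine h1.trans ?_
      gcongr
    have h3 : E = 128 ^ (t - 10 * J) * 128 ^ J := by
      rw [hE, ← pow_add]; congr 1; omega
    have h4 : 1 / E * |(n : ℝ)| * 128 ^ J = |(n : ℝ)| / 128 ^ (t - 10 * J) := by
      rw [h3]; field_simp
    rw [h4, le_div_iff₀ (by positivity), one_mul] at h2
    exact h2

end Pool.Agent.H587.FD
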