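import Mathlib
import Pool.Agent.H587.FD.Block

set_option autoImplicit false

open Finset MeasureTheory Filter

namespace Pool.Agent.H587.FD

/-- One block: a nonnegative trigonometric polynomial with small mean which is at least `1`
unless one of the inequalities of the block is satisfied. -/
theorem block (α : ℝ) (J K t : ℕ) (hJ : 5 ≤ J) (hdio : Dio2 α J K) (ht : 10 * J ≤ t)
    (htK : t + 7 * J ≤ K) (κ : ℝ) (hκ0 : 0 < κ) (hκ1 : κ ≤ 1) (hκJ : 5 / κ ≤ 128 ^ J)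
    (hE : 6144000 ≤ (J : ℝ) ^ 2 * κ) (γ : ℝ) :
    ∃ (X : ℝ → ℝ) (x₀ : ℝ), 0 ≤ x₀ ∧ x₀ ≤ 1 / 8 ∧
      Blk X x₀ (128 ^ (10 * J)) (128 ^ (t - 10 * J)) (128 ^ (t + 6 * J)) ∧ (∀ x, 0 ≤ X x) ∧
      (∀ β, X β < 1 → ∃ (z : ℤ × ℤ) (τ j : ℕ), t ≤ τ ∧ τ < t + J ∧ J ≤ j ∧ j < 2 * J ∧
        Cell2 α τ j z ∧ |z.1 * β - γ - round (z.1 * β - γ)| < κ / (4 * 128 ^ (2 * j))) := by
  classical
  have hcell : ∀ τ j : ℕ, (t ≤ τ ∧ τ < t + J ∧ J ≤ j ∧ j < 2 * J) → ∃ S : Finset (ℤ × ℤ),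
      (∀ z ∈ S, Cell2 α τ j z) ∧ (128 : ℝ) ^ (2 * j) / 512 ≤ S.card ∧ S.card ≤ 128 ^ (2 * j) := by
    rintro τ j ⟨h1, h2, h3, h4⟩
    exact exists_cell2 α J K τ j hdio hJ h3 (by omega) (by omega)
  choose! I hI using hcell
  set T : Finset (Σ _ : (Σ _ : ℕ, ℕ), ℤ × ℤ) :=
    ((Ico t (t + J)).sigma fun _ => Ico J (2 * J)).sigma fun p => I p.1 p.2 with hT
  have hmem : ∀ i ∈ T, t ≤ i.1.1 ∧ i.1.1 < t + J ∧ J ≤ i.1.2 ∧ i.1.2 < 2 * J ∧
      Cell2 α i.1.1 i.1.2 i.2 := by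
    intro i hi
    rw [hT, mem_sigma, mem_sigma, mem_Ico, mem_Ico] at hi
    obtain ⟨⟨⟨h1, h2⟩, h4, h5⟩, h6⟩ := hi
    exact ⟨h1, h2, h4, h5, (hI _ _ ⟨h1, h2, h4, h5⟩).1 _ h6⟩
  set M : (Σ _ : (Σ _ : ℕ, ℕ), ℤ × ℤ) → ℕ := fun i => ⌈4 * (128 : ℝ) ^ (2 * i.1.2) / κ⌉₊ with hM
  have hMb : ∀ i ∈ T, 3 ≤ M i ∧ (M i : ℝ) ≤ 5 * 128 ^ (2 * i.1.2) / κ ∧
      (M i : ℝ) ≤ 128 ^ (5 * J) ∧ 4 * (128 : ℝ) ^ (2 * i.1.2) / κ ≤ M i := by
    intro i hi
    obtain ⟨h1, h2, h3, h4, h5⟩ := hmem i hi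
    have hp : (1 : ℝ) ≤ 128 ^ (2 * i.1.2) := one_le_pow₀ (by norm_num)
    have h6 : (4 : ℝ) ≤ 4 * (128 : ℝ) ^ (2 * i.1.2) / κ := by
      rw [le_div_iff₀ hκ0]; nlinarith
    have h7 := Nat.le_ceil (4 * (128 : ℝ) ^ (2 * i.1.2) / κ)
    have h8 : (⌈4 * (128 : ℝ) ^ (2 * i.1.2) / κ⌉₊ : ℝ) ≤ 5 * 128 ^ (2 * i.1.2) / κ := by
      have := Nat.ceil_lt_add_one (show 0 ≤ 4 * (128 : ℝ) ^ (2 * i.1.2) / κ by positivity)
      have h6 : 1 ≤ (128 : ℝ) ^ (2 * i.1.2) / κ := by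
        rw [le_div_iff₀ hκ0]; nlinarith
      have h7 : 5 * (128 : ℝ) ^ (2 * i.1.2) / κ = 4 * (128 : ℝ) ^ (2 * i.1.2) / κ +
        (128 : ℝ) ^ (2 * i.1.2) / κ := by ring
      linarith
    refine ⟨?_, h8, ?_, h7⟩
    · have : ((3 : ℕ) : ℝ) ≤ (⌈4 * (128 : ℝ) ^ (2 * i.1.2) / κ⌉₊ : ℝ) := by
        push_cast; linarith
      exact Nat.cast_le.1 this
    · refine h8.trans ?_
      have h9 : (128 : ℝ) ^ (2 * i.1.2) ≤ 128 ^ (4 * J) := pow_le_pow_right₀ (by norm_num) (by omega)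
      calc 5 * (128 : ℝ) ^ (2 * i.1.2) / κ = 5 / κ * 128 ^ (2 * i.1.2) := by ring
        _ ≤ 128 ^ J * 128 ^ (4 * J) := by gcongr
        _ = 128 ^ (5 * J) := by rw [← pow_add]; congr 1; ring
  choose! a f hf using fun (i : (Σ _ : (Σ _ : ℕ, ℕ), ℤ × ℤ)) (hi : 3 ≤ M i) => minorant (M i) hi
  set Z : ℝ → ℝ := fun β => ∑ i ∈ T, f i (i.2.1 * β - γ) with hZ
  set E : ℝ := ∑ i ∈ T, a i 0 with hEdef
  -- lower bound for the mean
  have hElow : 1 / 10 * ∑ i ∈ T, 1 / (M i : ℝ) ≤ E := by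
    rw [hEdef, mul_sum]
    refine sum_le_sum fun i hi => ?_
    have := (hf i (hMb i hi).1).2.2.2.1
    calc 1 / 10 * (1 / (M i : ℝ)) = 1 / 10 / (M i : ℝ) := by ring
      _ ≤ a i 0 := this
  have hsumM : (J : ℝ) ^ 2 * κ / 2560 ≤ ∑ i ∈ T, 1 / (M i : ℝ) := by
    rw [hT, sum_sigma, sum_sigma]
    have h5 : ∀ τ ∈ Ico t (t + J), ∀ j ∈ Ico J (2 * J),
        κ / 2560 ≤ ∑ z ∈ I τ j, 1 / (M ⟨⟨τ, j⟩, z⟩ : ℝ) := by
      intro τ hτ j hj
      rw [mem_Ico] at hj hτ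
      have h6 := (hI τ j ⟨hτ.1, hτ.2, hj.1, hj.2⟩).2.1
      have h7 : ∀ z ∈ I τ j, κ / (5 * 128 ^ (2 * j)) ≤ 1 / (M ⟨⟨τ, j⟩, z⟩ : ℝ) := by
        intro z hz
        have hi : (⟨⟨τ, j⟩, z⟩ : Σ _ : (Σ _ : ℕ, ℕ), ℤ × ℤ) ∈ T := by
          rw [hT, mem_sigma, mem_sigma, mem_Ico, mem_Ico]
          exact ⟨⟨hτ, hj⟩, hz⟩
        obtain ⟨h8, h9, -, -⟩ := hMb _ hi
        simp only at h9
        have h10 : (0 : ℝ) < (M ⟨⟨τ, j⟩, z⟩ : ℝ) := by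
          have : 0 < M ⟨⟨τ, j⟩, z⟩ := by omega
          exact_mod_cast this
        rw [div_le_div_iff₀ (by positivity) h10]
        rw [le_div_iff₀ hκ0] at h9
        linarith
      calc κ / 2560 = (128 : ℝ) ^ (2 * j) / 512 * (κ / (5 * 128 ^ (2 * j))) := by
            field_simp; ring
        _ ≤ (I τ j).card * (κ / (5 * 128 ^ (2 * j))) := by gcongr
        _ = ∑ z ∈ I τ j, κ / (5 * 128 ^ (2 * j)) := by rw [sum_const, nsmul_eq_mul]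
        _ ≤ _ := sum_le_sum h7
    calc (J : ℝ) ^ 2 * κ / 2560 = ∑ τ ∈ Ico t (t + J), ∑ j ∈ Ico J (2 * J), κ / 2560 := by
          rw [sum_const, sum_const, nsmul_eq_mul, nsmul_eq_mul, Nat.card_Ico, Nat.card_Ico]
          have e1 : t + J - t = J := by omega
          have e2 : 2 * J - J = J := by omega
          rw [e1, e2]; ring
      _ ≤ _ := sum_le_sum fun τ hτ => sum_le_sum fun j hj => h5 τ hτ j hj
  have hE240 : 240 ≤ E := by
    have : (240 : ℝ) ≤ 1 / 10 * ((J : ℝ) ^ 2 * κ / 2560) := by linarith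
    have h2 : 1 / 10 * ((J : ℝ) ^ 2 * κ / 2560) ≤ 1 / 10 * ∑ i ∈ T, 1 / (M i : ℝ) := by gcongr
    linarith
  have hE0 : 0 < E := by linarith
  -- number of indices
  have hTcard : (T.card : ℝ) ≤ 128 ^ (5 * J) := by
    have h1 : T.card ≤ J * (J * 128 ^ (4 * J)) := by
      rw [hT, card_sigma, sum_sigma]
      calc ∑ τ ∈ Ico t (t + J), ∑ j ∈ Ico J (2 * J), (I τ j).card ≤
          ∑ τ ∈ Ico t (t + J), ∑ j ∈ Ico J (2 * J), 128 ^ (4 * J) := by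
            refine sum_le_sum fun τ hτ => sum_le_sum fun j hj => ?_
            rw [mem_Ico] at hτ hj
            exact (hI τ j ⟨hτ.1, hτ.2, hj.1, hj.2⟩).2.2.trans
              (Nat.pow_le_pow_right (by norm_num) (by omega))
        _ = J * (J * 128 ^ (4 * J)) := by
            rw [sum_const, sum_const, Nat.card_Ico, Nat.card_Ico, smul_eq_mul, smul_eq_mul]
            have e1 : t + J - t = J := by omega
            have e2 : 2 * J - J = J := by omega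
            rw [e1, e2]
    have h2 : J * (J * 128 ^ (4 * J)) ≤ 128 ^ (5 * J) := by
      have h3 : J < 2 ^ J := Nat.lt_two_pow_self
      calc J * (J * 128 ^ (4 * J)) ≤ 2 ^ J * (2 ^ J * 128 ^ (4 * J)) := by gcongr
        _ = (2 * 2) ^ J * 128 ^ (4 * J) := by rw [mul_pow]; ring
        _ ≤ 128 ^ J * 128 ^ (4 * J) := by gcongr; norm_num
        _ = 128 ^ (5 * J) := by rw [← pow_add]; congr 1; ring
    exact_mod_cast h1.trans h2
  -- Fourier expansion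
  set U : Finset (Σ _ : (Σ _ : (Σ _ : ℕ, ℕ), ℤ × ℤ), ℤ) :=
    T.sigma fun i => (Icc (-(M i : ℤ)) (M i)).erase 0 with hU
  set d : (Σ _ : (Σ _ : (Σ _ : ℕ, ℕ), ℤ × ℤ), ℤ) → ℂ := fun p =>
    (a p.1 p.2 : ℂ) * e (-(p.2 * γ)) with hd
  set m : (Σ _ : (Σ _ : (Σ _ : ℕ, ℕ), ℤ × ℤ), ℤ) → ℤ := fun p => p.2 * p.1.2.1 with hm
  have hexp : ∀ β : ℝ, ((Z β - E : ℝ) : ℂ) = ∑ p ∈ U, d p * e (m p * β) := by
    intro β
    rw [hU, sum_sigma, hZ, hEdef]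
    push_cast
    rw [← sum_sub_distrib]
    refine sum_congr rfl fun i hi => ?_
    have h3 := (hf i (hMb i hi).1).2.2.2.2.1 (i.2.1 * β - γ)
    rw [h3]
    have h0 : (0 : ℤ) ∈ Icc (-(M i : ℤ)) (M i) := by
      rw [mem_Icc]; omega
    rw [← add_sum_erase _ _ h0]
    simp only [Int.cast_zero, zero_mul, e_zero, mul_one, add_sub_cancel_left]
    refine sum_congr rfl fun h _ => ?_
    have h4 : e (h * (i.2.1 * β - γ)) = e (-(h * γ)) * e (h * i.2.1 * β) := by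
      rw [← e_add]; congr 1; ring
    rw [h4, hd, hm]
    push_cast
    ring
  have hdn : ∀ p ∈ U, ‖d p‖ = a p.1 p.2 := by
    intro p hp
    rw [hU, mem_sigma] at hp
    rw [hd]
    simp only
    rw [norm_mul, norm_e, mul_one, Complex.norm_real, Real.norm_eq_abs,
      abs_of_nonneg ((hf p.1 (hMb p.1 hp.1).1).1 p.2)]
  have hl2 : ∑ p ∈ U, ‖d p‖ ^ 2 ≤ 30 * E := by
    calc ∑ p ∈ U, ‖d p‖ ^ 2 = ∑ p ∈ U, a p.1 p.2 ^ 2 :=
          sum_congr rfl fun p hp => by rw [hdn p hp]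
      _ = ∑ i ∈ T, ∑ h ∈ (Icc (-(M i : ℤ)) (M i)).erase 0, a i h ^ 2 := by
          rw [hU, sum_sigma]
      _ ≤ ∑ i ∈ T, 3 / (M i : ℝ) := by
          refine sum_le_sum fun i hi => ?_
          obtain ⟨g1, g2, g3, -⟩ := hf i (hMb i hi).1
          calc ∑ h ∈ (Icc (-(M i : ℤ)) (M i)).erase 0, a i h ^ 2
              ≤ ∑ h ∈ (Icc (-(M i : ℤ)) (M i)), a i h ^ 2 :=
                sum_le_sum_of_subset_of_nonneg (erase_subset _ _) fun h _ _ => sq_nonneg _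
            _ ≤ ∑ h ∈ (Icc (-(M i : ℤ)) (M i)), 3 / (M i : ℝ) * a i h := by
                refine sum_le_sum fun h _ => ?_
                rw [sq]
                exact mul_le_mul_of_nonneg_right (g2 h) (g1 h)
            _ = 3 / (M i : ℝ) * ∑ h ∈ (Icc (-(M i : ℤ)) (M i)), a i h := by rw [mul_sum]
            _ ≤ 3 / (M i : ℝ) * 1 := by gcongr
            _ = 3 / (M i : ℝ) := mul_one _
      _ = 30 * (1 / 10 * ∑ i ∈ T, 1 / (M i : ℝ)) := by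
          rw [mul_sum, mul_sum]
          refine sum_congr rfl fun i _ => ?_
          ring
      _ ≤ 30 * E := by linarith
  have hl1 : ∑ p ∈ U, ‖d p‖ ≤ 128 ^ (5 * J) := by
    calc ∑ p ∈ U, ‖d p‖ = ∑ p ∈ U, a p.1 p.2 :=
          sum_congr rfl fun p hp => by rw [hdn p hp]
      _ = ∑ i ∈ T, ∑ h ∈ (Icc (-(M i : ℤ)) (M i)).erase 0, a i h := by
          rw [hU, sum_sigma]
      _ ≤ ∑ i ∈ T, 1 := by
          refine sum_le_sum fun i hi => ?_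
          obtain ⟨g1, g2, g3, -⟩ := hf i (hMb i hi).1
          exact (sum_le_sum_of_subset_of_nonneg (erase_subset _ _) fun h _ _ => g1 h).trans g3
      _ = T.card := by rw [sum_const, nsmul_eq_mul, mul_one]
      _ ≤ _ := hTcard
  have hl10 : 0 ≤ ∑ p ∈ U, ‖d p‖ := sum_nonneg fun _ _ => norm_nonneg _
  refine ⟨fun β => (Z β - E) ^ 2 / E ^ 2, (∑ p ∈ U, ‖d p‖ ^ 2) / E ^ 2, by positivity, ?_, ?_,
    fun x => by positivity, ?_⟩
  · rw [div_le_iff₀ (by positivity)]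
    nlinarith
  · refine ⟨(Σ _ : (Σ _ : (Σ _ : ℕ, ℕ), ℤ × ℤ), ℤ) × (Σ _ : (Σ _ : (Σ _ : ℕ, ℕ), ℤ × ℤ), ℤ),
      U.offDiag, fun pp => d pp.1 * (starRingEnd ℂ) (d pp.2) / (E ^ 2 : ℝ),
      fun pp => m pp.1 - m pp.2, ?_, ?_, ?_⟩
    · intro β
      have h1 : (((Z β - E) ^ 2 : ℝ) : ℂ) = ∑ pp ∈ U ×ˢ U, d pp.1 * (starRingEnd ℂ) (d pp.2) *
          e (((m pp.1 - m pp.2 : ℤ) : ℝ) * β) := by
        have h2 : (((Z β - E) ^ 2 : ℝ) : ℂ) = ((Z β - E : ℝ) : ℂ) * (starRingEnd ℂ) ((Z β - E : ℝ) : ℂ) := by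
          rw [Complex.conj_ofReal]; push_cast; ring
        rw [h2, hexp, map_sum, sum_mul_sum, ← sum_product']
        refine sum_congr rfl fun pp _ => ?_
        rw [map_mul, ← e_neg]
        have h3 : e (((m pp.1 - m pp.2 : ℤ) : ℝ) * β) = e (m pp.1 * β) * e (-(m pp.2 * β)) := by
          rw [← e_add]; congr 1; push_cast; ring
        rw [h3]; ring
      have h4 : (((Z β - E) ^ 2 / E ^ 2 : ℝ) : ℂ) = (((Z β - E) ^ 2 : ℝ) : ℂ) / ((E ^ 2 : ℝ) : ℂ) := by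
        push_cast; ring
      simp only
      rw [h4, h1, ← diag_union_offDiag, sum_union (disjoint_diag_offDiag U), sum_diag, add_div]
      congr 1
      · push_cast
        congr 1
        refine sum_congr rfl fun p _ => ?_
        rw [sub_self, zero_mul, e_zero, mul_one, Complex.mul_conj,
          Complex.normSq_eq_norm_sq]
        push_cast; ring
      · rw [sum_div]
        refine sum_congr rfl fun pp _ => ?_
        ring
    · have h1 : ∀ pp : (Σ _ : (Σ _ : (Σ _ : ℕ, ℕ), ℤ × ℤ), ℤ) × (Σ _ : (Σ _ : (Σ _ : ℕ, ℕ), ℤ × ℤ), ℤ),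
          ‖d pp.1 * (starRingEnd ℂ) (d pp.2) / ((E ^ 2 : ℝ) : ℂ)‖ = ‖d pp.1‖ * ‖d pp.2‖ / E ^ 2 := by
        intro pp
        rw [norm_div, norm_mul, RCLike.norm_conj, Complex.norm_real, Real.norm_eq_abs,
          abs_of_nonneg (by positivity)]
      simp_rw [h1]
      calc ∑ pp ∈ U.offDiag, ‖d pp.1‖ * ‖d pp.2‖ / E ^ 2 ≤
          ∑ pp ∈ U ×ˢ U, ‖d pp.1‖ * ‖d pp.2‖ / E ^ 2 := by
            refine sum_le_sum_of_subset_of_nonneg ?_ fun pp _ _ => by positivity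
            rw [← diag_union_offDiag]; exact subset_union_right
        _ = (∑ p ∈ U, ‖d p‖) ^ 2 / E ^ 2 := by
            have h2 : (∑ p ∈ U, ‖d p‖) ^ 2 = ∑ pp ∈ U ×ˢ U, ‖d pp.1‖ * ‖d pp.2‖ := by
              rw [sq, sum_mul_sum, ← sum_product']
            rw [h2, sum_div]
        _ ≤ (128 ^ (5 * J)) ^ 2 / 1 := by
            gcongr
            nlinarith
        _ = 128 ^ (10 * J) := by
            rw [div_one, ← pow_mul]; congr 1; ring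
    · rintro ⟨p, p'⟩ hpp
      rw [mem_offDiag] at hpp
      obtain ⟨hp, hp', hne⟩ := hpp
      simp only at hp hp' hne
      rw [hU, mem_sigma, mem_erase, mem_Icc] at hp hp'
      obtain ⟨a1, a2, a3, a4, a5⟩ := hmem _ hp.1
      obtain ⟨b1, b2, b3, b4, b5⟩ := hmem _ hp'.1
      obtain ⟨-, -, ha8, -⟩ := hMb _ hp.1
      obtain ⟨-, -, hb8, -⟩ := hMb _ hp'.1
      have hb1 : |(p.2 : ℝ)| ≤ 128 ^ (5 * J) := by
        refine le_trans ?_ ha8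
        have h1 : |p.2| ≤ (M p.1 : ℤ) := by rw [abs_le]; exact hp.2.2
        have : ((|p.2| : ℤ) : ℝ) ≤ ((M p.1 : ℤ) : ℝ) := by exact_mod_cast h1
        rw [Int.cast_abs] at this
        exact_mod_cast this
      have hb2 : |(p'.2 : ℝ)| ≤ 128 ^ (5 * J) := by
        refine le_trans ?_ hb8
        have h1 : |p'.2| ≤ (M p'.1 : ℤ) := by rw [abs_le]; exact hp'.2.2
        have : ((|p'.2| : ℤ) : ℝ) ≤ ((M p'.1 : ℤ) : ℝ) := by exact_mod_cast h1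
        rw [Int.cast_abs] at this
        exact_mod_cast this
      obtain ⟨h1, h2⟩ := sep2 α J K t (by omega) hdio ht htK p.1.1.1 p'.1.1.1 p.1.1.2 p'.1.1.2
        p.1.2 p'.1.2 p.2 p'.2 a1 b1 a2 b2 a4 b4 a5 b5 hp.2.1 hb1 hb2
      refine ⟨?_, h2⟩
      rcases h1 with h1 | h1
      · exfalso
        apply hne
        obtain ⟨⟨⟨x1, x2⟩, x3⟩, x4⟩ := p
        obtain ⟨⟨⟨y1, y2⟩, y3⟩, y4⟩ := p'
        simp only at h1 a5 b5
        obtain ⟨h3, h4⟩ := h1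
        subst h3 h4
        obtain ⟨h5, h6⟩ := cell2_unique α x1 y1 x2 y2 x3 a5 b5
        subst h5 h6
        rfl
      · exact h1
  · intro β hβ
    by_contra hno
    push Not at hno
    have h1 : Z β ≤ 0 := by
      rw [hZ]
      refine sum_nonpos fun i hi => ?_
      obtain ⟨g1, g2, g3, g4, g5, g6, g7⟩ := hf i (hMb i hi).1
      apply g7
      obtain ⟨a1, a2, a3, a4, a5⟩ := hmem i hi
      have h2 := hno i.2 i.1.1 i.1.2 a1 a2 a3 a4 a5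
      refine le_trans ?_ h2
      obtain ⟨h3, -, -, h4⟩ := hMb i hi
      have h10 : (0 : ℝ) < (M i : ℝ) := by
        have : 0 < M i := by omega
        exact_mod_cast this
      rw [div_le_div_iff₀ h10 (by positivity)]
      rw [div_le_iff₀ hκ0] at h4
      linarith
    rw [div_lt_one (by positivity)] at hβ
    nlinarith

end Pool.Agent.H587.FD
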