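import Mathlib
import Pool.Agent.H587.FD.Cells

set_option autoImplicit false

open Finset MeasureTheory Filter

namespace Pool.Agent.H587.FD

lemma M_bound (s j : ℕ) (hs : 1 ≤ s) (hj : j ≤ 2 * s) (τ : ℝ) (h1 : 1 / ((s : ℝ) + 1) ^ 3 ≤ τ)
    (h2 : τ ≤ 1) :
    3 ≤ ⌈4 * (128 : ℝ) ^ (2 * j) / τ⌉₊ ∧ (⌈4 * (128 : ℝ) ^ (2 * j) / τ⌉₊ : ℝ) ≤ 5 * 128 ^ (2 * j) / τ ∧
    (⌈4 * (128 : ℝ) ^ (2 * j) / τ⌉₊ : ℝ) ≤ 128 ^ (6 * s) ∧
    4 * (128 : ℝ) ^ (2 * j) / τ ≤ ⌈4 * (128 : ℝ) ^ (2 * j) / τ⌉₊ := by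
  have hτ : 0 < τ := lt_of_lt_of_le (by positivity) h1
  have hp : (1 : ℝ) ≤ 128 ^ (2 * j) := one_le_pow₀ (by norm_num)
  have h3 : (4 : ℝ) ≤ 4 * (128 : ℝ) ^ (2 * j) / τ := by
    rw [le_div_iff₀ hτ]; nlinarith
  have h4 := Nat.le_ceil (4 * (128 : ℝ) ^ (2 * j) / τ)
  have h5 : (⌈4 * (128 : ℝ) ^ (2 * j) / τ⌉₊ : ℝ) ≤ 5 * 128 ^ (2 * j) / τ := by
    have := Nat.ceil_lt_add_one (show 0 ≤ 4 * (128 : ℝ) ^ (2 * j) / τ by positivity)
    have h6 : 1 ≤ (128 : ℝ) ^ (2 * j) / τ := by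
      rw [le_div_iff₀ hτ]; nlinarith
    have h7 : 5 * (128 : ℝ) ^ (2 * j) / τ = 4 * (128 : ℝ) ^ (2 * j) / τ + (128 : ℝ) ^ (2 * j) / τ := by ring
    linarith
  refine ⟨?_, h5, ?_, h4⟩
  · have : (3 : ℝ) ≤ (⌈4 * (128 : ℝ) ^ (2 * j) / τ⌉₊ : ℝ) := by linarith
    exact_mod_cast this
  · refine h5.trans ?_
    have h6 : 1 / τ ≤ ((s : ℝ) + 1) ^ 3 := by
      rw [div_le_iff₀ hτ]
      rw [div_le_iff₀ (by positivity)] at h1
      linarith
    have h7 : ((s : ℝ) + 1) ≤ 2 ^ s := by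
      have : s + 1 ≤ 2 ^ s := Nat.lt_two_pow_self
      exact_mod_cast this
    have h8 : (128 : ℝ) ^ (2 * j) ≤ 128 ^ (4 * s) := pow_le_pow_right₀ (by norm_num) (by omega)
    calc 5 * (128 : ℝ) ^ (2 * j) / τ = 5 * (128 : ℝ) ^ (2 * j) * (1 / τ) := by ring
      _ ≤ 5 * 128 ^ (4 * s) * ((s : ℝ) + 1) ^ 3 := by gcongr
      _ ≤ 5 * 128 ^ (4 * s) * (2 ^ s) ^ 3 := by gcongr
      _ ≤ 128 ^ s * 128 ^ (4 * s) * 128 ^ s := by
        have e1 : (5 : ℝ) ≤ 128 ^ s := by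
          calc (5 : ℝ) ≤ 128 ^ 1 := by norm_num
            _ ≤ 128 ^ s := pow_le_pow_right₀ (by norm_num) hs
        have e2 : ((2 : ℝ) ^ s) ^ 3 ≤ 128 ^ s := by
          rw [← pow_mul, mul_comm, pow_mul]
          gcongr
          norm_num
        gcongr
      _ = 128 ^ (6 * s) := by rw [← pow_add, ← pow_add]; congr 1; ring

lemma sum_small (N : ℕ) : ∑ s ∈ range N, ((s : ℝ) + 1) / 128 ^ (2 * s) ≤ 2 := by
  have h1 : ∀ s : ℕ, ((s : ℝ) + 1) / 128 ^ (2 * s) ≤ (1 / 2) ^ s := by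
    intro s
    have h7 : ((s : ℝ) + 1) ≤ 2 ^ s := by
      have : s + 1 ≤ 2 ^ s := Nat.lt_two_pow_self
      exact_mod_cast this
    rw [one_div, inv_pow, ← one_div, div_le_div_iff₀ (by positivity) (by positivity), one_mul]
    calc ((s : ℝ) + 1) * 2 ^ s ≤ 2 ^ s * 2 ^ s := by gcongr
      _ = 4 ^ s := by rw [← mul_pow]; norm_num
      _ ≤ (128 ^ 2) ^ s := by gcongr; norm_num
      _ = 128 ^ (2 * s) := by rw [pow_mul]
  refine (sum_le_sum fun s _ => h1 s).trans ?_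
  exact sum_geometric_two_le N

theorem core (μ : Measure ℝ) [IsProbabilityMeasure μ] (C δ : ℝ) (hδ : 0 < δ)
    (hμ : ∀ n : ℤ, n ≠ 0 → ‖∫ x, e (n * x) ∂μ‖ ≤ C * |(n : ℝ)| ^ (-δ))
    (α : ℝ) (r : ℕ) (hr : 100 ≤ r) (hrδ : 12 ≤ δ * (r - 6 : ℕ)) (c : ℝ) (hc : 0 < c)
    (hdio : Dio α r c)
    (γ : ℤ → ℝ) (τ : ℕ → ℝ) (hτ : ∀ s, τ s = 0 ∨ (1 / ((s : ℝ) + 1) ^ 3 ≤ τ s ∧ τ s ≤ 1))
    (hdiv : Tendsto (fun N => ∑ s ∈ range N, ((s : ℝ) + 1) * τ s) atTop atTop) :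
    ∀ᵐ β ∂μ, ∀ K : ℕ, ∃ F : Finset ℤ, K ≤ F.card ∧ ∀ q ∈ F, 0 < q ∧
      ∃ s : ℕ, 0 < τ s ∧ (q : ℝ) ≤ 2 * 128 ^ (2 * r * s) ∧
        |q * α - round (q * α)| * |q * β - γ q - round (q * β - γ q)| <
          τ s / (2 * 128 ^ (2 * r * s)) := by
  classical
  -- a threshold
  obtain ⟨s₀, hs₀, hs₀'⟩ : ∃ s₀ : ℕ, 3 ≤ s₀ ∧ ∀ s, s₀ ≤ s → (20000 : ℝ) ^ 2 ≤ c * 128 ^ s := by
    have h1 : Tendsto (fun s : ℕ => c * (128 : ℝ) ^ s) atTop atTop :=
      (tendsto_pow_atTop_atTop_of_one_lt (by norm_num)).const_mul_atTop hc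
    obtain ⟨a, ha⟩ := (h1.eventually_ge_atTop ((20000 : ℝ) ^ 2)).exists_forall_of_atTop
    exact ⟨max 3 a, le_max_left _ _, fun s hs => ha s ((le_max_right _ _).trans hs)⟩
  have hcell : ∀ s j : ℕ, (s₀ ≤ s ∧ s ≤ j ∧ j ≤ 2 * s) → ∃ S : Finset (ℤ × ℤ),
      (∀ z ∈ S, Cell α r s j z) ∧ (128 : ℝ) ^ (2 * j) / 512 ≤ S.card ∧ S.card ≤ 128 ^ (2 * j) := by
    rintro s j ⟨h1, h2, h3⟩
    exact exists_cell α r (by omega) c hdio s j (by omega) (hs₀' s h1) h2 h3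
  choose! I hI using hcell
  set T : ℕ → Finset (Σ _ : (Σ _ : ℕ, ℕ), ℤ × ℤ) := fun N =>
    (((range N).filter fun s => s₀ ≤ s ∧ 0 < τ s).sigma fun s => Icc s (2 * s)).sigma
      fun p => I p.1 p.2 with hT
  have hmem : ∀ N, ∀ i ∈ T N, s₀ ≤ i.1.1 ∧ 0 < τ i.1.1 ∧ i.1.1 ≤ i.1.2 ∧ i.1.2 ≤ 2 * i.1.1 ∧
      Cell α r i.1.1 i.1.2 i.2 ∧ 1 / ((i.1.1 : ℝ) + 1) ^ 3 ≤ τ i.1.1 ∧ τ i.1.1 ≤ 1 := by
    intro N i hi
    rw [hT, mem_sigma, mem_sigma, mem_filter, mem_Icc] at hi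
    obtain ⟨⟨⟨h1, h2, h3⟩, h4, h5⟩, h6⟩ := hi
    have h7 : 1 / ((i.1.1 : ℝ) + 1) ^ 3 ≤ τ i.1.1 ∧ τ i.1.1 ≤ 1 := by
      rcases hτ i.1.1 with h | h
      · rw [h] at h3; exact absurd h3 (lt_irrefl _)
      · exact h
    exact ⟨h2, h3, h4, h5, (hI _ _ ⟨h2, h4, h5⟩).1 _ h6, h7.1, h7.2⟩
  set M : (Σ _ : (Σ _ : ℕ, ℕ), ℤ × ℤ) → ℕ := fun i => ⌈4 * (128 : ℝ) ^ (2 * i.1.2) / τ i.1.1⌉₊ with hM
  set w : (Σ _ : (Σ _ : ℕ, ℕ), ℤ × ℤ) → ℝ := fun i => 1 / 128 ^ (6 * i.1.1) with hw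
  set c₁ : ℝ := min (c / 4) 1 with hc₁
  have hc₁0 : 0 < c₁ := lt_min (by positivity) one_pos
  have hMb : ∀ N, ∀ i ∈ T N, 3 ≤ M i ∧ (M i : ℝ) ≤ 5 * 128 ^ (2 * i.1.2) / τ i.1.1 ∧
      (M i : ℝ) ≤ 128 ^ (6 * i.1.1) ∧ 4 * (128 : ℝ) ^ (2 * i.1.2) / τ i.1.1 ≤ M i := by
    intro N i hi
    obtain ⟨h1, h2, h3, h4, h5, h6, h7⟩ := hmem N i hi
    exact M_bound _ _ (by omega) h4 _ h6 h7
  have hBC := borel_cantelli μ T (fun i => i.2.1) M (fun i => γ i.2.1) w (|C| * c₁ ^ (-δ)) 2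
    (by positivity) (fun i => by simp only [hw]; positivity) (fun N i hi => (hMb N i hi).1)
    (by
      intro N i hi i' hi' h h' hh hh' hb hb' hne
      obtain ⟨a1, a2, a3, a4, a5, a6, a7⟩ := hmem N i hi
      obtain ⟨b1, b2, b3, b4, b5, b6, b7⟩ := hmem N i' hi'
      obtain ⟨-, -, ha8, -⟩ := hMb N i hi
      obtain ⟨-, -, hb8, -⟩ := hMb N i' hi'
      have hb1 : |(h : ℝ)| ≤ 128 ^ (6 * i.1.1) := by
        refine le_trans ?_ ha8
        have : ((|h| : ℤ) : ℝ) ≤ ((M i : ℤ) : ℝ) := by exact_mod_cast hb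
        rw [Int.cast_abs] at this
        exact_mod_cast this
      have hb2 : |(h' : ℝ)| ≤ 128 ^ (6 * i'.1.1) := by
        refine le_trans ?_ hb8
        have : ((|h'| : ℤ) : ℝ) ≤ ((M i' : ℤ) : ℝ) := by exact_mod_cast hb'
        rw [Int.cast_abs] at this
        exact_mod_cast this
      rcases sep α r hr c hdio i.1.1 i'.1.1 i.1.2 i'.1.2 i.2 i'.2 h h' (by omega) (by omega) a4 b4
        a5 b5 hh hh' hb1 hb2 with hs | hs
      · exfalso
        obtain ⟨h1, h2⟩ := hs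
        obtain ⟨h3, h4, h5⟩ := cell_unique α r hr i.1.1 i'.1.1 i.1.2 i'.1.2 i.2 i'.2 (by omega) a4 b4
          a5 b5 (by rw [h1])
        apply hne
        obtain ⟨⟨x1, x2⟩, x3⟩ := i
        obtain ⟨⟨y1, y2⟩, y3⟩ := i'
        simp only at h1 h3 h4
        subst h1 h2 h3 h4
        rfl
      · set n : ℤ := h * i.2.1 - h' * i'.2.1 with hn
        have hnpos : 0 < |(n : ℝ)| := lt_of_lt_of_le (by positivity) hs
        have hn0 : n ≠ 0 := by
          intro h0; rw [h0] at hnpos; simp at hnpos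
        have h1 := hμ n hn0
        have h2 : |(n : ℝ)| ^ (-δ) ≤ (c₁ * 128 ^ ((r - 6) * max i.1.1 i'.1.1)) ^ (-δ) :=
          Real.rpow_le_rpow_of_nonpos (by positivity) hs (by linarith)
        have h3 : (c₁ * 128 ^ ((r - 6) * max i.1.1 i'.1.1)) ^ (-δ) ≤
            c₁ ^ (-δ) * (w i * w i') := by
          rw [Real.mul_rpow hc₁0.le (by positivity)]
          gcongr
          rw [hw]
          simp only
          rw [← Real.rpow_natCast 128 ((r - 6) * max i.1.1 i'.1.1), ← Real.rpow_mul (by norm_num),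
            one_div_mul_one_div, ← pow_add, ← Real.rpow_natCast 128 (6 * i.1.1 + 6 * i'.1.1), one_div,
            ← Real.rpow_neg (by norm_num)]
          apply Real.rpow_le_rpow_of_exponent_le (by norm_num)
          have h4 : (i.1.1 : ℝ) ≤ (max i.1.1 i'.1.1 : ℕ) := by exact_mod_cast le_max_left _ _
          have h5 : (i'.1.1 : ℝ) ≤ (max i.1.1 i'.1.1 : ℕ) := by exact_mod_cast le_max_right _ _
          have h6 : (0 : ℝ) ≤ (max i.1.1 i'.1.1 : ℕ) := by positivity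
          set m : ℝ := ((max i.1.1 i'.1.1 : ℕ) : ℝ) with hm
          rw [Nat.cast_mul, ← hm]
          push_cast
          push_cast at hrδ
          nlinarith [mul_le_mul_of_nonneg_right hrδ h6]
        calc ‖∫ x, e (((h * i.2.1 - h' * i'.2.1 : ℤ) : ℝ) * x) ∂μ‖ ≤ C * |(n : ℝ)| ^ (-δ) := h1
          _ ≤ |C| * |(n : ℝ)| ^ (-δ) := by gcongr; exact le_abs_self C
          _ ≤ |C| * (c₁ ^ (-δ) * (w i * w i')) := by gcongr; exact h2.trans h3
          _ = |C| * c₁ ^ (-δ) * (w i * w i') := by ring)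
    (by
      intro N
      rw [hT]
      simp only
      rw [sum_sigma, sum_sigma]
      calc ∑ s ∈ (range N).filter (fun s => s₀ ≤ s ∧ 0 < τ s), ∑ j ∈ Icc s (2 * s),
            ∑ z ∈ I s j, w ⟨⟨s, j⟩, z⟩ ≤
          ∑ s ∈ (range N).filter (fun s => s₀ ≤ s ∧ 0 < τ s), ((s : ℝ) + 1) / 128 ^ (2 * s) := by
            refine sum_le_sum fun s hs => ?_
            rw [mem_filter] at hs
            calc ∑ j ∈ Icc s (2 * s), ∑ z ∈ I s j, w ⟨⟨s, j⟩, z⟩ ≤
                ∑ j ∈ Icc s (2 * s), (128 : ℝ) ^ (4 * s) / 128 ^ (6 * s) := by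
                  refine sum_le_sum fun j hj => ?_
                  rw [mem_Icc] at hj
                  have h1 := (hI s j ⟨hs.2.1, hj.1, hj.2⟩).2.2
                  rw [hw]
                  simp only
                  rw [sum_const, nsmul_eq_mul, mul_one_div]
                  gcongr
                  calc ((I s j).card : ℝ) ≤ ((128 ^ (2 * j) : ℕ) : ℝ) := by exact_mod_cast h1
                    _ = 128 ^ (2 * j) := by push_cast; ring
                    _ ≤ 128 ^ (4 * s) := pow_le_pow_right₀ (by norm_num) (by omega)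
              _ = ((s : ℝ) + 1) / 128 ^ (2 * s) := by
                rw [sum_const, nsmul_eq_mul, Nat.card_Icc]
                have : 2 * s + 1 - s = s + 1 := by omega
                rw [this, show 6 * s = 4 * s + 2 * s by ring, pow_add]
                push_cast
                field_simp
        _ ≤ ∑ s ∈ range N, ((s : ℝ) + 1) / 128 ^ (2 * s) :=
            sum_le_sum_of_subset_of_nonneg (filter_subset _ _) fun s _ _ => by positivity
        _ ≤ 2 := sum_small N)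
    (by
      have hτ0 : ∀ s, 0 ≤ τ s := by
        intro s
        rcases hτ s with h | h
        · rw [h]
        · exact le_trans (by positivity) h.1
      have hlow : ∀ N, 1 / 2560 * (∑ s ∈ range N, ((s : ℝ) + 1) * τ s -
          ∑ s ∈ range s₀, ((s : ℝ) + 1) * τ s) ≤ ∑ i ∈ T N, 1 / (M i : ℝ) := by
        intro N
        have h1 : ∑ s ∈ range N, ((s : ℝ) + 1) * τ s ≤
            ∑ s ∈ (range N).filter (fun s => s₀ ≤ s ∧ 0 < τ s), ((s : ℝ) + 1) * τ s +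
              ∑ s ∈ range s₀, ((s : ℝ) + 1) * τ s := by
          have h2 : ∑ s ∈ range N, ((s : ℝ) + 1) * τ s =
              ∑ s ∈ (range N).filter (fun s => 0 < τ s), ((s : ℝ) + 1) * τ s := by
            rw [sum_filter]
            refine sum_congr rfl fun s _ => ?_
            split_ifs with h
            · rfl
            · have : τ s = 0 := le_antisymm (not_lt.1 h) (hτ0 s)
              rw [this, mul_zero]
          rw [h2]
          have h3 : (range N).filter (fun s => 0 < τ s) ⊆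
              (range N).filter (fun s => s₀ ≤ s ∧ 0 < τ s) ∪ range s₀ := by
            intro s hs
            simp only [mem_union, mem_filter, mem_range] at hs ⊢
            by_cases h : s₀ ≤ s
            · exact Or.inl ⟨hs.1, h, hs.2⟩
            · right; omega
          have hnn : ∀ s : ℕ, 0 ≤ ((s : ℝ) + 1) * τ s := fun s => mul_nonneg (by positivity) (hτ0 s)
          have h4 := sum_le_sum_of_subset_of_nonneg h3 fun s _ _ => hnn s
          have h5 := sum_union_inter (s₁ := (range N).filter (fun s => s₀ ≤ s ∧ 0 < τ s))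
            (s₂ := range s₀) (f := fun s : ℕ => ((s : ℝ) + 1) * τ s)
          have h6 : 0 ≤ ∑ s ∈ (range N).filter (fun s => s₀ ≤ s ∧ 0 < τ s) ∩ range s₀,
            ((s : ℝ) + 1) * τ s := sum_nonneg fun s _ => hnn s
          linarith
        rw [hT]
        simp only
        rw [sum_sigma, sum_sigma]
        calc 1 / 2560 * (∑ s ∈ range N, ((s : ℝ) + 1) * τ s -
              ∑ s ∈ range s₀, ((s : ℝ) + 1) * τ s) ≤
            1 / 2560 * ∑ s ∈ (range N).filter (fun s => s₀ ≤ s ∧ 0 < τ s), ((s : ℝ) + 1) * τ s := by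
              gcongr; linarith
          _ ≤ ∑ s ∈ (range N).filter (fun s => s₀ ≤ s ∧ 0 < τ s), ∑ j ∈ Icc s (2 * s),
              ∑ z ∈ I s j, 1 / (M ⟨⟨s, j⟩, z⟩ : ℝ) := by
              rw [mul_sum]
              refine sum_le_sum fun s hs => ?_
              rw [mem_filter, mem_range] at hs
              have h5 : ∀ j ∈ Icc s (2 * s), τ s / 2560 ≤ ∑ z ∈ I s j, 1 / (M ⟨⟨s, j⟩, z⟩ : ℝ) := by
                intro j hj
                rw [mem_Icc] at hj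
                have h6 := (hI s j ⟨hs.2.1, hj.1, hj.2⟩).2.1
                have h7 : ∀ z ∈ I s j, τ s / (5 * 128 ^ (2 * j)) ≤ 1 / (M ⟨⟨s, j⟩, z⟩ : ℝ) := by
                  intro z hz
                  have hi : (⟨⟨s, j⟩, z⟩ : Σ _ : (Σ _ : ℕ, ℕ), ℤ × ℤ) ∈ T N := by
                    rw [hT, mem_sigma, mem_sigma, mem_filter, mem_Icc, mem_range]
                    exact ⟨⟨⟨hs.1, hs.2⟩, hj⟩, hz⟩
                  obtain ⟨h8, h9, -, -⟩ := hMb N _ hi
                  simp only at h9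
                  have h10 : (0 : ℝ) < (M ⟨⟨s, j⟩, z⟩ : ℝ) := by
                    have : 0 < M ⟨⟨s, j⟩, z⟩ := by omega
                    exact_mod_cast this
                  rw [div_le_div_iff₀ (by positivity) h10]
                  rw [le_div_iff₀ hs.2.2] at h9
                  linarith
                calc τ s / 2560 = (128 : ℝ) ^ (2 * j) / 512 * (τ s / (5 * 128 ^ (2 * j))) := by
                      field_simp; ring
                  _ ≤ (I s j).card * (τ s / (5 * 128 ^ (2 * j))) := by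
                      have := hτ0 s
                      gcongr
                  _ = ∑ z ∈ I s j, τ s / (5 * 128 ^ (2 * j)) := by rw [sum_const, nsmul_eq_mul]
                  _ ≤ _ := sum_le_sum h7
              calc 1 / 2560 * (((s : ℝ) + 1) * τ s) = ∑ j ∈ Icc s (2 * s), τ s / 2560 := by
                    rw [sum_const, nsmul_eq_mul, Nat.card_Icc]
                    have : 2 * s + 1 - s = s + 1 := by omega
                    rw [this]
                    push_cast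
                    ring
                _ ≤ _ := sum_le_sum h5
      refine tendsto_atTop_mono hlow ?_
      apply Tendsto.const_mul_atTop (by norm_num)
      exact tendsto_atTop_add_const_right _ _ hdiv)
  filter_upwards [hBC] with β hβ K
  obtain ⟨N, hN⟩ := hβ K
  refine ⟨((T N).filter fun i => |((i.2.1 : ℤ) * β - γ i.2.1) - round ((i.2.1 : ℤ) * β - γ i.2.1)| <
    1 / (M i : ℝ)).image fun i => i.2.1, ?_, ?_⟩
  · rw [card_image_of_injOn]
    · exact hN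
    · intro i hi i' hi' h
      rw [mem_coe, mem_filter] at hi hi'
      simp only at h
      obtain ⟨a1, a2, a3, a4, a5, a6, a7⟩ := hmem N i hi.1
      obtain ⟨b1, b2, b3, b4, b5, b6, b7⟩ := hmem N i' hi'.1
      obtain ⟨h3, h4, h5⟩ := cell_unique α r hr i.1.1 i'.1.1 i.1.2 i'.1.2 i.2 i'.2 (by omega) a4 b4
          a5 b5 h
      obtain ⟨⟨x1, x2⟩, x3⟩ := i
      obtain ⟨⟨y1, y2⟩, y3⟩ := i'
      simp only at h3 h4 h5
      subst h3 h4 h5
      rfl
  · intro q hq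
    rw [mem_image] at hq
    obtain ⟨i, hi, rfl⟩ := hq
    rw [mem_filter] at hi
    obtain ⟨a1, a2, a3, a4, a5, a6, a7⟩ := hmem N i hi.1
    obtain ⟨u1, u2, u3, u4, u5, u6⟩ := a5
    obtain ⟨m1, m2, m3, m4⟩ := hMb N i hi.1
    refine ⟨u2, i.1.1, a2, u4, ?_⟩
    have hM0 : (0 : ℝ) < (M i : ℝ) := by
      have : 0 < M i := by omega
      exact_mod_cast this
    have h1 : |(i.2.1 : ℝ) * α - round ((i.2.1 : ℝ) * α)| ≤ 2 * 128 ^ (2 * i.1.2) / 128 ^ (2 * r * i.1.1) :=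
      (round_le _ _).trans u6
    calc |(i.2.1 : ℝ) * α - round ((i.2.1 : ℝ) * α)| *
          |i.2.1 * β - γ i.2.1 - round (i.2.1 * β - γ i.2.1)| ≤
        2 * 128 ^ (2 * i.1.2) / 128 ^ (2 * r * i.1.1) *
          |i.2.1 * β - γ i.2.1 - round (i.2.1 * β - γ i.2.1)| := by gcongr
      _ < 2 * 128 ^ (2 * i.1.2) / 128 ^ (2 * r * i.1.1) * (1 / (M i : ℝ)) := by
        have := hi.2
        gcongr
      _ ≤ 2 * 128 ^ (2 * i.1.2) / 128 ^ (2 * r * i.1.1) * (τ i.1.1 / (4 * 128 ^ (2 * i.1.2))) := by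
        apply mul_le_mul_of_nonneg_left _ (by positivity)
        rw [div_le_div_iff₀ hM0 (by positivity)]
        rw [div_le_iff₀ a2] at m4
        linarith
      _ = τ i.1.1 / (2 * 128 ^ (2 * r * i.1.1)) := by
        field_simp; norm_num

end Pool.Agent.H587.FD
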