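import Mathlib
import Pool.Agent.H587.FD.Core

set_option autoImplicit false

open Finset MeasureTheory Filter

namespace Pool.Agent.H587.FD

/-- distance to the nearest integer -/
noncomputable def dist1 (x : ℝ) : ℝ := |x - round x|

lemma dist1_nonneg (x : ℝ) : 0 ≤ dist1 x := abs_nonneg _

lemma dist1_le (x : ℝ) : dist1 x ≤ 1 / 2 := abs_sub_round x

lemma dist1_le_abs (x : ℝ) (p : ℤ) : dist1 x ≤ |x - p| := round_le x p

/-- Diophantine condition from asymptotic lower bounds -/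
lemma dio_of (α : ℝ) (h : ∀ ε : ℝ, 0 < ε → ∃ c : ℝ, 0 < c ∧ ∃ Q : ℕ, ∀ q : ℕ, Q ≤ q → 1 ≤ q →
      c * (q : ℝ) ^ (-1 - ε) ≤ dist1 (q * α))
    (hirr : ∀ q : ℕ, 1 ≤ q → 0 < dist1 (q * α)) (r : ℕ) (hr : 1 ≤ r) : ∃ c : ℝ, 0 < c ∧ Dio α r c := by
  classical
  have hr0 : (0 : ℝ) < 2 * r := by
    have : (1 : ℝ) ≤ r := by exact_mod_cast hr
    linarith
  obtain ⟨c, hc, Q, hQ⟩ := h (1 / (2 * r)) (by positivity)
  -- minimum on the finite range
  obtain ⟨c', hc', hc'Q⟩ : ∃ c' : ℝ, 0 < c' ∧ ∀ q : ℕ, 1 ≤ q → q < Q → c' ≤ dist1 (q * α) := by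
    by_cases hne : ((Finset.range Q).filter fun q => 1 ≤ q).Nonempty
    · obtain ⟨q0, hq0, hmin⟩ := Finset.exists_min_image _ (fun q : ℕ => dist1 (q * α)) hne
      rw [mem_filter] at hq0
      refine ⟨dist1 (q0 * α), hirr q0 hq0.2, fun q h1 h2 => hmin q ?_⟩
      rw [mem_filter, mem_range]; exact ⟨h2, h1⟩
    · refine ⟨1, one_pos, fun q h1 h2 => ?_⟩
      exact absurd ⟨q, by rw [mem_filter, mem_range]; exact ⟨h2, h1⟩⟩ hne
  refine ⟨min c c', lt_min hc hc', ?_⟩
  intro s q p hq hqs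
  obtain ⟨n, rfl⟩ : ∃ n : ℕ, q = n := ⟨q.toNat, by omega⟩
  have hn : 1 ≤ n := by omega
  have hn' : (1 : ℝ) ≤ n := by exact_mod_cast hn
  have hd := dist1_le_abs ((n : ℝ) * α) p
  push_cast
  push_cast at hqs
  have h128 : (1 : ℝ) ≤ 128 ^ s := one_le_pow₀ (by norm_num)
  by_cases hnQ : Q ≤ n
  · have h1 := hQ n hnQ hn
    have h2 : (n : ℝ) ^ (-1 - 1 / (2 * r : ℝ)) * n * 128 ^ s ≥ 1 := by
      have e1 : (n : ℝ) ^ (-1 - 1 / (2 * r : ℝ)) * n = ((n : ℝ) ^ (1 / (2 * r : ℝ)))⁻¹ := by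
        rw [show (-1 - 1 / (2 * r : ℝ)) = -(1 / (2 * r : ℝ)) + -1 by ring,
          Real.rpow_add (by linarith), Real.rpow_neg_one, Real.rpow_neg (by linarith)]
        field_simp
      rw [e1]
      have e2 : (n : ℝ) ^ (1 / (2 * r : ℝ)) ≤ 128 ^ s := by
        calc (n : ℝ) ^ (1 / (2 * r : ℝ)) ≤ ((128 : ℝ) ^ (2 * r * s)) ^ (1 / (2 * r : ℝ)) := by
              gcongr
          _ = 128 ^ s := by
            rw [← Real.rpow_natCast, ← Real.rpow_mul (by norm_num), ← Real.rpow_natCast 128 s]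
            congr 1
            push_cast
            field_simp
      have e3 : 0 < (n : ℝ) ^ (1 / (2 * r : ℝ)) := by positivity
      rw [ge_iff_le, inv_mul_eq_div, le_div_iff₀ e3]
      linarith
    calc min c c' ≤ c * 1 := by rw [mul_one]; exact min_le_left _ _
      _ ≤ c * ((n : ℝ) ^ (-1 - 1 / (2 * r : ℝ)) * n * 128 ^ s) := by gcongr
      _ = (c * (n : ℝ) ^ (-1 - 1 / (2 * r : ℝ))) * n * 128 ^ s := by ring
      _ ≤ |(n : ℝ) * α - p| * n * 128 ^ s := by
        gcongr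
        exact h1.trans hd
  · push Not at hnQ
    calc min c c' ≤ c' * 1 * 1 := by rw [mul_one, mul_one]; exact min_le_right _ _
      _ ≤ |(n : ℝ) * α - p| * n * 128 ^ s := by
        gcongr
        exact (hc'Q n hn hnQ).trans hd

/-- choice of the parameter `r` -/
lemma exists_r (δ : ℝ) (hδ : 0 < δ) : ∃ r : ℕ, 100 ≤ r ∧ 12 ≤ δ * (r - 6 : ℕ) := by
  obtain ⟨k, hk⟩ := exists_nat_ge (12 / δ)
  refine ⟨k + 106, by omega, ?_⟩
  have : k + 106 - 6 = k + 100 := by omega
  rw [this]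
  rw [div_le_iff₀ hδ] at hk
  push_cast
  nlinarith

/-- core statement with natural denominators and `dist1` -/
lemma core' (μ : Measure ℝ) [IsProbabilityMeasure μ] (C δ : ℝ) (hδ : 0 < δ)
    (hμ : ∀ n : ℤ, n ≠ 0 → ‖∫ x, e (n * x) ∂μ‖ ≤ C * |(n : ℝ)| ^ (-δ))
    (α : ℝ) (r : ℕ) (hr : 100 ≤ r) (hrδ : 12 ≤ δ * (r - 6 : ℕ)) (c : ℝ) (hc : 0 < c)
    (hdio : Dio α r c)
    (γ : ℕ → ℝ) (τ : ℕ → ℝ) (hτ : ∀ s, τ s = 0 ∨ (1 / ((s : ℝ) + 1) ^ 3 ≤ τ s ∧ τ s ≤ 1))
    (hdiv : Tendsto (fun N => ∑ s ∈ range N, ((s : ℝ) + 1) * τ s) atTop atTop) :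
    ∀ᵐ β ∂μ, {q : ℕ | 1 ≤ q ∧ ∃ s : ℕ, 0 < τ s ∧ q ≤ 2 * 128 ^ (2 * r * s) ∧
        dist1 (q * α) * dist1 (q * β - γ q) < τ s / (2 * 128 ^ (2 * r * s))}.Infinite := by
  filter_upwards [core μ C δ hδ hμ α r hr hrδ c hc hdio (fun q => γ q.toNat) τ hτ hdiv] with β hβ
  intro hfin
  obtain ⟨F, hF, hFq⟩ := hβ (hfin.toFinset.card + 1)
  have h1 : F.image Int.toNat ⊆ hfin.toFinset := by
    intro n hn
    rw [mem_image] at hn
    obtain ⟨q, hq, rfl⟩ := hn
    obtain ⟨h2, s, h3, h4, h5⟩ := hFq q hq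
    rw [Set.Finite.mem_toFinset, Set.mem_ofPred_eq]
    have h6 : ((q.toNat : ℕ) : ℝ) = (q : ℝ) := by
      have : ((q.toNat : ℕ) : ℤ) = q := Int.toNat_of_nonneg h2.le
      exact_mod_cast this
    refine ⟨by omega, s, h3, ?_, ?_⟩
    · have h7 : ((q.toNat : ℕ) : ℝ) ≤ 2 * 128 ^ (2 * r * s) := by rw [h6]; exact h4
      exact_mod_cast h7
    · rw [h6]; exact h5
  have h2 : (F.image Int.toNat).card = F.card := by
    apply card_image_of_injOn
    intro a ha b hb hab
    rw [mem_coe] at ha hb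
    have := (hFq a ha).1
    have := (hFq b hb).1
    omega
  have h3 := card_le_card h1
  omega

/-- Part (1): the rate `1 / (q (log q)^2)`. -/
theorem part_one (μ : Measure ℝ) [IsProbabilityMeasure μ] (C δ : ℝ) (hδ : 0 < δ)
    (hμ : ∀ n : ℤ, n ≠ 0 → ‖∫ x, e (n * x) ∂μ‖ ≤ C * |(n : ℝ)| ^ (-δ))
    (α : ℝ) (γ : ℕ → ℝ) :
    ∀ᵐ β ∂μ, ∀ κ : ℝ, 0 < κ → ∀ N : ℕ, ∃ q : ℕ, N ≤ q ∧ 1 ≤ q ∧
      q * Real.log q ^ 2 * (dist1 (q * α) * dist1 (q * β - γ q)) < κ := by
  -- the trivial case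
  by_cases htriv : ∀ κ : ℝ, 0 < κ → ∀ N : ℕ, ∃ q : ℕ, N ≤ q ∧ 1 ≤ q ∧ q * Real.log q ^ 2 * dist1 (q * α) < κ
  · refine Eventually.of_forall fun β κ hκ N => ?_
    obtain ⟨q, h1, h2, h3⟩ := htriv κ hκ N
    refine ⟨q, h1, h2, lt_of_le_of_lt ?_ h3⟩
    have h4 : dist1 (q * β - γ q) ≤ 1 := (dist1_le _).trans (by norm_num)
    have h5 := dist1_nonneg (q * α)
    have h6 : dist1 (q * α) * dist1 (q * β - γ q) ≤ dist1 (q * α) * 1 := by gcongr
    calc q * Real.log q ^ 2 * (dist1 (q * α) * dist1 (q * β - γ q)) ≤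
        q * Real.log q ^ 2 * (dist1 (q * α) * 1) := by gcongr
      _ = _ := by ring
  push Not at htriv
  obtain ⟨κ₀, hκ₀, N₀, hN₀⟩ := htriv
  -- α is irrational, in a strong sense
  have hirr : ∀ q : ℕ, 1 ≤ q → 0 < dist1 (q * α) := by
    intro q hq
    by_contra h0
    have h1 : dist1 (q * α) = 0 := le_antisymm (not_lt.1 h0) (dist1_nonneg _)
    have h2 : (q : ℝ) * α = round (q * α) := by
      unfold dist1 at h1
      linarith [abs_eq_zero.1 h1]
    set k := N₀ + 1 with hk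
    have h3 := hN₀ (k * q) (by rw [hk]; nlinarith) (by rw [hk]; nlinarith)
    have h4 : dist1 (((k * q : ℕ) : ℝ) * α) = 0 := by
      have h5 := dist1_le_abs (((k * q : ℕ) : ℝ) * α) (k * round ((q : ℝ) * α))
      have h6 : ((k * q : ℕ) : ℝ) * α - ((k * round ((q : ℝ) * α) : ℤ) : ℝ) = 0 := by
        push_cast
        rw [← h2]; ring
      rw [h6, abs_zero] at h5
      exact le_antisymm h5 (dist1_nonneg _)
    rw [h4, mul_zero] at h3
    linarith
  have hlow : ∀ ε : ℝ, 0 < ε → ∃ c : ℝ, 0 < c ∧ ∃ Q : ℕ, ∀ q : ℕ, Q ≤ q → 1 ≤ q →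
      c * (q : ℝ) ^ (-1 - ε) ≤ dist1 (q * α) := by
    intro ε hε
    refine ⟨κ₀ * (ε / 2) ^ 2, by positivity, max N₀ 2, ?_⟩
    intro q hq hq1
    have h1 := hN₀ q ((le_max_left _ _).trans hq) hq1
    have hq0 : (0 : ℝ) < q := by exact_mod_cast hq1
    have h2 : Real.log q ≤ (q : ℝ) ^ (ε / 2) / (ε / 2) := Real.log_le_rpow_div hq0.le (by positivity)
    have hlog : 0 ≤ Real.log q := Real.log_nonneg (by exact_mod_cast hq1)
    have h3 : Real.log q ^ 2 ≤ (q : ℝ) ^ ε / (ε / 2) ^ 2 := by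
      calc Real.log q ^ 2 ≤ ((q : ℝ) ^ (ε / 2) / (ε / 2)) ^ 2 := by gcongr
        _ = (q : ℝ) ^ ε / (ε / 2) ^ 2 := by
          rw [div_pow, ← Real.rpow_natCast ((q : ℝ) ^ (ε / 2)) 2, ← Real.rpow_mul hq0.le]
          congr 2
          push_cast; ring
    have h4 : (q : ℝ) ^ (-1 - ε) = ((q : ℝ) * (q : ℝ) ^ ε)⁻¹ := by
      rw [show (-1 - ε) = -(1 + ε) by ring, Real.rpow_neg hq0.le, Real.rpow_add hq0, Real.rpow_one]
    have hqe : 0 < (q : ℝ) ^ ε := by positivity
    rw [h4, ← div_eq_mul_inv, div_le_iff₀ (by positivity)]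
    have hd := dist1_nonneg (q * α)
    calc κ₀ * (ε / 2) ^ 2 ≤ (q * Real.log q ^ 2 * dist1 (q * α)) * (ε / 2) ^ 2 := by gcongr
      _ ≤ (q * ((q : ℝ) ^ ε / (ε / 2) ^ 2) * dist1 (q * α)) * (ε / 2) ^ 2 := by gcongr
      _ = dist1 (q * α) * (q * (q : ℝ) ^ ε) := by field_simp
  obtain ⟨r, hr, hrδ⟩ := exists_r δ hδ
  obtain ⟨c, hc, hdio⟩ := dio_of α hlow hirr r (by omega)
  -- for each κ' the divergence statement
  have hκ : ∀ m : ℕ, ∀ᵐ β ∂μ, {q : ℕ | 1 ≤ q ∧
      q * Real.log q ^ 2 * (dist1 (q * α) * dist1 (q * β - γ q)) < 1 / ((m : ℝ) + 1)}.Infinite := by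
    intro m
    set L : ℝ := Real.log 2 + 2 * r * Real.log 128 with hL
    have hlog2 : 0 < Real.log 2 := Real.log_pos (by norm_num)
    have hlog128 : 0 < Real.log 128 := Real.log_pos (by norm_num)
    have hL0 : 0 < L := by positivity
    set κ : ℝ := 1 / ((m : ℝ) + 1) / (L ^ 2 + 1) with hκdef
    have hκ0 : 0 < κ := by positivity
    have hκ1 : κ ≤ 1 := by
      rw [hκdef, div_div, div_le_one (by positivity)]
      have : (0 : ℝ) ≤ m := by positivity
      nlinarith [sq_nonneg L]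
    set τ : ℕ → ℝ := fun s => if 1 ≤ κ * ((s : ℝ) + 1) then κ / ((s : ℝ) + 1) ^ 2 else 0 with hτ
    have hτnn : ∀ s, 0 ≤ τ s := by
      intro s; simp only [hτ]; split_ifs <;> positivity
    have hτle : ∀ s, τ s ≤ κ / ((s : ℝ) + 1) ^ 2 := by
      intro s; simp only [hτ]; split_ifs
      · exact le_rfl
      · positivity
    have h := core' μ C δ hδ hμ α r hr hrδ c hc hdio γ τ (by
      intro s
      by_cases h1 : 1 ≤ κ * ((s : ℝ) + 1)
      · right
        simp only [hτ, h1, if_true]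
        constructor
        · rw [div_le_div_iff₀ (by positivity) (by positivity)]
          calc 1 * ((s : ℝ) + 1) ^ 2 ≤ (κ * ((s : ℝ) + 1)) * ((s : ℝ) + 1) ^ 2 := by gcongr
            _ = κ * ((s : ℝ) + 1) ^ 3 := by ring
        · rw [div_le_one (by positivity)]
          have : (0 : ℝ) ≤ s := by positivity
          nlinarith
      · left
        simp only [hτ, h1, if_false]) (by
      have hns : ¬ Summable (fun s : ℕ => ((s : ℝ) + 1) * τ s) := by
        intro hsum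
        have h2 : Summable (fun s : ℕ => 1 / ((s : ℝ) + 1)) := by
          have h3 : ∀ᶠ s : ℕ in atTop, ((s : ℝ) + 1) * τ s = κ * (1 / ((s : ℝ) + 1)) := by
            have h4 : Tendsto (fun s : ℕ => κ * ((s : ℝ) + 1)) atTop atTop :=
              (tendsto_atTop_add_const_right _ _ tendsto_natCast_atTop_atTop).const_mul_atTop hκ0
            filter_upwards [h4.eventually_ge_atTop 1] with s hs
            simp only [hτ, hs, if_true]
            field_simp
          have h5 : Summable (fun s : ℕ => κ * (1 / ((s : ℝ) + 1))) := by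
            rw [← summable_congr_atTop h3]
            exact hsum
          exact (summable_mul_left_iff hκ0.ne').1 h5
        have h6 : ¬ Summable (fun s : ℕ => 1 / ((s + 1 : ℕ) : ℝ)) := by
          rw [summable_nat_add_iff 1 (f := fun s : ℕ => 1 / (s : ℝ))]
          exact Real.not_summable_one_div_natCast
        apply h6
        simpa using h2
      exact (not_summable_iff_tendsto_nat_atTop_of_nonneg
        (fun s => mul_nonneg (by positivity) (hτnn s))).1 hns)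
    filter_upwards [h] with β hβ
    refine hβ.mono ?_
    rintro q ⟨hq1, s, h1, h2, h3⟩
    refine ⟨hq1, ?_⟩
    have hq0 : (0 : ℝ) < q := by exact_mod_cast hq1
    have h2' : (q : ℝ) ≤ 2 * 128 ^ (2 * r * s) := by exact_mod_cast h2
    have hlogq : Real.log q ≤ ((s : ℝ) + 1) * L := by
      calc Real.log q ≤ Real.log (2 * 128 ^ (2 * r * s)) := Real.log_le_log hq0 h2'
        _ = Real.log 2 + (2 * r * s : ℕ) * Real.log 128 := by
          rw [Real.log_mul (by norm_num) (by positivity), Real.log_pow]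
        _ ≤ ((s : ℝ) + 1) * L := by
          rw [hL]; push_cast
          have : (0 : ℝ) ≤ s := by positivity
          have h4 : 0 ≤ (s : ℝ) * Real.log 2 := by positivity
          have h5 : 0 ≤ 2 * (r : ℝ) * Real.log 128 := by positivity
          nlinarith
    have hlog0 : 0 ≤ Real.log q := Real.log_nonneg (by exact_mod_cast hq1)
    have hd : 0 ≤ dist1 (q * α) * dist1 (q * β - γ q) := mul_nonneg (dist1_nonneg _) (dist1_nonneg _)
    calc q * Real.log q ^ 2 * (dist1 (q * α) * dist1 (q * β - γ q)) ≤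
        2 * 128 ^ (2 * r * s) * (((s : ℝ) + 1) * L) ^ 2 * (dist1 (q * α) * dist1 (q * β - γ q)) := by
          gcongr
      _ ≤ 2 * 128 ^ (2 * r * s) * (((s : ℝ) + 1) * L) ^ 2 * (τ s / (2 * 128 ^ (2 * r * s))) := by
          gcongr
      _ ≤ 2 * 128 ^ (2 * r * s) * (((s : ℝ) + 1) * L) ^ 2 *
          (κ / ((s : ℝ) + 1) ^ 2 / (2 * 128 ^ (2 * r * s))) := by
          gcongr; exact hτle s
      _ = κ * L ^ 2 := by field_simp
      _ < κ * (L ^ 2 + 1) := by linarith
      _ = 1 / ((m : ℝ) + 1) := by rw [hκdef]; field_simp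
  rw [← ae_all_iff] at hκ
  filter_upwards [hκ] with β hβ κ hκpos N
  obtain ⟨m, hm⟩ := exists_nat_one_div_lt hκpos
  obtain ⟨q, hq, hNq⟩ := (hβ m).exists_gt N
  exact ⟨q, hNq.le, hq.1, hq.2.trans hm⟩

/-- a condensation estimate -/
lemma condense (ψ : ℕ → ℝ) (hψ : ∀ q, 0 < ψ q) (hmono : Antitone ψ) (G : ℕ) (hG : 2 ≤ G) (n : ℕ) :
    ∑ q ∈ range (2 * G ^ n), ψ q * Real.log q ≤
      2 * G * (Real.log 2 + Real.log G) * ∑ s ∈ range n, ((s : ℝ) + 1) * (G ^ s * ψ (2 * G ^ s)) := by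
  have hG1 : (1 : ℝ) ≤ G := by
    have : 1 ≤ G := by omega
    exact_mod_cast this
  have hlogG : 0 ≤ Real.log G := Real.log_nonneg hG1
  have hlog2 : 0 < Real.log 2 := Real.log_pos (by norm_num)
  induction n with
  | zero =>
    simp [sum_range_succ]
  | succ n ih =>
    have h0 : 2 * G ^ n ≤ 2 * G ^ (n + 1) := by
      have : G ^ n ≤ G ^ (n + 1) := Nat.pow_le_pow_right (by omega) (by omega)
      omega
    rw [← sum_range_add_sum_Ico _ h0, sum_range_succ, mul_add]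
    have h1 : ∑ q ∈ Ico (2 * G ^ n) (2 * G ^ (n + 1)), ψ q * Real.log q ≤
        2 * G * (Real.log 2 + Real.log G) * (((n : ℝ) + 1) * (G ^ n * ψ (2 * G ^ n))) := by
      calc ∑ q ∈ Ico (2 * G ^ n) (2 * G ^ (n + 1)), ψ q * Real.log q ≤
          ∑ q ∈ Ico (2 * G ^ n) (2 * G ^ (n + 1)), ψ (2 * G ^ n) * Real.log (2 * G ^ (n + 1)) := by
            refine sum_le_sum fun q hq => ?_
            rw [mem_Ico] at hq
            have hq0 : (0 : ℝ) < q := by
              have : 0 < q := lt_of_lt_of_le (by positivity) hq.1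
              exact_mod_cast this
            have hq1 : (1 : ℝ) ≤ q := by
              have : 0 < q := by exact_mod_cast hq0
              exact_mod_cast this
            have h2 : (q : ℝ) ≤ 2 * G ^ (n + 1) := by exact_mod_cast hq.2.le
            have h3 : Real.log q ≤ Real.log (2 * G ^ (n + 1)) := Real.log_le_log hq0 h2
            have h4 : 0 ≤ Real.log q := Real.log_nonneg hq1
            have h5 := (hψ (2 * G ^ n)).le
            gcongr
            exact hmono hq.1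
        _ = ((2 * G ^ (n + 1) - 2 * G ^ n : ℕ) : ℝ) * (ψ (2 * G ^ n) * Real.log (2 * G ^ (n + 1))) := by
            rw [sum_const, Nat.card_Ico, nsmul_eq_mul]
        _ ≤ (2 * G ^ (n + 1) : ℝ) * (ψ (2 * G ^ n) * (((n : ℝ) + 1) * (Real.log 2 + Real.log G))) := by
            have h6 : ((2 * G ^ (n + 1) - 2 * G ^ n : ℕ) : ℝ) ≤ 2 * G ^ (n + 1) := by
              have : 2 * G ^ (n + 1) - 2 * G ^ n ≤ 2 * G ^ (n + 1) := Nat.sub_le _ _
              exact_mod_cast this
            have h7 : Real.log (2 * G ^ (n + 1)) ≤ ((n : ℝ) + 1) * (Real.log 2 + Real.log G) := by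
              rw [Real.log_mul (by norm_num) (by positivity), Real.log_pow]
              push_cast
              have : (0 : ℝ) ≤ n := by positivity
              nlinarith [mul_nonneg this hlog2.le]
            have h8 : 0 ≤ Real.log (2 * G ^ (n + 1)) := by
              apply Real.log_nonneg
              have : (1 : ℝ) ≤ (G : ℝ) ^ (n + 1) := one_le_pow₀ hG1
              linarith
            have h9 := (hψ (2 * G ^ n)).le
            gcongr
        _ = _ := by rw [pow_succ]; ring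
    linarith

/-- Part (2): the divergence half of Gallagher's theorem on the fibre. -/
theorem part_two (μ : Measure ℝ) [IsProbabilityMeasure μ] (C δ : ℝ) (hδ : 0 < δ)
    (hμ : ∀ n : ℤ, n ≠ 0 → ‖∫ x, e (n * x) ∂μ‖ ≤ C * |(n : ℝ)| ^ (-δ))
    (α : ℝ) (γ : ℕ → ℝ) (ψ : ℕ → ℝ) (hψ : ∀ q, 0 < ψ q) (hmono : Antitone ψ)
    (hdiv : ¬ Summable fun q : ℕ => ψ q * Real.log q)
    (hmax : ∀ ε : ℝ, 0 < ε → ∃ c : ℝ, 0 < c ∧ ∀ q : ℕ, 1 ≤ q → c * (q : ℝ) ^ (-1 - ε) ≤ max (dist1 (q * α)) (ψ q)) :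
    ∀ᵐ β ∂μ, {q : ℕ | dist1 (q * α) * dist1 (q * β - γ q) < ψ q}.Infinite := by
  by_cases htriv : {q : ℕ | dist1 (q * α) < ψ q}.Infinite
  · refine Eventually.of_forall fun β => htriv.mono ?_
    intro q hq
    rw [Set.mem_ofPred_eq] at hq ⊢
    have h4 : dist1 (q * β - γ q) ≤ 1 := (dist1_le _).trans (by norm_num)
    nlinarith [dist1_nonneg (q * α)]
  rw [Set.not_infinite] at htriv
  obtain ⟨Q, hQ⟩ := htriv.bddAbove
  have hQ' : ∀ q : ℕ, Q < q → ψ q ≤ dist1 (q * α) := by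
    intro q hq
    by_contra h
    have := hQ (show q ∈ {q : ℕ | dist1 (q * α) < ψ q} from not_le.1 h)
    omega
  have hirr : ∀ q : ℕ, 1 ≤ q → 0 < dist1 (q * α) := by
    intro q hq
    by_contra h0
    have h1 : dist1 (q * α) = 0 := le_antisymm (not_lt.1 h0) (dist1_nonneg _)
    have h2 : (q : ℝ) * α = round (q * α) := by
      unfold dist1 at h1
      linarith [abs_eq_zero.1 h1]
    set k := Q + 1 with hk
    have h3 := hQ' (k * q) (by rw [hk]; nlinarith)
    have h4 : dist1 (((k * q : ℕ) : ℝ) * α) = 0 := by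
      have h5 := dist1_le_abs (((k * q : ℕ) : ℝ) * α) (k * round ((q : ℝ) * α))
      have h6 : ((k * q : ℕ) : ℝ) * α - ((k * round ((q : ℝ) * α) : ℤ) : ℝ) = 0 := by
        push_cast
        rw [← h2]; ring
      rw [h6, abs_zero] at h5
      exact le_antisymm h5 (dist1_nonneg _)
    rw [h4] at h3
    linarith [hψ (k * q)]
  have hlow : ∀ ε : ℝ, 0 < ε → ∃ c : ℝ, 0 < c ∧ ∃ Q : ℕ, ∀ q : ℕ, Q ≤ q → 1 ≤ q →
      c * (q : ℝ) ^ (-1 - ε) ≤ dist1 (q * α) := by
    intro ε hε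
    obtain ⟨c, hc, h⟩ := hmax ε hε
    refine ⟨c, hc, Q + 1, fun q hq hq1 => ?_⟩
    have h1 := h q hq1
    rwa [max_eq_left (hQ' q (by omega))] at h1
  obtain ⟨r, hr, hrδ⟩ := exists_r δ hδ
  obtain ⟨c, hc, hdio⟩ := dio_of α hlow hirr r (by omega)
  set G : ℕ := 128 ^ (2 * r) with hG
  have hG2 : 2 ≤ G := by
    calc 2 ≤ 128 ^ 1 := by norm_num
      _ ≤ 128 ^ (2 * r) := Nat.pow_le_pow_right (by norm_num) (by omega)
  set a : ℕ → ℝ := fun s => (G : ℝ) ^ s * ψ (2 * G ^ s) with ha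
  have ha0 : ∀ s, 0 < a s := fun s => by
    have h1 := hψ (2 * G ^ s)
    have : (0 : ℝ) < G := by
      have : 0 < G := by omega
      exact_mod_cast this
    simp only [ha]; positivity
  set τ : ℕ → ℝ := fun s => if 1 / ((s : ℝ) + 1) ^ 3 ≤ min 1 (a s) then min 1 (a s) else 0 with hτ
  have hτnn : ∀ s, 0 ≤ τ s := by
    intro s; simp only [hτ]; split_ifs
    · exact le_min zero_le_one (ha0 s).le
    · exact le_rfl
  have hτle : ∀ s, τ s ≤ a s := by
    intro s; simp only [hτ]; split_ifs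
    · exact min_le_right _ _
    · exact (ha0 s).le
  have hcore := core' μ C δ hδ hμ α r hr hrδ c hc hdio γ τ (by
    intro s
    by_cases h1 : 1 / ((s : ℝ) + 1) ^ 3 ≤ min 1 (a s)
    · right
      simp only [hτ, h1, if_true]
      exact ⟨trivial, min_le_left _ _⟩
    · left
      simp only [hτ, h1, if_false]) (by
    have hns : ¬ Summable (fun s : ℕ => ((s : ℝ) + 1) * τ s) := by
      intro hsum
      apply hdiv
      -- (s+1) min(1, a s) summable
      have h1 : Summable (fun s : ℕ => ((s : ℝ) + 1) * min 1 (a s)) := by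
        have h2 : Summable (fun s : ℕ => 1 / (((s + 1 : ℕ) : ℝ)) ^ 2) := by
          rw [summable_nat_add_iff 1 (f := fun s : ℕ => 1 / (s : ℝ) ^ 2)]
          exact Real.summable_one_div_nat_pow.2 (by norm_num)
        refine Summable.of_nonneg_of_le (fun s => ?_) (fun s => ?_) (hsum.add h2)
        · exact mul_nonneg (by positivity) (le_min zero_le_one (ha0 s).le)
        · by_cases h3 : 1 / ((s : ℝ) + 1) ^ 3 ≤ min 1 (a s)
          · have h4 : τ s = min 1 (a s) := by simp only [hτ, h3, if_true]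
            rw [h4]
            have : (0 : ℝ) ≤ 1 / (((s + 1 : ℕ) : ℝ)) ^ 2 := by positivity
            linarith
          · have h5 : ((s : ℝ) + 1) * min 1 (a s) ≤ ((s : ℝ) + 1) * (1 / ((s : ℝ) + 1) ^ 3) := by
              gcongr
              exact (not_le.1 h3).le
            have h6 : ((s : ℝ) + 1) * (1 / ((s : ℝ) + 1) ^ 3) = 1 / (((s + 1 : ℕ) : ℝ)) ^ 2 := by
              push_cast; field_simp
            have h7 := mul_nonneg (by positivity : 0 ≤ (s : ℝ) + 1) (hτnn s)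
            linarith
      have h8 : ∀ᶠ s : ℕ in atTop, ((s : ℝ) + 1) * min 1 (a s) = ((s : ℝ) + 1) * a s := by
        have h9 := h1.tendsto_atTop_zero
        filter_upwards [h9.eventually_lt_const one_pos] with s hs
        have : (0 : ℝ) ≤ s := by positivity
        rcases le_total 1 (a s) with h | h
        · rw [min_eq_left h] at hs
          linarith
        · rw [min_eq_right h]
      have h10 : Summable (fun s : ℕ => ((s : ℝ) + 1) * a s) := by
        rw [← summable_congr_atTop h8]; exact h1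
      refine summable_of_sum_range_le (c := 2 * G * (Real.log 2 + Real.log G) * ∑' s : ℕ, ((s : ℝ) + 1) * a s)
        (fun q => ?_) (fun n => ?_)
      · exact mul_nonneg (hψ q).le (Real.log_natCast_nonneg q)
      · have h11 : n ≤ 2 * G ^ n := by
          have : n < G ^ n := Nat.lt_pow_self (by omega)
          omega
        have hlogG : 0 ≤ Real.log G := Real.log_natCast_nonneg G
        have hlog2 : 0 < Real.log 2 := Real.log_pos (by norm_num)
        calc ∑ q ∈ range n, ψ q * Real.log q ≤ ∑ q ∈ range (2 * G ^ n), ψ q * Real.log q := by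
              refine sum_le_sum_of_subset_of_nonneg (range_mono h11) fun q _ _ => ?_
              exact mul_nonneg (hψ q).le (Real.log_natCast_nonneg q)
          _ ≤ _ := condense ψ hψ hmono G hG2 n
          _ ≤ _ := by
              gcongr
              exact h10.sum_le_tsum _ fun s _ => mul_nonneg (by positivity) (ha0 s).le
    exact (not_summable_iff_tendsto_nat_atTop_of_nonneg
      (fun s => mul_nonneg (by positivity) (hτnn s))).1 hns)
  filter_upwards [hcore] with β hβ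
  refine hβ.mono ?_
  rintro q ⟨hq1, s, h1, h2, h3⟩
  rw [Set.mem_ofPred_eq]
  refine lt_of_lt_of_le h3 ?_
  have h4 : (128 : ℝ) ^ (2 * r * s) = (G : ℝ) ^ s := by
    rw [hG]; push_cast; rw [← pow_mul]
  have h5 : 128 ^ (2 * r * s) = G ^ s := by rw [hG, ← pow_mul]
  rw [h4]
  rw [h5] at h2
  have hGs : (0 : ℝ) < (G : ℝ) ^ s := by rw [← h4]; positivity
  have h6 : ψ (2 * G ^ s) ≤ ψ q := hmono h2
  calc τ s / (2 * (G : ℝ) ^ s) ≤ a s / (2 * (G : ℝ) ^ s) := by gcongr; exact hτle s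
    _ = ψ (2 * G ^ s) / 2 := by simp only [ha]; field_simp
    _ ≤ ψ q := by linarith [hψ (2 * G ^ s)]

end Pool.Agent.H587.FD
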