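import Mathlib
import Pool.Agent.H587.FD.Block2

set_option autoImplicit false

open Finset MeasureTheory Filter

namespace Pool.Agent.H587.FD

lemma sumU_le (g J b : ℕ) (hg : 1 ≤ g) (hJ : 1 ≤ J) :
    ∑ b' ∈ range b, (128 : ℝ) ^ (g * J * (b' + 1) + 6 * J) ≤ 128 ^ (g * J * b + 7 * J) := by
  induction b with
  | zero => simp
  | succ b ih =>
    rw [sum_range_succ]
    have h1 : (128 : ℝ) ^ (g * J * b + 7 * J) ≤ 128 ^ (g * J * (b + 1) + 6 * J) := by
      apply pow_le_pow_right₀ (by norm_num)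
      have : J ≤ g * J := by nlinarith
      nlinarith
    have h2 : (128 : ℝ) * 128 ^ (g * J * (b + 1) + 6 * J) ≤ 128 ^ (g * J * (b + 1) + 7 * J) := by
      rw [← pow_succ']
      apply pow_le_pow_right₀ (by norm_num)
      omega
    have h3 : (0 : ℝ) < 128 ^ (g * J * (b + 1) + 6 * J) := by positivity
    linarith

lemma decay (C δ : ℝ) (hC : 0 ≤ C) (hδ : 0 < δ) (g J b : ℕ) (hJ : 1 ≤ J) (hg' : 18 ≤ g)
    (hg : 13 + 11 * δ ≤ δ * g) (hCJ : C ≤ 128 ^ J) :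
    (128 : ℝ) ^ (10 * J) * ((1 + 128 ^ (10 * J)) ^ b *
      (C * ((128 : ℝ) ^ (g * J * (b + 1) - 10 * J) / 2) ^ (-δ))) ≤ (1 / 8) ^ (b + 1) := by
  have hJ1 : (1 : ℝ) ≤ J := by exact_mod_cast hJ
  have hgJ : 18 * J ≤ g * J := by nlinarith
  have hgJb : g * J ≤ g * J * (b + 1) := by nlinarith
  have h1 : (1 : ℝ) + 128 ^ (10 * J) ≤ 128 ^ (11 * J) := by
    have h2 : (1 : ℝ) ≤ 128 ^ (10 * J) := one_le_pow₀ (by norm_num)
    have h3 : (128 : ℝ) * 128 ^ (10 * J) ≤ 128 ^ (11 * J) := by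
      rw [← pow_succ']
      apply pow_le_pow_right₀ (by norm_num); omega
    linarith
  have h2 : (128 : ℝ) ^ (g * J * (b + 1) - 11 * J) ≤ (128 : ℝ) ^ (g * J * (b + 1) - 10 * J) / 2 := by
    have h3 : (128 : ℝ) * 128 ^ (g * J * (b + 1) - 11 * J) ≤ 128 ^ (g * J * (b + 1) - 10 * J) := by
      rw [← pow_succ']
      apply pow_le_pow_right₀ (by norm_num); omega
    have h4 : (0 : ℝ) < 128 ^ (g * J * (b + 1) - 11 * J) := by positivity
    linarith
  have h5 : ((128 : ℝ) ^ (g * J * (b + 1) - 10 * J) / 2) ^ (-δ) ≤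
      ((128 : ℝ) ^ (g * J * (b + 1) - 11 * J)) ^ (-δ) :=
    Real.rpow_le_rpow_of_nonpos (by positivity) h2 (by linarith)
  have hcast : ((g * J * (b + 1) - 11 * J : ℕ) : ℝ) = g * J * (b + 1) - 11 * J := by
    rw [Nat.cast_sub (by omega)]; push_cast; ring
  calc (128 : ℝ) ^ (10 * J) * ((1 + 128 ^ (10 * J)) ^ b *
      (C * ((128 : ℝ) ^ (g * J * (b + 1) - 10 * J) / 2) ^ (-δ))) ≤
      (128 : ℝ) ^ (10 * J) * ((128 ^ (11 * J)) ^ b *
      (128 ^ J * ((128 : ℝ) ^ (g * J * (b + 1) - 11 * J)) ^ (-δ))) := by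
        gcongr
    _ = (128 : ℝ) ^ ((10 * J + 11 * J * b + J : ℝ) + (g * J * (b + 1) - 11 * J) * (-δ)) := by
        rw [Real.rpow_add (by norm_num), ← hcast, Real.rpow_mul (by norm_num), Real.rpow_natCast,
          Real.rpow_add (by norm_num), Real.rpow_add (by norm_num)]
        have e1 : (128 : ℝ) ^ (10 * (J : ℝ)) = 128 ^ (10 * J) := by
          rw [← Real.rpow_natCast]; congr 1; push_cast; ring
        have e2 : (128 : ℝ) ^ (11 * (J : ℝ) * b) = (128 ^ (11 * J)) ^ b := by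
          rw [← pow_mul, ← Real.rpow_natCast]; congr 1; push_cast; ring
        rw [e1, e2, Real.rpow_natCast]
        ring
    _ ≤ (128 : ℝ) ^ (-((b : ℝ) + 1)) := by
        apply Real.rpow_le_rpow_of_exponent_le (by norm_num)
        have hb : (0 : ℝ) ≤ b := by positivity
        have h6 : 13 * ((b : ℝ) + 1) ≤ δ * (g * (b + 1) - 11) := by nlinarith
        have h7 : (J : ℝ) * (13 * ((b : ℝ) + 1)) ≤ J * (δ * (g * (b + 1) - 11)) := by gcongr
        nlinarith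
    _ ≤ (1 / 8) ^ (b + 1) := by
        have e1 : (128 : ℝ) ^ (-((b : ℝ) + 1)) = (1 / 128) ^ (b + 1) := by
          rw [Real.rpow_neg (by norm_num), one_div, inv_pow, ← Real.rpow_natCast]
          congr 2
          push_cast; ring
        rw [e1]
        gcongr
        norm_num

/-- One stage: the probability of having no solution in the range is exponentially small in the
number of blocks. -/
theorem stage (μ : Measure ℝ) [IsProbabilityMeasure μ] (C δ : ℝ) (hC : 0 ≤ C) (hδ : 0 < δ)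
    (hμ : ∀ n : ℤ, n ≠ 0 → ‖∫ x, e (n * x) ∂μ‖ ≤ C * |(n : ℝ)| ^ (-δ))
    (g J B : ℕ) (hg' : 18 ≤ g) (hg : 13 + 11 * δ ≤ δ * g) (hJ : 5 ≤ J) (hCJ : C ≤ 128 ^ J)
    (κ : ℝ) (hκ0 : 0 < κ) (hκ1 : κ ≤ 1) (hκJ : 5 / κ ≤ 128 ^ J)
    (hE : 6144000 ≤ (J : ℝ) ^ 2 * κ) (α : ℝ) (hdio : Dio2 α J (g * J * (B + 1))) (γ : ℝ) :
    μ {β | ∀ (z : ℤ × ℤ) (τ j : ℕ), g * J ≤ τ → τ < g * J * (B + 1) → J ≤ j → j < 2 * J →
        Cell2 α τ j z → κ / (4 * 128 ^ (2 * j)) ≤ |z.1 * β - γ - round (z.1 * β - γ)|} ≤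
      ENNReal.ofReal ((1 / 4) ^ B) := by
  have hgJ : 18 * J ≤ g * J := by nlinarith
  have hb1 : ∀ b : ℕ, g * J ≤ g * J * (b + 1) := fun b => by nlinarith
  have hb2 : ∀ b < B, g * J * (b + 1) + g * J ≤ g * J * (B + 1) := fun b hb => by
    have : b + 1 ≤ B := hb
    nlinarith
  have hblock : ∀ b < B, ∃ (X : ℝ → ℝ) (x₀ : ℝ), 0 ≤ x₀ ∧ x₀ ≤ 1 / 8 ∧
      Blk X x₀ (128 ^ (10 * J)) (128 ^ (g * J * (b + 1) - 10 * J))
        (128 ^ (g * J * (b + 1) + 6 * J)) ∧ (∀ x, 0 ≤ X x) ∧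
      (∀ β, X β < 1 → ∃ (z : ℤ × ℤ) (τ j : ℕ), g * J * (b + 1) ≤ τ ∧ τ < g * J * (b + 1) + J ∧
        J ≤ j ∧ j < 2 * J ∧
        Cell2 α τ j z ∧ |z.1 * β - γ - round (z.1 * β - γ)| < κ / (4 * 128 ^ (2 * j))) := by
    intro b hb
    have h1 := hb1 b
    have h2 := hb2 b hb
    exact block α J (g * J * (B + 1)) (g * J * (b + 1)) hJ hdio (by omega) (by omega) κ hκ0 hκ1 hκJ hE γ
  choose! X x₀ hX0 hX8 hblk hXpos hXhit using hblock
  obtain ⟨h1, h2⟩ := prod_bound μ C δ hC hδ hμ X (128 ^ (10 * J)) (by positivity)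
    (fun b => 128 ^ (g * J * (b + 1) - 10 * J)) (fun b => 128 ^ (g * J * (b + 1) - 10 * J) / 2)
    (fun b => 128 ^ (g * J * (b + 1) + 6 * J)) B (fun b => by positivity)
    (fun b hb => ⟨x₀ b, hX0 b hb, hX8 b hb, hblk b hb⟩) hXpos (fun b _ => by positivity)
    (by
      intro b hb
      have h3 := sumU_le g J b (by omega) (by omega)
      have h4 : (128 : ℝ) * 128 ^ (g * J * b + 7 * J) ≤ 128 ^ (g * J * (b + 1) - 10 * J) := by
        rw [← pow_succ']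
        apply pow_le_pow_right₀ (by norm_num)
        have : g * J * (b + 1) = g * J * b + g * J := by ring
        omega
      have h5 : (0 : ℝ) < 128 ^ (g * J * b + 7 * J) := by positivity
      linarith)
    (fun b _ => decay C δ hC hδ g J b (by omega) hg' hg hCJ)
  have hint : Integrable (fun x => ∏ b ∈ range B, X b x) μ := by
    refine (h1.integrable μ).re.congr (Eventually.of_forall fun x => ?_)
    exact Complex.ofReal_re _
  have hnn : ∀ x, 0 ≤ ∏ b ∈ range B, X b x := fun x => prod_nonneg fun b hb => hXpos b (mem_range.1 hb) x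
  have hmarkov := mul_meas_ge_le_integral_of_nonneg (μ := μ) (f := fun x => ∏ b ∈ range B, X b x)
    (Eventually.of_forall hnn) hint 1
  rw [one_mul] at hmarkov
  have hsub : {β | ∀ (z : ℤ × ℤ) (τ j : ℕ), g * J ≤ τ → τ < g * J * (B + 1) → J ≤ j → j < 2 * J →
        Cell2 α τ j z → κ / (4 * 128 ^ (2 * j)) ≤ |z.1 * β - γ - round (z.1 * β - γ)|} ⊆
      {x | 1 ≤ ∏ b ∈ range B, X b x} := by
    intro β hβ
    rw [Set.mem_ofPred_eq] at hβ ⊢
    have h3 : ∀ b ∈ range B, 1 ≤ X b β := by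
      intro b hb
      rw [mem_range] at hb
      by_contra h4
      push Not at h4
      obtain ⟨z, τ, j, h5, h6, h7, h8, h9, h10⟩ := hXhit b hb β h4
      have h11 := hb1 b
      have h12 := hb2 b hb
      have := hβ z τ j (by omega) (by omega) h7 h8 h9
      linarith
    calc (1 : ℝ) = ∏ b ∈ range B, 1 := by simp
      _ ≤ ∏ b ∈ range B, X b β := prod_le_prod (fun _ _ => zero_le_one) h3
  calc μ {β | ∀ (z : ℤ × ℤ) (τ j : ℕ), g * J ≤ τ → τ < g * J * (B + 1) → J ≤ j → j < 2 * J →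
        Cell2 α τ j z → κ / (4 * 128 ^ (2 * j)) ≤ |z.1 * β - γ - round (z.1 * β - γ)|} ≤
      μ {x | 1 ≤ ∏ b ∈ range B, X b x} := measure_mono hsub
    _ = ENNReal.ofReal (μ.real {x | 1 ≤ ∏ b ∈ range B, X b x}) := by
        rw [Measure.real, ENNReal.ofReal_toReal (measure_ne_top _ _)]
    _ ≤ _ := ENNReal.ofReal_le_ofReal (hmarkov.trans h2)

end Pool.Agent.H587.FD
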