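import Mathlib
import Pool.Agent.H587.FD.Stage
import Pool.Agent.H587.FD.Final

set_option autoImplicit false

open Finset MeasureTheory Filter Topology

namespace Pool.Agent.H587.FD

/-- if the measures of the bad sets tend to zero, almost every point is good infinitely often -/
lemma ae_frequently (μ : Measure ℝ) (F : ℕ → Set ℝ) (h : Tendsto (fun m => μ (F m)) atTop (𝓝 0)) :
    ∀ᵐ β ∂μ, ∃ᶠ m in atTop, β ∉ F m := by
  have h1 : ∀ M : ℕ, μ {β | ∀ m, M ≤ m → β ∈ F m} = 0 := by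
    intro M
    have h2 : ∀ m, M ≤ m → μ {β | ∀ m, M ≤ m → β ∈ F m} ≤ μ (F m) := fun m hm =>
      measure_mono fun β hβ => hβ m hm
    refine le_antisymm (ge_of_tendsto h ?_) bot_le
    filter_upwards [eventually_ge_atTop M] with m hm using h2 m hm
  rw [ae_iff]
  refine measure_mono_null (t := ⋃ M : ℕ, {β | ∀ m, M ≤ m → β ∈ F m}) ?_ (measure_iUnion_null h1)
  intro β hβ
  rw [Set.mem_ofPred_eq, not_frequently] at hβ
  obtain ⟨M, hM⟩ := eventually_atTop.1 hβ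
  rw [Set.mem_iUnion]
  exact ⟨M, fun m hm => not_not.1 (hM m hm)⟩

/-- distance modulo one -/
lemma reps (F : Finset ℝ) (S : Set ℝ) (r : ℝ) (hF : ∀ α ∈ S, ∃ f ∈ F, |α - f - round (α - f)| ≤ r) :
    ∃ R : Finset ℝ, R.card ≤ F.card ∧ (∀ α ∈ R, α ∈ S) ∧
      ∀ α ∈ S, ∃ α' ∈ R, ∃ n : ℤ, |α - α' - n| ≤ 2 * r := by
  classical
  have h : ∀ f : ℝ, (∃ α ∈ S, |α - f - round (α - f)| ≤ r) → ∃ α, α ∈ S ∧ |α - f - round (α - f)| ≤ r :=
    fun f hf => by obtain ⟨α, h1, h2⟩ := hf; exact ⟨α, h1, h2⟩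
  choose! ρ hρ using h
  refine ⟨(F.filter fun f => ∃ α ∈ S, |α - f - round (α - f)| ≤ r).image ρ, ?_, ?_, ?_⟩
  · exact card_image_le.trans (card_filter_le _ _)
  · intro α hα
    rw [mem_image] at hα
    obtain ⟨f, hf, rfl⟩ := hα
    rw [mem_filter] at hf
    exact (hρ f hf.2).1
  · intro α hα
    obtain ⟨f, hf, hfα⟩ := hF α hα
    have hex : ∃ α ∈ S, |α - f - round (α - f)| ≤ r := ⟨α, hα, hfα⟩
    refine ⟨ρ f, mem_image_of_mem _ (mem_filter.2 ⟨hf, hex⟩), round (α - f) - round (ρ f - f), ?_⟩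
    have h1 := (hρ f hex).2
    have e1 : α - ρ f - ((round (α - f) - round (ρ f - f) : ℤ) : ℝ) =
        (α - f - round (α - f)) - (ρ f - f - round (ρ f - f)) := by push_cast; ring
    rw [e1]
    have := abs_sub (α - f - round (α - f)) (ρ f - f - round (ρ f - f))
    linarith

lemma exp15 (K : ℕ) : Real.exp (-(15 * K : ℕ)) ≤ 1 / 128 ^ (3 * K) := by
  have h1 : (2097152 : ℝ) ≤ Real.exp 15 := by
    have h2 : Real.exp 15 = Real.exp 1 ^ 15 := by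
      rw [← Real.exp_nat_mul]; norm_num
    rw [h2]
    have h3 := Real.exp_one_gt_d9
    calc (2097152 : ℝ) ≤ 2.7182818283 ^ 15 := by norm_num
      _ ≤ Real.exp 1 ^ 15 := by gcongr
  have h4 : (128 : ℝ) ^ (3 * K) ≤ Real.exp (15 * K : ℕ) := by
    have e1 : Real.exp (15 * K : ℕ) = Real.exp 15 ^ K := by
      rw [← Real.exp_nat_mul]; congr 1; push_cast; ring
    rw [e1, pow_mul]
    gcongr
    calc (128 : ℝ) ^ 3 = 2097152 := by norm_num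
      _ ≤ _ := h1
  rw [Real.exp_neg, one_div]
  gcongr

lemma log128 : Real.log 128 ≤ 5 := by
  have h1 : (128 : ℝ) ≤ Real.exp 5 := by
    have h2 : Real.exp 5 = Real.exp 1 ^ 5 := by
      rw [← Real.exp_nat_mul]; norm_num
    rw [h2]
    have h3 := Real.exp_one_gt_d9
    calc (128 : ℝ) ≤ 2.7182818283 ^ 5 := by norm_num
      _ ≤ Real.exp 1 ^ 5 := by gcongr
  rw [Real.log_le_iff_le_exp (by norm_num)]
  exact h1

/-- polynomial bound for the scale -/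
lemma K_bound (g m : ℕ) (hm : 1 ≤ m) (s : ℝ) (hs : 0 < s) :
    ((g * m * (⌈(m : ℝ) ^ s⌉₊ + 1) : ℕ) : ℝ) ≤ 3 * g * (m : ℝ) ^ (1 + s) := by
  have hm1 : (1 : ℝ) ≤ m := by exact_mod_cast hm
  have h1 : (⌈(m : ℝ) ^ s⌉₊ : ℝ) ≤ (m : ℝ) ^ s + 1 := (Nat.ceil_lt_add_one (by positivity)).le
  have h2 : (1 : ℝ) ≤ (m : ℝ) ^ s := Real.one_le_rpow hm1 hs.le
  have h3 : (m : ℝ) ^ (1 + s) = m * (m : ℝ) ^ s := by
    rw [Real.rpow_add (by linarith), Real.rpow_one]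
  rw [h3]
  push_cast
  calc (g : ℝ) * m * (⌈(m : ℝ) ^ s⌉₊ + 1) ≤ g * m * ((m : ℝ) ^ s + 1 + 1) := by gcongr
    _ ≤ g * m * (3 * (m : ℝ) ^ s) := by gcongr; linarith
    _ = 3 * g * (m * (m : ℝ) ^ s) := by ring

/-- the union bound tends to zero -/
lemma union_tendsto (C₁ C₂ θ₁ θ₂ s : ℝ) (hs : 0 < s) (h1 : (1 + s) * θ₁ < s) (h2 : θ₂ < s)
    (hθ₁ : 0 ≤ θ₁) (g : ℕ) :
    Tendsto (fun m : ℕ => Real.exp (C₁ * ((15 * (g * m * (⌈(m : ℝ) ^ s⌉₊ + 1)) : ℕ) : ℝ) ^ θ₁) *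
      Real.exp (C₂ * ((30 * m : ℕ) : ℝ) ^ θ₂) * (1 / 4) ^ ⌈(m : ℝ) ^ s⌉₊) atTop (𝓝 0) := by
  have hcast : Tendsto (fun m : ℕ => (m : ℝ)) atTop atTop := tendsto_natCast_atTop_atTop
  set a : ℝ := (1 + s) * θ₁ with ha
  have t1 : Tendsto (fun m : ℕ => (|C₁| * (45 * g) ^ θ₁) * (m : ℝ) ^ (-(s - a))) atTop (𝓝 0) := by
    have := ((tendsto_rpow_neg_atTop (y := s - a) (by linarith)).comp hcast).const_mul
      (|C₁| * (45 * g) ^ θ₁)
    simpa using this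
  have t2 : Tendsto (fun m : ℕ => (|C₂| * 30 ^ θ₂) * (m : ℝ) ^ (-(s - θ₂))) atTop (𝓝 0) := by
    have := ((tendsto_rpow_neg_atTop (y := s - θ₂) (by linarith)).comp hcast).const_mul
      (|C₂| * 30 ^ θ₂)
    simpa using this
  have t3 : Tendsto (fun m : ℕ => Real.exp (-(m : ℝ) ^ s)) atTop (𝓝 0) :=
    Real.tendsto_exp_neg_atTop_nhds_zero.comp ((tendsto_rpow_atTop hs).comp hcast)
  refine squeeze_zero' (Eventually.of_forall fun m => by positivity) ?_ t3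
  filter_upwards [t1.eventually_lt_const (show (0 : ℝ) < 1 / 10 by norm_num),
    t2.eventually_lt_const (show (0 : ℝ) < 1 / 10 by norm_num), eventually_ge_atTop 1] with m h3 h4 hm
  have hm1 : (1 : ℝ) ≤ m := by exact_mod_cast hm
  have hm0 : (0 : ℝ) < m := by linarith
  have hB : (m : ℝ) ^ s ≤ (⌈(m : ℝ) ^ s⌉₊ : ℝ) := Nat.le_ceil _
  have hlog4 : 1.3 ≤ Real.log 4 := by
    have : Real.log 4 = 2 * Real.log 2 := by
      rw [show (4 : ℝ) = 2 ^ 2 by norm_num, Real.log_pow]; norm_num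
    rw [this]
    have := Real.log_two_gt_d9
    linarith
  have e1 : (1 / 4 : ℝ) ^ ⌈(m : ℝ) ^ s⌉₊ = Real.exp (-(⌈(m : ℝ) ^ s⌉₊ * Real.log 4)) := by
    rw [Real.exp_neg, Real.exp_nat_mul, Real.exp_log (by norm_num), one_div, inv_pow]
  rw [e1, ← Real.exp_add, ← Real.exp_add]
  apply Real.exp_le_exp.2
  have k1 : C₁ * ((15 * (g * m * (⌈(m : ℝ) ^ s⌉₊ + 1)) : ℕ) : ℝ) ^ θ₁ ≤ 1 / 10 * (m : ℝ) ^ s := by
    have k2 : ((15 * (g * m * (⌈(m : ℝ) ^ s⌉₊ + 1)) : ℕ) : ℝ) ≤ 45 * g * (m : ℝ) ^ (1 + s) := by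
      have := K_bound g m hm s hs
      rw [Nat.cast_mul]
      push_cast at this ⊢
      linarith
    calc C₁ * ((15 * (g * m * (⌈(m : ℝ) ^ s⌉₊ + 1)) : ℕ) : ℝ) ^ θ₁ ≤
        |C₁| * ((15 * (g * m * (⌈(m : ℝ) ^ s⌉₊ + 1)) : ℕ) : ℝ) ^ θ₁ := by
          gcongr; exact le_abs_self _
      _ ≤ |C₁| * (45 * g * (m : ℝ) ^ (1 + s)) ^ θ₁ := by gcongr
      _ = (|C₁| * (45 * g) ^ θ₁) * (m : ℝ) ^ (-(s - a)) * (m : ℝ) ^ s := by
          rw [Real.mul_rpow (by positivity) (by positivity), ← Real.rpow_mul hm0.le,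
            mul_assoc (|C₁| * (45 * (g : ℝ)) ^ θ₁), ← Real.rpow_add hm0]
          have : -(s - a) + s = (1 + s) * θ₁ := by rw [ha]; ring
          rw [this]; ring
      _ ≤ 1 / 10 * (m : ℝ) ^ s := by gcongr
  have k3 : C₂ * ((30 * m : ℕ) : ℝ) ^ θ₂ ≤ 1 / 10 * (m : ℝ) ^ s := by
    calc C₂ * ((30 * m : ℕ) : ℝ) ^ θ₂ ≤ |C₂| * ((30 * m : ℕ) : ℝ) ^ θ₂ := by
          gcongr; exact le_abs_self _
      _ = (|C₂| * 30 ^ θ₂) * (m : ℝ) ^ (-(s - θ₂)) * (m : ℝ) ^ s := by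
          push_cast
          rw [Real.mul_rpow (by norm_num) hm0.le, mul_assoc (|C₂| * 30 ^ θ₂), ← Real.rpow_add hm0]
          have : -(s - θ₂) + s = θ₂ := by ring
          rw [this]; ring
      _ ≤ 1 / 10 * (m : ℝ) ^ s := by gcongr
  have hms : 0 ≤ (m : ℝ) ^ s := by positivity
  have k4 : 1.3 * (m : ℝ) ^ s ≤ ⌈(m : ℝ) ^ s⌉₊ * Real.log 4 := by
    calc 1.3 * (m : ℝ) ^ s ≤ Real.log 4 * (⌈(m : ℝ) ^ s⌉₊ : ℝ) := by gcongr
      _ = _ := by ring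
  linarith

end Pool.Agent.H587.FD
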