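import Mathlib
import Pool.Agent.H587.FD.Unif

set_option autoImplicit false

open Finset MeasureTheory Filter Topology

namespace Pool.Agent.H587.FD

/-- parameters of stage `m` -/
noncomputable def Km (g : ℕ) (s : ℝ) (m : ℕ) : ℕ := g * m * (⌈(m : ℝ) ^ s⌉₊ + 1)

/-- no solution at stage `m` -/
def NoHit (g : ℕ) (s : ℝ) (m : ℕ) (α γ : ℝ) : Set ℝ :=
  {β | ∀ (z : ℤ × ℤ) (τ j : ℕ), g * m ≤ τ → τ < Km g s m → m ≤ j → j < 2 * m →
        Cell2 α τ j z →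
          (6144000 / (m : ℝ) ^ 2) / (4 * 128 ^ (2 * j)) ≤ |z.1 * β - γ - round (z.1 * β - γ)|}

lemma m_facts (m : ℕ) (hm : 2500 ≤ m) : 0 < 6144000 / (m : ℝ) ^ 2 ∧ 6144000 / (m : ℝ) ^ 2 ≤ 1 ∧
    5 / (6144000 / (m : ℝ) ^ 2) ≤ 128 ^ m ∧ 6144000 ≤ (m : ℝ) ^ 2 * (6144000 / (m : ℝ) ^ 2) ∧
    (m : ℝ) ^ 2 ≤ 128 ^ m := by
  have hm1 : (2500 : ℝ) ≤ m := by exact_mod_cast hm
  have h2 : (m : ℝ) ^ 2 ≤ 128 ^ m := by
    have h3 : (m : ℝ) ≤ 2 ^ m := by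
      have : m < 2 ^ m := Nat.lt_two_pow_self
      exact_mod_cast this.le
    calc (m : ℝ) ^ 2 ≤ (2 ^ m) ^ 2 := by gcongr
      _ = (2 ^ 2) ^ m := by rw [← pow_mul, ← pow_mul, mul_comm]
      _ ≤ 128 ^ m := by gcongr; norm_num
  refine ⟨by positivity, ?_, ?_, ?_, h2⟩
  · rw [div_le_one (by positivity)]; nlinarith
  · refine le_trans ?_ h2
    rw [div_div_eq_mul_div, div_le_iff₀ (by norm_num)]
    nlinarith [sq_nonneg (m : ℝ)]
  · rw [mul_div_cancel₀ _ (by positivity)]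

/-- the metric part: for almost every `β`, infinitely many stages are successful for all
representatives -/
theorem metric_part (μ : Measure ℝ) [IsProbabilityMeasure μ] (C δ : ℝ) (hC : 0 ≤ C) (hδ : 0 < δ)
    (hμ : ∀ n : ℤ, n ≠ 0 → ‖∫ x, e (n * x) ∂μ‖ ≤ C * |(n : ℝ)| ^ (-δ))
    (g : ℕ) (hg' : 18 ≤ g) (hg : 13 + 11 * δ ≤ δ * g) (s : ℝ) (hs : 0 < s)
    (θ₁ θ₂ : ℝ) (h1 : (1 + s) * θ₁ < s) (h2 : θ₂ < s) (hθ₁ : 0 ≤ θ₁) (C₁ C₂ : ℝ) (m₀ : ℕ)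
    (R G : ℕ → Finset ℝ)
    (hR : ∀ m, m₀ ≤ m → ((R m).card : ℝ) ≤ Real.exp (C₁ * ((15 * Km g s m : ℕ) : ℝ) ^ θ₁))
    (hG : ∀ m, m₀ ≤ m → ((G m).card : ℝ) ≤ Real.exp (C₂ * ((30 * m : ℕ) : ℝ) ^ θ₂))
    (hdio : ∀ m, m₀ ≤ m → ∀ α ∈ R m, Dio2 α m (Km g s m)) :
    ∀ᵐ β ∂μ, ∃ᶠ m in atTop, ∀ α ∈ R m, ∀ γ ∈ G m, β ∉ NoHit g s m α γ := by
  have h3 := ae_frequently μ (fun m => ⋃ α ∈ R m, ⋃ γ ∈ G m, NoHit g s m α γ) (by
    have ht := union_tendsto C₁ C₂ θ₁ θ₂ s hs h1 h2 hθ₁ g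
    have ht' : Tendsto (fun m : ℕ => ENNReal.ofReal
        (Real.exp (C₁ * ((15 * (g * m * (⌈(m : ℝ) ^ s⌉₊ + 1)) : ℕ) : ℝ) ^ θ₁) *
      Real.exp (C₂ * ((30 * m : ℕ) : ℝ) ^ θ₂) * (1 / 4) ^ ⌈(m : ℝ) ^ s⌉₊)) atTop (𝓝 0) := by
      have := ENNReal.tendsto_ofReal ht
      simpa using this
    refine tendsto_of_tendsto_of_tendsto_of_le_of_le' tendsto_const_nhds ht'
      (Eventually.of_forall fun m => bot_le) ?_
    obtain ⟨mC, hmC⟩ : ∃ mC : ℕ, C ≤ 128 ^ mC :=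
      (pow_unbounded_of_one_lt C (by norm_num : (1 : ℝ) < 128)).imp fun n hn => hn.le
    filter_upwards [eventually_ge_atTop m₀, eventually_ge_atTop 2500, eventually_ge_atTop mC] with
      m hm0 hm hmC'
    obtain ⟨f1, f2, f3, f4, f5⟩ := m_facts m hm
    have hCm : C ≤ 128 ^ m := hmC.trans (pow_le_pow_right₀ (by norm_num) hmC')
    have hone : ∀ α ∈ R m, ∀ γ : ℝ, μ (NoHit g s m α γ) ≤ ENNReal.ofReal ((1 / 4) ^ ⌈(m : ℝ) ^ s⌉₊) := by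
      intro α hα γ
      exact stage μ C δ hC hδ hμ g m ⌈(m : ℝ) ^ s⌉₊ hg' hg (by omega) hCm _ f1 f2 f3 f4 α
        (hdio m hm0 α hα) γ
    calc μ (⋃ α ∈ R m, ⋃ γ ∈ G m, NoHit g s m α γ) ≤
        ∑ α ∈ R m, μ (⋃ γ ∈ G m, NoHit g s m α γ) := measure_biUnion_finset_le _ _
      _ ≤ ∑ α ∈ R m, ∑ γ ∈ G m, μ (NoHit g s m α γ) :=
          sum_le_sum fun α _ => measure_biUnion_finset_le _ _
      _ ≤ ∑ α ∈ R m, ∑ γ ∈ G m, ENNReal.ofReal ((1 / 4) ^ ⌈(m : ℝ) ^ s⌉₊) :=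
          sum_le_sum fun α hα => sum_le_sum fun γ _ => hone α hα γ
      _ = ENNReal.ofReal ((R m).card * (G m).card * (1 / 4) ^ ⌈(m : ℝ) ^ s⌉₊) := by
          rw [sum_const, sum_const, nsmul_eq_mul, nsmul_eq_mul, ENNReal.ofReal_mul (by positivity),
            ENNReal.ofReal_mul (by positivity), ENNReal.ofReal_natCast, ENNReal.ofReal_natCast,
            mul_assoc]
      _ ≤ _ := by
          apply ENNReal.ofReal_le_ofReal
          have h4 := hR m hm0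
          have h5 := hG m hm0
          unfold Km at h4
          gcongr)
  filter_upwards [h3] with β hβ
  refine hβ.mono fun m hm α hα γ hγ h => hm ?_
  rw [Set.mem_iUnion₂]
  exact ⟨α, hα, by rw [Set.mem_iUnion₂]; exact ⟨γ, hγ, h⟩⟩

/-- from a solution for the representative to a solution for `(α, γ)` -/
lemma transfer (g : ℕ) (hg : 1 ≤ g) (s : ℝ) (m : ℕ) (hm : 2500 ≤ m) (α γ α' γ' β : ℝ) (n n' : ℤ)
    (hα : |α - α' - n| ≤ 2 * (1 / 128 ^ (3 * Km g s m)))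
    (hγ : |γ - γ' - n'| ≤ 1 / 128 ^ (6 * m)) (hβ : β ∉ NoHit g s m α' γ') :
    ∃ q : ℕ, m ≤ q ∧ (q : ℝ) ≤ 128 ^ Km g s m ∧
      q * (dist1 (q * α) * dist1 (q * β - γ)) ≤ 3 * (6144000 / (m : ℝ) ^ 2) := by
  obtain ⟨f1, f2, f3, f4, f5⟩ := m_facts m hm
  unfold NoHit at hβ
  rw [Set.mem_ofPred_eq] at hβ
  push Not at hβ
  obtain ⟨z, τ, j, h1, h2, h3, h4, ⟨c1, c2, c3, c4, c5, c6⟩, h5⟩ := hβ
  set κ : ℝ := 6144000 / (m : ℝ) ^ 2 with hκ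
  have hz : ((z.1.toNat : ℕ) : ℝ) = (z.1 : ℝ) := by
    have : ((z.1.toNat : ℕ) : ℤ) = z.1 := Int.toNat_of_nonneg c2.le
    exact_mod_cast this
  have hz0 : (0 : ℝ) < z.1 := by exact_mod_cast c2
  have hτ0 : (0 : ℝ) < 128 ^ τ := by positivity
  have hj0 : (1 : ℝ) ≤ 128 ^ (2 * j) := one_le_pow₀ (by norm_num)
  have hmτ : m ≤ τ := by
    have : m ≤ g * m := by nlinarith
    omega
  refine ⟨z.1.toNat, ?_, ?_, ?_⟩
  · -- q is large
    have h6 : (m : ℝ) ≤ z.1 := by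
      have h7 : (32 : ℝ) * m ≤ 128 ^ τ := by
        have h8 : (128 : ℝ) ^ m ≤ 128 ^ τ := pow_le_pow_right₀ (by norm_num) hmτ
        have h9 : (2500 : ℝ) ≤ m := by exact_mod_cast hm
        nlinarith
      have : (m : ℝ) ≤ 128 ^ τ / 32 := by rw [le_div_iff₀ (by norm_num)]; linarith
      linarith
    rw [← hz] at h6
    exact_mod_cast h6
  · rw [hz]
    have h6 : (128 : ℝ) * 128 ^ τ ≤ 128 ^ Km g s m := by
      rw [← pow_succ']
      exact pow_le_pow_right₀ (by norm_num) h2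
    linarith
  · rw [hz]
    -- the α side
    have ha : dist1 (z.1 * α) ≤ 3 * 128 ^ (2 * j) / 128 ^ τ := by
      have e1 := dist1_le_abs ((z.1 : ℝ) * α) (z.1 * n + z.2)
      have e2 : (z.1 : ℝ) * α - ((z.1 * n + z.2 : ℤ) : ℝ) = z.1 * (α - α' - n) + (z.1 * α' - z.2) := by
        push_cast; ring
      rw [e2] at e1
      have e3 : |(z.1 : ℝ) * (α - α' - n)| ≤ 128 ^ (2 * j) / 128 ^ τ := by
        rw [abs_mul, abs_of_pos hz0]
        calc (z.1 : ℝ) * |α - α' - n| ≤ 2 * 128 ^ τ * (2 * (1 / 128 ^ (3 * Km g s m))) := by gcongr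
          _ = 4 * 128 ^ τ / 128 ^ (3 * Km g s m) := by ring
          _ ≤ 1 / 128 ^ τ := by
            rw [div_le_div_iff₀ (by positivity) hτ0]
            calc (4 : ℝ) * 128 ^ τ * 128 ^ τ ≤ 128 * 128 ^ τ * 128 ^ τ := by gcongr; norm_num
              _ = 128 ^ (2 * τ + 1) := by rw [pow_succ, two_mul, pow_add]; ring
              _ ≤ 1 * 128 ^ (3 * Km g s m) := by
                rw [one_mul]; exact pow_le_pow_right₀ (by norm_num) (by omega)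
          _ ≤ 128 ^ (2 * j) / 128 ^ τ := by gcongr
      have e4 := abs_add_le ((z.1 : ℝ) * (α - α' - n)) (z.1 * α' - z.2)
      have e5 : 3 * (128 : ℝ) ^ (2 * j) / 128 ^ τ = 128 ^ (2 * j) / 128 ^ τ + 2 * 128 ^ (2 * j) / 128 ^ τ := by
        ring
      linarith
    have hb : dist1 (z.1 * β - γ) ≤ κ / (2 * 128 ^ (2 * j)) := by
      have e1 := dist1_le_abs ((z.1 : ℝ) * β - γ) (round (z.1 * β - γ') - n')
      have e2 : (z.1 : ℝ) * β - γ - ((round ((z.1 : ℝ) * β - γ') - n' : ℤ) : ℝ) =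
          (z.1 * β - γ' - round (z.1 * β - γ')) - (γ - γ' - n') := by
        push_cast; ring
      rw [e2] at e1
      have e3 := abs_sub ((z.1 : ℝ) * β - γ' - round ((z.1 : ℝ) * β - γ')) (γ - γ' - n')
      have e4 : (1 : ℝ) / 128 ^ (6 * m) ≤ κ / (4 * 128 ^ (2 * j)) := by
        rw [div_le_div_iff₀ (by positivity) (by positivity)]
        have e5 : (128 : ℝ) ^ (2 * j) ≤ 128 ^ (4 * m) := pow_le_pow_right₀ (by norm_num) (by omega)
        have e6 : (128 : ℝ) ^ (6 * m) = 128 ^ m * 128 ^ m * 128 ^ (4 * m) := by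
          rw [← pow_add, ← pow_add]; congr 1; ring
        have e7 : 5 ≤ κ * 128 ^ m := by
          rw [div_le_iff₀ f1] at f3
          linarith
        have e8 : (1 : ℝ) ≤ 128 ^ m := one_le_pow₀ (by norm_num)
        calc 1 * (4 * (128 : ℝ) ^ (2 * j)) ≤ 5 * 1 * 128 ^ (4 * m) := by
              rw [one_mul, mul_one]
              gcongr; norm_num
          _ ≤ (κ * 128 ^ m) * 128 ^ m * 128 ^ (4 * m) := by gcongr
          _ = κ * 128 ^ (6 * m) := by rw [e6]; ring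
      have e9 : κ / (2 * 128 ^ (2 * j)) = κ / (4 * 128 ^ (2 * j)) + κ / (4 * 128 ^ (2 * j)) := by
        field_simp; norm_num
      linarith
    have hd1 := dist1_nonneg ((z.1 : ℝ) * α)
    have hd2 := dist1_nonneg ((z.1 : ℝ) * β - γ)
    calc (z.1 : ℝ) * (dist1 (z.1 * α) * dist1 (z.1 * β - γ)) ≤
        (2 * 128 ^ τ) * ((3 * 128 ^ (2 * j) / 128 ^ τ) * (κ / (2 * 128 ^ (2 * j)))) := by
          gcongr
      _ = 3 * κ := by field_simp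

end Pool.Agent.H587.FD
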