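import Mathlib
import Pool.Agent.H587.FD.Unif2

set_option autoImplicit false

open Finset MeasureTheory Filter Topology

namespace Pool.Agent.H587.FD

lemma log_le_scale (q K : ℕ) (hq : 1 ≤ q) (h : (q : ℝ) ≤ 128 ^ K) : Real.log q ≤ 5 * K := by
  have hq0 : (0 : ℝ) < q := by exact_mod_cast hq
  calc Real.log q ≤ Real.log (128 ^ K) := Real.log_le_log hq0 h
    _ = K * Real.log 128 := by rw [Real.log_pow]
    _ ≤ K * 5 := by
      have := log128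
      gcongr
    _ = 5 * K := by ring

/-- powers of the scale -/
lemma scale_pow (g m : ℕ) (hm : 1 ≤ m) (s c : ℝ) (hs : 0 < s) (hc : 0 < c) :
    (5 * (Km g s m : ℝ)) ^ c ≤ (15 * g) ^ c * (m : ℝ) ^ ((1 + s) * c) := by
  have hm1 : (1 : ℝ) ≤ m := by exact_mod_cast hm
  have h1 : (Km g s m : ℝ) ≤ 3 * g * (m : ℝ) ^ (1 + s) := by
    unfold Km; exact K_bound g m hm s hs
  calc (5 * (Km g s m : ℝ)) ^ c ≤ (5 * (3 * g * (m : ℝ) ^ (1 + s))) ^ c := by gcongr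
    _ = (15 * g) ^ c * (m : ℝ) ^ ((1 + s) * c) := by
      rw [show 5 * (3 * (g : ℝ) * (m : ℝ) ^ (1 + s)) = (15 * g) * (m : ℝ) ^ (1 + s) by ring,
        Real.mul_rpow (by positivity) (by positivity), ← Real.rpow_mul (by linarith)]

lemma dio_eventually (α : ℝ) (g : ℕ) (s c : ℝ) (hs : 0 < s) (hc : 0 < c) (hsc : (1 + s) * c < 2)
    (hirr : ∀ q : ℕ, 1 ≤ q → 0 < dist1 (q * α)) (κ₀ : ℝ) (hκ₀ : 0 < κ₀) (N₀ : ℕ)
    (hlow : ∀ q : ℕ, N₀ ≤ q → 1 ≤ q → κ₀ ≤ q * Real.log q ^ c * dist1 (q * α)) :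
    ∃ k : ℕ, ∀ m, k ≤ m → Dio2 α m (Km g s m) := by
  obtain ⟨ν, hν, hνQ⟩ : ∃ ν : ℝ, 0 < ν ∧ ∀ q : ℕ, 1 ≤ q → q < N₀ → ν ≤ dist1 (q * α) := by
    by_cases hne : ((Finset.range N₀).filter fun q => 1 ≤ q).Nonempty
    · obtain ⟨q0, hq0, hmin⟩ := Finset.exists_min_image _ (fun q : ℕ => dist1 (q * α)) hne
      rw [mem_filter] at hq0
      refine ⟨dist1 (q0 * α), hirr q0 hq0.2, fun q h1 h2 => hmin q ?_⟩
      rw [mem_filter, mem_range]; exact ⟨h2, h1⟩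
    · refine ⟨1, one_pos, fun q h1 h2 => ?_⟩
      exact absurd ⟨q, by rw [mem_filter, mem_range]; exact ⟨h2, h1⟩⟩ hne
  have t1 : Tendsto (fun m : ℕ => (15 * g : ℝ) ^ c * ((m : ℝ) ^ 2 / 128 ^ m)) atTop (𝓝 0) := by
    have := (tendsto_pow_const_div_const_pow_of_one_lt 2 (by norm_num : (1 : ℝ) < 128)).const_mul
      ((15 * g : ℝ) ^ c)
    simpa using this
  have t2 : Tendsto (fun m : ℕ => ν * (128 : ℝ) ^ m) atTop atTop :=
    (tendsto_pow_atTop_atTop_of_one_lt (by norm_num)).const_mul_atTop hν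
  obtain ⟨k, hk⟩ := eventually_atTop.1 ((t1.eventually_lt_const hκ₀).and
    ((t2.eventually_ge_atTop 1).and (eventually_ge_atTop 1)))
  refine ⟨k, fun m hm => ?_⟩
  obtain ⟨h1, h2, h3⟩ := hk m hm
  have hm1 : (1 : ℝ) ≤ m := by exact_mod_cast h3
  have h4 : (5 * (Km g s m : ℝ)) ^ c ≤ κ₀ * 128 ^ m := by
    calc (5 * (Km g s m : ℝ)) ^ c ≤ (15 * g) ^ c * (m : ℝ) ^ ((1 + s) * c) := scale_pow g m h3 s c hs hc
      _ ≤ (15 * g) ^ c * (m : ℝ) ^ (2 : ℝ) := by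
          gcongr
      _ = (15 * g : ℝ) ^ c * ((m : ℝ) ^ 2 / 128 ^ m) * 128 ^ m := by
          rw [Real.rpow_two]; field_simp
      _ ≤ κ₀ * 128 ^ m := by gcongr
  intro q p hq hqK
  obtain ⟨n, rfl⟩ : ∃ n : ℕ, q = n := ⟨q.toNat, by omega⟩
  have hn : 1 ≤ n := by omega
  have hn' : (1 : ℝ) ≤ n := by exact_mod_cast hn
  have hd := dist1_le_abs ((n : ℝ) * α) p
  push_cast
  push_cast at hqK
  by_cases hN : n < N₀
  · calc (1 : ℝ) ≤ ν * 128 ^ m := h2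
      _ = ν * 1 * 128 ^ m := by ring
      _ ≤ |(n : ℝ) * α - p| * n * 128 ^ m := by
        gcongr
        exact (hνQ n hn hN).trans hd
  · have h5 := hlow n (by omega) hn
    have hlog0 : 0 ≤ Real.log n := Real.log_nonneg hn'
    have h6 : Real.log n ^ c ≤ (5 * (Km g s m : ℝ)) ^ c := by
      gcongr
      exact log_le_scale n _ hn hqK
    have hd0 := dist1_nonneg ((n : ℝ) * α)
    have h7 : κ₀ ≤ n * (κ₀ * 128 ^ m) * dist1 (n * α) := by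
      refine h5.trans ?_
      gcongr
      exact h6.trans h4
    have h8 : κ₀ * 1 ≤ κ₀ * (dist1 (n * α) * n * 128 ^ m) := by linarith
    have h9 := le_of_mul_le_mul_left h8 hκ₀
    refine h9.trans ?_
    gcongr

theorem uniform (μ : Measure ℝ) [IsProbabilityMeasure μ] (C δ : ℝ) (hδ : 0 < δ)
    (hμ : ∀ n : ℤ, n ≠ 0 → ‖∫ x, e (n * x) ∂μ‖ ≤ C * |(n : ℝ)| ^ (-δ))
    (A Γ : Set ℝ) (θ₁ θ₂ c : ℝ) (hθ₁ : 0 ≤ θ₁) (hθ₂ : 0 ≤ θ₂) (hc : 0 < c)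
    (hc1 : c < 2 - 2 * θ₁) (hc2 : c * (1 + θ₂) < 2)
    (hA : ∃ C₁ : ℝ, ∀ K : ℕ, 1 ≤ K → ∃ F : Finset ℝ, (F.card : ℝ) ≤ Real.exp (C₁ * (K : ℝ) ^ θ₁) ∧
      ∀ α ∈ A, ∃ f ∈ F, |α - f - round (α - f)| ≤ Real.exp (-K))
    (hΓ : ∃ C₂ : ℝ, ∀ K : ℕ, 1 ≤ K → ∃ F : Finset ℝ, (F.card : ℝ) ≤ Real.exp (C₂ * (K : ℝ) ^ θ₂) ∧
      ∀ γ ∈ Γ, ∃ f ∈ F, |γ - f - round (γ - f)| ≤ Real.exp (-K)) :
    ∀ᵐ β ∂μ, ∀ α ∈ A, ∀ γ ∈ Γ, ∀ κ : ℝ, 0 < κ → ∀ N : ℕ, ∃ q : ℕ, N ≤ q ∧ 1 ≤ q ∧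
      q * Real.log q ^ c * (dist1 (q * α) * dist1 (q * β - γ)) < κ := by
  -- parameters
  obtain ⟨g, hg', hg⟩ : ∃ g : ℕ, 18 ≤ g ∧ 13 + 11 * δ ≤ δ * g := by
    obtain ⟨k, hk⟩ := exists_nat_ge (13 / δ + 11)
    refine ⟨k + 18, by omega, ?_⟩
    have h1 : δ * (13 / δ + 11) ≤ δ * k := by gcongr
    have h2 : δ * (13 / δ + 11) = 13 + 11 * δ := by field_simp
    push_cast
    nlinarith
  have hθ₁' : θ₁ < 1 := by linarith
  obtain ⟨s, hs, hs1, hs2, hs3⟩ : ∃ s : ℝ, 0 < s ∧ (1 + s) * θ₁ < s ∧ θ₂ < s ∧ (1 + s) * c < 2 := by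
    set s₀ : ℝ := max θ₂ (θ₁ / (1 - θ₁)) with hs₀
    have h1 : 0 < 1 - θ₁ := by linarith
    have h2 : s₀ < 2 / c - 1 := by
      rw [hs₀, max_lt_iff]
      constructor
      · rw [lt_sub_iff_add_lt, lt_div_iff₀ hc]; linarith
      · rw [lt_sub_iff_add_lt, lt_div_iff₀ hc]
        have : θ₁ / (1 - θ₁) + 1 = 1 / (1 - θ₁) := by field_simp; ring
        rw [this, div_mul_eq_mul_div, one_mul, div_lt_iff₀ h1]
        linarith
    obtain ⟨s, h3, h4⟩ := exists_between h2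
    have h5 : θ₂ ≤ s₀ := le_max_left _ _
    have h6 : θ₁ / (1 - θ₁) < s := lt_of_le_of_lt (le_max_right _ _) h3
    rw [div_lt_iff₀ h1] at h6
    rw [lt_sub_iff_add_lt, lt_div_iff₀ hc] at h4
    exact ⟨s, by linarith, by linarith, by linarith, by linarith⟩
  obtain ⟨C₁, hA⟩ := hA
  obtain ⟨C₂, hΓ⟩ := hΓ
  -- representatives
  have hKm : ∀ m, 1 ≤ m → 1 ≤ 15 * Km g s m := by
    intro m hm
    unfold Km
    have : 1 ≤ g * m * (⌈(m : ℝ) ^ s⌉₊ + 1) := Nat.one_le_iff_ne_zero.2 (by positivity)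
    omega
  have hreps : ∀ k m : ℕ, 1 ≤ m → ∃ R : Finset ℝ,
      (R.card : ℝ) ≤ Real.exp (C₁ * ((15 * Km g s m : ℕ) : ℝ) ^ θ₁) ∧
      (∀ α ∈ R, ∀ m', k ≤ m' → Dio2 α m' (Km g s m')) ∧
      (∀ α ∈ A, (∀ m', k ≤ m' → Dio2 α m' (Km g s m')) → ∃ α' ∈ R, ∃ n : ℤ,
        |α - α' - n| ≤ 2 * (1 / 128 ^ (3 * Km g s m))) := by
    intro k m hm
    obtain ⟨F, hF1, hF2⟩ := hA (15 * Km g s m) (hKm m hm)
    obtain ⟨R, hR1, hR2, hR3⟩ := reps F {α | α ∈ A ∧ ∀ m', k ≤ m' → Dio2 α m' (Km g s m')}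
      (Real.exp (-(15 * Km g s m : ℕ))) (fun α hα => hF2 α hα.1)
    refine ⟨R, ?_, fun α hα => (hR2 α hα).2, ?_⟩
    · have : (R.card : ℝ) ≤ F.card := by exact_mod_cast hR1
      exact this.trans hF1
    · intro α h1 h2
      obtain ⟨α', h3, n, h4⟩ := hR3 α ⟨h1, h2⟩
      refine ⟨α', h3, n, h4.trans ?_⟩
      have := exp15 (Km g s m)
      gcongr
  choose! R hR1 hR2 hR3 using hreps
  have hGs : ∀ m : ℕ, 1 ≤ m → ∃ G : Finset ℝ,
      (G.card : ℝ) ≤ Real.exp (C₂ * ((30 * m : ℕ) : ℝ) ^ θ₂) ∧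
      (∀ γ ∈ Γ, ∃ γ' ∈ G, ∃ n : ℤ, |γ - γ' - n| ≤ 1 / 128 ^ (6 * m)) := by
    intro m hm
    obtain ⟨F, hF1, hF2⟩ := hΓ (30 * m) (by omega)
    refine ⟨F, hF1, fun γ hγ => ?_⟩
    obtain ⟨f, h1, h2⟩ := hF2 γ hγ
    refine ⟨f, h1, round (γ - f), h2.trans ?_⟩
    have := exp15 (2 * m)
    have e1 : 15 * (2 * m) = 30 * m := by ring
    have e2 : 3 * (2 * m) = 6 * m := by ring
    rw [e1, e2] at this
    exact this
  choose! G hG1 hG2 using hGs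
  have hmain : ∀ k : ℕ, ∀ᵐ β ∂μ, ∃ᶠ m in atTop, ∀ α ∈ R k m, ∀ γ ∈ G m, β ∉ NoHit g s m α γ := by
    intro k
    refine metric_part μ |C| δ (abs_nonneg C) hδ ?_ g hg' hg s hs θ₁ θ₂ hs1 hs2 hθ₁ C₁ C₂
      (max k 1) (R k) G ?_ ?_ ?_
    · intro n hn
      refine (hμ n hn).trans ?_
      gcongr
      exact le_abs_self C
    · intro m hm
      exact hR1 k m ((le_max_right _ _).trans hm)
    · intro m hm
      exact hG1 m ((le_max_right _ _).trans hm)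
    · intro m hm α hα
      exact hR2 k m ((le_max_right _ _).trans hm) α hα m ((le_max_left _ _).trans hm)
  rw [← ae_all_iff] at hmain
  filter_upwards [hmain] with β hβ α hα γ hγ κ hκ N
  -- the trivial case
  by_cases htriv : ∀ κ : ℝ, 0 < κ → ∀ N : ℕ, ∃ q : ℕ, N ≤ q ∧ 1 ≤ q ∧
      q * Real.log q ^ c * dist1 (q * α) < κ
  · obtain ⟨q, h1, h2, h3⟩ := htriv κ hκ N
    refine ⟨q, h1, h2, lt_of_le_of_lt ?_ h3⟩
    have h4 : dist1 (q * β - γ) ≤ 1 := (dist1_le _).trans (by norm_num)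
    have h5 := dist1_nonneg (q * α)
    have h7 : 0 ≤ Real.log q := Real.log_natCast_nonneg q
    calc q * Real.log q ^ c * (dist1 (q * α) * dist1 (q * β - γ)) ≤
        q * Real.log q ^ c * (dist1 (q * α) * 1) := by gcongr
      _ = _ := by ring
  push Not at htriv
  obtain ⟨κ₀, hκ₀, N₀, hN₀⟩ := htriv
  have hirr : ∀ q : ℕ, 1 ≤ q → 0 < dist1 (q * α) := by
    intro q hq
    by_contra h0
    have h1 : dist1 (q * α) = 0 := le_antisymm (not_lt.1 h0) (dist1_nonneg _)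
    have h2 : (q : ℝ) * α = round (q * α) := by
      unfold dist1 at h1
      linarith [abs_eq_zero.1 h1]
    set k := N₀ + 1 with hk
    have h3 := hN₀ (k * q) (by rw [hk]; nlinarith) (by rw [hk]; nlinarith)
    have h4 : dist1 (((k * q : ℕ) : ℝ) * α) = 0 := by
      have h5 := dist1_le_abs (((k * q : ℕ) : ℝ) * α) (k * round ((q : ℝ) * α))
      have h6 : ((k * q : ℕ) : ℝ) * α - ((k * round ((q : ℝ) * α) : ℤ) : ℝ) = 0 := by
        push_cast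
        rw [← h2]; ring
      rw [h6, abs_zero] at h5
      exact le_antisymm h5 (dist1_nonneg _)
    rw [h4, mul_zero] at h3
    linarith
  obtain ⟨k, hk⟩ := dio_eventually α g s c hs hc hs3 hirr κ₀ hκ₀ N₀ hN₀
  -- smallness
  have t1 : Tendsto (fun m : ℕ => 3 * 6144000 * (15 * g : ℝ) ^ c * (m : ℝ) ^ (-(2 - (1 + s) * c)))
      atTop (𝓝 0) := by
    have := ((tendsto_rpow_neg_atTop (y := 2 - (1 + s) * c) (by linarith)).comp
      (tendsto_natCast_atTop_atTop (R := ℝ))).const_mul (3 * 6144000 * (15 * g : ℝ) ^ c)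
    simpa using this
  obtain ⟨m, h1, h2, h3, h4⟩ := ((hβ k).and_eventually ((t1.eventually_lt_const hκ).and
    ((eventually_ge_atTop 2500).and (eventually_ge_atTop N)))).exists
  have hm1 : 1 ≤ m := by omega
  have hm0 : (0 : ℝ) < m := by exact_mod_cast hm1
  obtain ⟨α', hα', n, hn⟩ := hR3 k m hm1 α hα hk
  obtain ⟨γ', hγ', n', hn'⟩ := hG2 m hm1 γ hγ
  obtain ⟨q, hq1, hq2, hq3⟩ := transfer g (by omega) s m h3 α γ α' γ' β n n' hn hn' (h1 α' hα' γ' hγ')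
  refine ⟨q, by omega, by omega, lt_of_le_of_lt ?_ h2⟩
  have hlog : Real.log q ^ c ≤ (5 * (Km g s m : ℝ)) ^ c := by
    have := Real.log_natCast_nonneg q
    gcongr
    exact log_le_scale q _ (by omega) hq2
  have hd : 0 ≤ q * (dist1 (q * α) * dist1 (q * β - γ)) :=
    mul_nonneg (by positivity) (mul_nonneg (dist1_nonneg _) (dist1_nonneg _))
  calc q * Real.log q ^ c * (dist1 (q * α) * dist1 (q * β - γ)) =
      Real.log q ^ c * (q * (dist1 (q * α) * dist1 (q * β - γ))) := by ring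
    _ ≤ ((15 * g) ^ c * (m : ℝ) ^ ((1 + s) * c)) * (3 * (6144000 / (m : ℝ) ^ 2)) := by
        apply mul_le_mul (hlog.trans (scale_pow g m hm1 s c hs hc)) hq3 hd (by positivity)
    _ = 3 * 6144000 * (15 * g : ℝ) ^ c * (m : ℝ) ^ (-(2 - (1 + s) * c)) := by
        have e1 : (m : ℝ) ^ (-(2 - (1 + s) * c)) = (m : ℝ) ^ ((1 + s) * c) / (m : ℝ) ^ 2 := by
          rw [show -(2 - (1 + s) * c) = (1 + s) * c - 2 by ring, Real.rpow_sub hm0, Real.rpow_two]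
        rw [e1]
        field_simp

end Pool.Agent.H587.FD
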